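import Pool.Agent.QC.Rec.Hess

/-!
# Change of frame
-/

namespace Pool.Agent.QC

open MvPolynomial Matrix

variable {R : Type*} [CommRing R] {n l : ℕ}

/-- The vector `(c, 0)`. -/
def dv (c : Fin n → R) : Fin (n + 1) → R := Fin.snoc c 0

@[simp] lemma dv_last (c : Fin n → R) : dv c (Fin.last n) = 0 := by simp [dv]

@[simp] lemma dv_castSucc (c : Fin n → R) (i : Fin n) : dv c i.castSucc = c i := by simp [dv]

/-- The matrix of `y ↦ (y', y_n - c . y')`. -/
def shM (c : Fin n → R) : Matrix (Fin (n + 1)) (Fin (n + 1)) R :=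
  1 - vecMulVec (Pi.single (Fin.last n) 1) (dv c)

/-- The matrix of `x ↦ (x', x_n + c . x')`. -/
def shN (c : Fin n → R) : Matrix (Fin (n + 1)) (Fin (n + 1)) R :=
  1 + vecMulVec (Pi.single (Fin.last n) 1) (dv c)

lemma shM_mul_shN (c : Fin n → R) : shM c * shN c = 1 := by
  have h : vecMulVec (Pi.single (Fin.last n) (1 : R)) (dv c) *
      vecMulVec (Pi.single (Fin.last n) 1) (dv c) = 0 := by
    rw [vecMulVec_mul_vecMulVec]
    simp
  rw [shM, shN, sub_mul, one_mul, mul_add, mul_one, h]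
  abel

lemma shN_mul_shM (c : Fin n → R) : shN c * shM c = 1 := by
  have h : vecMulVec (Pi.single (Fin.last n) (1 : R)) (dv c) *
      vecMulVec (Pi.single (Fin.last n) 1) (dv c) = 0 := by
    rw [vecMulVec_mul_vecMulVec]
    simp
  rw [shM, shN, add_mul, one_mul, mul_sub, mul_one, h]
  abel

lemma isUnit_det_shM (c : Fin n → R) : IsUnit (shM c).det := by
  have := congrArg Matrix.det (shM_mul_shN c)
  rw [det_mul, det_one] at this
  exact IsUnit.of_mul_eq_one _ this

lemma shM_apply (c : Fin n → R) (i j : Fin (n + 1)) :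
    shM c i j = (if i = j then 1 else 0) - if i = Fin.last n then dv c j else 0 := by
  rw [shM, Matrix.sub_apply, one_apply, vecMulVec_apply, Pi.single_apply]
  split_ifs <;> simp

lemma qv_eq {N : ℕ} (p : QP R N) (x : Fin N → R) :
    qv p x = x ⬝ᵥ (Matrix.of p.1) *ᵥ x + p.2.1 ⬝ᵥ x + p.2.2 := by
  rw [qv, dotProduct, dotProduct]
  congr 2
  refine Finset.sum_congr rfl fun i _ => ?_
  rw [mulVec, dotProduct, Finset.mul_sum]
  exact Finset.sum_congr rfl fun j _ => by rw [of_apply]; ring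

lemma qg_eq {N : ℕ} (p : QP R N) (x : Fin N → R) (k : Fin N) :
    qg p k x = ((Matrix.of p.1 + (Matrix.of p.1)ᵀ) *ᵥ x + p.2.1) k := by
  rw [qg, Pi.add_apply, mulVec, dotProduct]
  rfl

lemma qh_eq {N : ℕ} (p : QP R N) (i j : Fin N) :
    qh p i j = (Matrix.of p.1 + (Matrix.of p.1)ᵀ) i j := rfl

lemma of_shQ (c : Fin n → R) (p : QP R (n + 1)) :
    Matrix.of (shQ c p).1 = (shM c)ᵀ * Matrix.of p.1 * shM c := by
  ext i j
  rw [mul_apply]
  have h1 : ∀ k, ((shM c)ᵀ * Matrix.of p.1) i k = p.1 i k - dv c i * p.1 (Fin.last n) k := by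
    intro k
    rw [mul_apply]
    simp only [transpose_apply, shM_apply, of_apply, sub_mul, ite_mul, one_mul, zero_mul,
      Finset.sum_sub_distrib, Finset.sum_ite_eq', Finset.mem_univ, if_true]
  simp only [h1, shM_apply, mul_sub, mul_ite, mul_one, mul_zero, Finset.sum_sub_distrib,
    Finset.sum_ite_eq', Finset.mem_univ, if_true]
  show p.1 i j - dv c i * p.1 (Fin.last n) j - p.1 i (Fin.last n) * dv c j +
      dv c i * dv c j * p.1 (Fin.last n) (Fin.last n) = _
  ring

lemma shQ_snd (c : Fin n → R) (p : QP R (n + 1)) :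
    (shQ c p).2.1 = (shM c)ᵀ *ᵥ p.2.1 := by
  funext i
  rw [mulVec, dotProduct]
  simp only [transpose_apply, shM_apply, sub_mul, ite_mul, one_mul, zero_mul,
    Finset.sum_sub_distrib, Finset.sum_ite_eq', Finset.mem_univ, if_true]
  rfl

lemma qv_shQ (c : Fin n → R) (p : QP R (n + 1)) (y : Fin (n + 1) → R) :
    qv (shQ c p) y = qv p (shM c *ᵥ y) := by
  rw [qv_eq, qv_eq, of_shQ, shQ_snd]
  congr 1
  congr 1
  · rw [← mulVec_mulVec, ← mulVec_mulVec, dotProduct_mulVec, vecMul_transpose]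
  · rw [mulVec_transpose, ← dotProduct_mulVec]

lemma qg_shQ (c : Fin n → R) (p : QP R (n + 1)) (y : Fin (n + 1) → R) (k : Fin (n + 1)) :
    qg (shQ c p) k y = ∑ j, shM c j k * qg p j (shM c *ᵥ y) := by
  rw [qg_eq, of_shQ, shQ_snd]
  have h1 : ((shM c)ᵀ * Matrix.of p.1 * shM c + ((shM c)ᵀ * Matrix.of p.1 * shM c)ᵀ) *ᵥ y +
      (shM c)ᵀ *ᵥ p.2.1 =
      (shM c)ᵀ *ᵥ ((Matrix.of p.1 + (Matrix.of p.1)ᵀ) *ᵥ (shM c *ᵥ y) + p.2.1) := by
    rw [mulVec_add, mulVec_mulVec, mulVec_mulVec, transpose_mul, transpose_mul,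
      transpose_transpose, mul_add, add_mul]
    simp only [Matrix.mul_assoc]
  rw [h1, mulVec, dotProduct]
  exact Finset.sum_congr rfl fun j _ => by rw [transpose_apply, qg_eq]

lemma qh_shQ (c : Fin n → R) (p : QP R (n + 1)) (i j : Fin (n + 1)) :
    qh (shQ c p) i j = ((shM c)ᵀ * (Matrix.of fun i j => qh p i j) * shM c) i j := by
  rw [qh_eq, of_shQ]
  have h1 : (Matrix.of fun i j => qh p i j) = Matrix.of p.1 + (Matrix.of p.1)ᵀ := by
    ext i j; rfl
  rw [h1, transpose_mul, transpose_mul, transpose_transpose, mul_add, add_mul]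
  simp only [Matrix.mul_assoc]

lemma fPi_shT (c : Fin n → R) (q : Fin (l + 1) → QP R (n + 1)) (y : Fin (n + 1) → R) :
    fPi (shT c q) y = fPi q (shM c *ᵥ y) := by
  simp only [fPi, shT, qv_shQ]

lemma fF_shT (c : Fin n → R) (q : Fin (l + 1) → QP R (n + 1)) (y : Fin (n + 1) → R) :
    fF (shT c q) y = fF q (shM c *ᵥ y) := by
  simp only [fF, shT, qv_shQ]

lemma fG_shT (c : Fin n → R) (q : Fin (l + 1) → QP R (n + 1)) (y : Fin (n + 1) → R)
    (i : Fin (n + 1)) :
    fG (shT c q) y i = ∑ j, shM c j i * fG q (shM c *ᵥ y) j := by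
  simp only [fG, shT, qv_shQ, qg_shQ, Finset.sum_mul, Finset.mul_sum]
  rw [Finset.sum_comm]
  exact Finset.sum_congr rfl fun j _ => Finset.sum_congr rfl fun m _ => by ring

lemma fH_shT (c : Fin n → R) (q : Fin (l + 1) → QP R (n + 1)) (y : Fin (n + 1) → R) :
    (Matrix.of fun i j => fH (shT c q) y i j) =
      (shM c)ᵀ * (Matrix.of fun i j => fH q (shM c *ᵥ y) i j) * shM c := by
  ext i j
  have hmul : ∀ (A : Matrix (Fin (n + 1)) (Fin (n + 1)) R),
      ((shM c)ᵀ * A * shM c) i j = ∑ a, ∑ b, shM c a i * A a b * shM c b j := by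
    intro A
    rw [mul_apply]
    simp only [mul_apply, transpose_apply, Finset.sum_mul]
    rw [Finset.sum_comm]
  rw [hmul]
  simp only [of_apply, fH, shT, qv_shQ, qg_shQ, qh_shQ]
  simp only [hmul, of_apply, Finset.sum_add_distrib, mul_add, add_mul, Finset.mul_sum,
    Finset.sum_mul]
  congr 1
  · rw [Finset.sum_comm]
    refine Finset.sum_congr rfl fun a _ => ?_
    rw [Finset.sum_comm]
    exact Finset.sum_congr rfl fun b _ => Finset.sum_congr rfl fun m _ => by ring
  · have e1 : ∀ m : Fin (l + 1), ∑ m' ∈ Finset.univ.erase m, ∑ b, ∑ a,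
        shM c b j * qg (q m) b (shM c *ᵥ y) * (shM c a i * qg (q m') a (shM c *ᵥ y) *
          ∏ m'' ∈ (Finset.univ.erase m).erase m', qv (q m'') (shM c *ᵥ y)) =
        ∑ a, ∑ b, ∑ m' ∈ Finset.univ.erase m, shM c a i * (qg (q m) b (shM c *ᵥ y) *
          (qg (q m') a (shM c *ᵥ y) *
          ∏ m'' ∈ (Finset.univ.erase m).erase m', qv (q m'') (shM c *ᵥ y))) * shM c b j := by
      intro m
      rw [Finset.sum_comm]
      have : ∀ b, ∑ m' ∈ Finset.univ.erase m, ∑ a,
          shM c b j * qg (q m) b (shM c *ᵥ y) * (shM c a i * qg (q m') a (shM c *ᵥ y) *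
            ∏ m'' ∈ (Finset.univ.erase m).erase m', qv (q m'') (shM c *ᵥ y)) =
          ∑ a, ∑ m' ∈ Finset.univ.erase m, shM c a i * (qg (q m) b (shM c *ᵥ y) *
          (qg (q m') a (shM c *ᵥ y) *
          ∏ m'' ∈ (Finset.univ.erase m).erase m', qv (q m'') (shM c *ᵥ y))) * shM c b j := by
        intro b
        rw [Finset.sum_comm]
        exact Finset.sum_congr rfl fun a _ => Finset.sum_congr rfl fun m' _ => by ring
      rw [Finset.sum_congr rfl fun b _ => this b, Finset.sum_comm]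
    have e2 := Finset.sum_congr rfl fun m (_ : m ∈ (Finset.univ : Finset (Fin (l + 1)))) => e1 m
    calc _ = _ := ?_
      _ = _ := e2
      _ = _ := ?_
    · refine Finset.sum_congr rfl fun m _ => Finset.sum_congr rfl fun m' _ => ?_
      rw [Finset.sum_comm]
    · rw [Finset.sum_comm]
      refine Finset.sum_congr rfl fun a _ => ?_
      rw [Finset.sum_comm]

end Pool.Agent.QC
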