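import Pool.Agent.QC.Subst

/-!
# Computing something that satisfies a relation

`DecRel M c K D R`: with at most `c` steps a value `b` with `R x b` is found for all inputs
`x ∈ D`.  The computation may choose between several possible values, so only a relation and not a
function is prescribed.
-/

namespace Pool.Agent.QC

open MvPolynomial Filter Topology

variable {σ τ : Type*} {β γ : Type*}

/-- See the header. -/
def DecRel (M c : ℕ) (K : Set (MvPolynomial σ ℤ)) (D : Set (σ → ℝ))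
    (R : (σ → ℝ) → β → Prop) : Prop :=
  ∃ F : (σ → ℝ) → β, Dec M c K D F ∧ ∀ x ∈ D, R x (F x)

/-- Local choices can be put together. -/
theorem Run.choose {M c c' : ℕ} {K : Set (MvPolynomial σ ℤ)} {D : Set (σ → ℝ)}
    {R : (σ → ℝ) → β → Prop} (h : Run M (fun K₁ D₁ => DecRel M c' K₁ D₁ R) c K D) :
    DecRel M (c + c') K D R := by
  classical
  induction h with
  | ret K₀ D₀ h1 h2 h3 =>
    obtain ⟨F, hF, hR⟩ := h3
    exact ⟨F, hF.mono le_rfl (Nat.le_add_left _ _) h1 h2, fun x hx => hR x (h2 hx)⟩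
  | cst z _ ih =>
    obtain ⟨F, hF, hR⟩ := ih
    exact ⟨F, Run.cst z hF, hR⟩
  | @op c K D r h1 h2 _ ih =>
    obtain ⟨F, hF, hR⟩ := ih
    have : Dec M (c + c' + 1) K D F := Run.op h1 h2 hF
    exact ⟨F, this.mono_c (by omega), hR⟩
  | @sgn c K D p h1 _ _ _ ih1 ih2 ih3 =>
    obtain ⟨F₁, hF₁, hR₁⟩ := ih1
    obtain ⟨F₂, hF₂, hR₂⟩ := ih2
    obtain ⟨F₃, hF₃, hR₃⟩ := ih3
    set F : (σ → ℝ) → β := fun x =>
      if ev x p < 0 then F₁ x else if ev x p = 0 then F₂ x else F₃ x with hF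
    have e1 : ∀ x ∈ D ∩ {x | ev x p < 0}, F₁ x = F x := by
      rintro x ⟨_, hx⟩
      simp only [Set.mem_ofPred_eq] at hx
      simp only [hF, if_pos hx]
    have e2 : ∀ x ∈ D ∩ {x | ev x p = 0}, F₂ x = F x := by
      rintro x ⟨_, hx⟩
      simp only [Set.mem_ofPred_eq] at hx
      simp only [hF, hx, lt_irrefl, if_false, if_true]
    have e3 : ∀ x ∈ D ∩ {x | 0 < ev x p}, F₃ x = F x := by
      rintro x ⟨_, hx⟩
      simp only [Set.mem_ofPred_eq] at hx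
      simp only [hF, if_neg hx.le.not_gt, if_neg hx.ne']
    refine ⟨F, ?_, ?_⟩
    · have : Dec M (c + c' + 1) K D F :=
        Run.sgn h1 (hF₁.congr e1) (hF₂.congr e2) (hF₃.congr e3)
      exact this.mono_c (by omega)
    · intro x hx
      rcases lt_trichotomy (ev x p) 0 with h | h | h
      · rw [← e1 x ⟨hx, h⟩]; exact hR₁ x ⟨hx, h⟩
      · rw [← e2 x ⟨hx, h⟩]; exact hR₂ x ⟨hx, h⟩
      · rw [← e3 x ⟨hx, h⟩]; exact hR₃ x ⟨hx, h⟩

namespace DecRel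

variable {M M' c c' : ℕ} {K K' : Set (MvPolynomial σ ℤ)} {D D' : Set (σ → ℝ)}
  {R : (σ → ℝ) → β → Prop}

theorem mono (h : DecRel M c K D R) (hM : M ≤ M') (hc : c ≤ c') (hK : K ⊆ K') (hD : D' ⊆ D) :
    DecRel M' c' K' D' R := by
  obtain ⟨F, hF, hR⟩ := h
  exact ⟨F, hF.mono hM hc hK hD, fun x hx => hR x (hD hx)⟩

/-- A weaker relation. -/
theorem imp {R' : (σ → ℝ) → β → Prop} (h : DecRel M c K D R)
    (h' : ∀ x ∈ D, ∀ b, R x b → R' x b) : DecRel M c K D R' := by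
  obtain ⟨F, hF, hR⟩ := h
  exact ⟨F, hF, fun x hx => h' x hx _ (hR x hx)⟩

theorem of_dec {F : (σ → ℝ) → β} (h : Dec M c K D F) (hR : ∀ x ∈ D, R x (F x)) :
    DecRel M c K D R := ⟨F, h, hR⟩

theorem of_run {Q : Set (MvPolynomial σ ℤ) → Set (σ → ℝ) → Prop} (h : Run M Q c K D)
    (h' : ∀ K₀ D₀, Q K₀ D₀ → ∀ K₁ D₁, K ⊆ K₁ → K₀ ⊆ K₁ → D₁ ⊆ D → D₁ ⊆ D₀ →
      DecRel M c' K₁ D₁ R) : DecRel M (c + c') K D R := by
  refine Run.choose ?_
  have := Run.bind (c' := 0) (Q' := fun K₁ D₁ => DecRel M c' K₁ D₁ R) h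
    fun K₀ D₀ h0 K₁ D₁ h1 h2 h3 h4 => Run.pure (h' K₀ D₀ h0 K₁ D₁ h1 h2 h3 h4)
  simpa using this

/-- First find `S x`, then, knowing it, find a value. -/
theorem bind {S : (σ → ℝ) → γ} (h : Dec M c K D S)
    (h' : ∀ s, DecRel M c' K (D ∩ S ⁻¹' {s}) R) : DecRel M (c + c') K D R := by
  refine of_run h fun K₀ D₀ h0 K₁ D₁ h1 _ h3 h4 => ?_
  rcases Set.eq_empty_or_nonempty D₁ with rfl | ⟨x, hx⟩
  · exact (h' (S 0)).mono le_rfl le_rfl h1 (Set.empty_subset _)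
  · refine (h' (S x)).mono le_rfl le_rfl h1 fun y hy => ⟨h3 hy, ?_⟩
    exact h0 y (h4 hy) x (h4 hx)

theorem subst {m : ℕ} (h : DecRel M c K D R) {f : σ → MvPolynomial τ ℤ}
    (hf : ∀ i, (f i).totalDegree ≤ m) {K' : Set (MvPolynomial τ ℤ)} {D' : Set (τ → ℝ)}
    (hK : ∀ p ∈ K, bind₁ f p ∈ K') (hD : ∀ y ∈ D', spt f y ∈ D) :
    DecRel (M * m) c K' D' (fun y => R (spt f y)) := by
  obtain ⟨F, hF, hR⟩ := h
  exact ⟨fun y => F (spt f y), hF.subst hf hK hD, fun y hy => hR _ (hD y hy)⟩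

end DecRel

end Pool.Agent.QC
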