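import Pool.Agent.QC.Rec.FramePos

/-!
# A sufficient condition for `HasEv` in terms of computable data
-/

namespace Pool.Agent.QC

open MvPolynomial Matrix Filter Topology Lab

variable {n l : ℕ}

lemma shM_shN_mulVec {R : Type*} [CommRing R] (c : Fin n → R) (v : Fin (n + 1) → R) :
    shM c *ᵥ (shN c *ᵥ v) = v := by
  rw [mulVec_mulVec, shM_mul_shN, one_mulVec]

lemma shN_zero {R : Type*} [CommRing R] : shN (0 : Fin n → R) = 1 := by
  have : dv (0 : Fin n → R) = 0 := by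
    funext i
    refine Fin.lastCases ?_ (fun j => ?_) i <;> simp
  rw [shN, this]
  simp

lemma mem_SingF_shT {p : RTup n l} {v : Fin (n + 1) → ℝ} (hv : xC v ∈ SingF (f0 (tC p)))
    (c : Fin n → ℝ) : xC (shN c *ᵥ v) ∈ SingF (f0 (tC (shT c p))) := by
  rw [mem_SingF_xC] at hv ⊢
  rw [fF_shT, shM_shN_mulVec]
  refine ⟨hv.1, fun i => ?_⟩
  rw [fG_shT, shM_shN_mulVec]
  simp [hv.2]

lemma HR_shT (p : RTup n l) (v : Fin (n + 1) → ℝ) (c : Fin n → ℝ) :
    HR (shT c p) (shN c *ᵥ v) = (shM c)ᵀ * HR p v * shM c := by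
  have h1 := fH_shT c p (shN c *ᵥ v)
  rw [shM_shN_mulVec] at h1
  have h2 : ∀ (p : RTup n l) (v : Fin (n + 1) → ℝ),
      HR p v = (fPi p v)⁻¹ • (Matrix.of fun i j => fH p v i j) := by
    intro p v
    ext i j
    rw [HR_eq_fH, Matrix.smul_apply, of_apply, smul_eq_mul, div_eq_mul_inv, mul_comm]
  rw [h2, h2, fPi_shT, shM_shN_mulVec, h1, Matrix.mul_smul, Matrix.smul_mul]

lemma inOm_shT (q : RTup n l) (v : Fin (n + 1) → ℝ) (c : Fin n → ℝ) :
    inOm (shT c q) (shN c *ᵥ v) ↔ inOm q v := by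
  unfold inOm
  refine forall_congr' fun m => ?_
  have : qvR (shT c q m.succ) (shN c *ᵥ v) = qvR (q m.succ) v := by
    have := qv_shQ c (q m.succ) (shN c *ᵥ v)
    rw [shM_shN_mulVec] at this
    exact this
  rw [this]

lemma inOm_addTR (q : RTup n l) (t : ℝ) (v : Fin (n + 1) → ℝ) :
    inOm (addT q t) v ↔ inOm q v := by
  unfold inOm
  simp [addT]

lemma fPi_addT {R : Type*} [CommRing R] (q : Fin (l + 1) → QP R (n + 1)) (t : R)
    (v : Fin (n + 1) → R) : fPi (addT q t) v = fPi q v := by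
  simp [fPi, addT]

/-- The conditions on the words of a record. -/
def WordsOK {Phi : MvPolynomial (Ix n l) ℂ} (RS : RootSys Phi) (q₀ : Tup n l) (q : RTup n l)
    (t₀ t : ℝ) (c : Fin n → ℝ) (κ ω : ℝ) (R : EvRec) : Prop :=
  word (fun s => RS.Rt (pathA q₀ (tC (addT q t₀)) ω s)) = R.wA ∧
  word (fun s => RS.Rt (pathB (tC q) t₀ ((t + κ : ℝ) : ℂ) ω s)) = R.wB ∧
  word (fun s => RS.Rt (pathC (tC (addT q (t + κ))) (xC c) ω s)) = R.wC

/-- What the tree certifies about an event. -/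
def EvCert {Phi : MvPolynomial (Ix n l) ℂ} (RS : RootSys Phi) (q₀ : Tup n l) (q : RTup n l)
    (t₀ t : ℝ) (v : Fin (n + 1) → ℝ) (R : EvRec) : Prop :=
  (R.cls = 0 ↔ inOm q v ∧ NegDef (Hm (addT q t) v)) ∧
  (R.cls = 1 ↔ inOm q v ∧ OnePos (Hm (addT q t) v)) ∧
  ((R.real = true ∧ NegDef (Hm (addT q t) v) ∧
      ∀ᶠ κ in 𝓝[>] (0 : ℝ), ∀ᶠ ω in 𝓝[>] (0 : ℝ), WordsOK RS q₀ q t₀ t 0 κ ω R ∧
        {z ∈ RS.Rt (tC (addT q (t + κ))) | z.im = 0 ∧ z.re < v (Fin.last n)}.ncard = R.cnt) ∨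
    (R.real = false ∧ ∃ a : Fin (n + 1) → ℝ, 0 < a ⬝ᵥ Hm (addT q t) v *ᵥ a ∧
      ∀ᶠ κ' in 𝓝[>] (0 : ℝ), ∀ᶠ κ in 𝓝[>] (0 : ℝ), ∀ᶠ ω in 𝓝[>] (0 : ℝ),
        WordsOK RS q₀ q t₀ t (cFr (Hm (addT q t) v *ᵥ a) κ') κ ω R))

theorem HasEv.of_cert {Phi : MvPolynomial (Ix n l) ℂ} {RS : RootSys Phi} {q₀ : Tup n l}
    {q : RTup n l} {t₀ t : ℝ} {v : Fin (n + 1) → ℝ} {R : EvRec}
    (hq : eval (cfs (tC q)) Phi ≠ 0) (hv : xC v ∈ SingF (f0 (tC (addT q t))))
    (hdet : (hess (f0 (tC (addT q t))) (xC v)).det ≠ 0)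
    (h : EvCert RS q₀ q t₀ t v R) : HasEv RS q₀ q t₀ t R := by
  obtain ⟨hc0, hc1, hw⟩ := h
  have hf := ((mem_SingF_xC _ _).1 hv).1
  have hPi : fPi (addT q t) v ≠ 0 := fPi_ne_zero hf
  have hs : 0 < fPi (addT q t) v ^ 2 := by positivity
  have hHm := Hm_eq hf
  -- the class in any frame
  have hcls : ∀ c : Fin n → ℝ,
      (R.cls = 0 ↔ inOm (shT c q) (shN c *ᵥ v) ∧
        NegDef (HR (shT c (addT q t)) (shN c *ᵥ v))) ∧
      (R.cls = 1 ↔ inOm (shT c q) (shN c *ᵥ v) ∧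
        OnePos (HR (shT c (addT q t)) (shN c *ᵥ v))) := by
    intro c
    rw [inOm_shT, HR_shT, negDef_congr (isUnit_det_shM c), onePos_congr (isUnit_det_shM c),
      ← negDef_smulR hs, ← onePos_smulR hs, ← hHm]
    exact ⟨hc0, hc1⟩
  rcases hw with ⟨hr, hneg, hw⟩ | ⟨hr, a, ha, hw⟩
  · refine ⟨0, v, ?_, ?_, ?_, ?_, ?_, ?_, ?_⟩
    · rw [shT_zero]; exact hv
    · rw [shT_zero]; exact hq
    · intro _
      refine ⟨rfl, ?_⟩
      rw [shT_zero, ← negDef_smulR hs, ← hHm]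
      exact hneg
    · intro h; rw [hr] at h; exact absurd h (by decide)
    · have := (hcls 0).1
      rwa [shN_zero, one_mulVec] at this
    · have := (hcls 0).2
      rwa [shN_zero, one_mulVec] at this
    · filter_upwards [hw] with κ hκ
      filter_upwards [hκ] with ω hω
      exact ⟨hω.1.1, hω.1.2.1, hω.1.2.2, fun _ => hω.2⟩
  · -- positivity in the frame
    have hdetR : (HR (addT q t) v).det ≠ 0 := by
      intro h0
      apply hdet
      have e1 : hess (f0 (tC (addT q t))) (xC v) =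
          ((fPi (addT q t) v : ℝ) : ℂ) • (HR (addT q t) v).map (Complex.ofRealHom) := by
        ext i j
        rw [hess_f0, ofReal_fH, Matrix.smul_apply, map_apply, HR_eq_fH, smul_eq_mul]
        have : ((fPi (addT q t) v : ℝ) : ℂ) ≠ 0 := by exact_mod_cast hPi
        simp only [Complex.ofRealHom_eq_coe]
        push_cast
        field_simp
      have e2 : ((HR (addT q t) v).map Complex.ofRealHom).det = 0 := by
        have := RingHom.map_det Complex.ofRealHom (HR (addT q t) v)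
        rw [h0, map_zero] at this
        exact this.symm
      rw [e1, det_smul, e2, mul_zero]
    have hdetm : (Hm (addT q t) v).det ≠ 0 := by
      rw [hHm, det_smul]
      exact mul_ne_zero (pow_ne_zero _ hs.ne') hdetR
    have h1 := frame_pos hdetm ha
    have h2 := frame_Phi hq (Hm (addT q t) v *ᵥ a)
    obtain ⟨κ', ⟨k1, k2⟩, k3, k4⟩ := (h1.and (h2.and hw)).exists
    set c := cFr (Hm (addT q t) v *ᵥ a) κ' with hc
    refine ⟨c, shN c *ᵥ v, mem_SingF_shT hv c, k3 k1, ?_, ?_, (hcls c).1, (hcls c).2, ?_⟩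
    · intro h; rw [hr] at h; exact absurd h (by decide)
    · intro _
      rw [HR_shT]
      rw [hHm, Matrix.mul_smul, Matrix.smul_mul] at k2
      have hu : IsUnit ((shM c)ᵀ * HR (addT q t) v * shM c).det := by
        rw [det_mul, det_mul, det_transpose]
        exact ((isUnit_det_shM c).mul (isUnit_iff_ne_zero.2 hdetR)).mul (isUnit_det_shM c)
      have e3 : (fPi (addT q t) v ^ 2 • ((shM c)ᵀ * HR (addT q t) v * shM c))⁻¹ =
          (fPi (addT q t) v ^ 2)⁻¹ • ((shM c)ᵀ * HR (addT q t) v * shM c)⁻¹ := by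
        refine Matrix.inv_eq_right_inv ?_
        rw [Matrix.smul_mul, Matrix.mul_smul, smul_smul, mul_inv_cancel₀ hs.ne', one_smul,
          mul_nonsing_inv _ hu]
      rw [e3, Matrix.smul_apply, smul_eq_mul] at k2
      have hi : 0 < (fPi (addT q t) v ^ 2)⁻¹ := inv_pos.2 hs
      by_contra hcon
      exact absurd k2 (not_lt.2 (mul_nonpos_of_nonneg_of_nonpos hi.le (not_lt.1 hcon)))
    · filter_upwards [k4] with κ hκ
      filter_upwards [hκ] with ω hω
      exact ⟨hω.1, hω.2.1, hω.2.2, fun h => by rw [hr] at h; exact absurd h (by decide)⟩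

end Pool.Agent.QC
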