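import Pool.Agent.QC.Rec
import Pool.Agent.QC.Cplx

/-!
# Polynomial paths in the space of tuples

The coefficients of the paths A, B, C are polynomials in `s` whose coefficients are polynomials in
the data (real numbers).  `PV n l J` is the index type of the (real and imaginary parts of the)
coefficients of paths of degree at most `J`.
-/

namespace Pool.Agent.QC

open MvPolynomial Filter Topology Set

variable {n l : ℕ}

/-- The tuple with given coefficients. -/
def tupOf {R : Type*} (x : Ix n l → R) : Fin (l + 1) → QP R (n + 1) :=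
  fun m => (fun i j => x (m, Sum.inl (i, j)), fun i => x (m, Sum.inr (Sum.inl i)),
    x (m, Sum.inr (Sum.inr ())))

@[simp] lemma cfs_tupOf {R : Type*} (x : Ix n l → R) : cfs (tupOf x) = x := by
  funext ⟨m, i⟩
  rcases i with ⟨i, j⟩ | i | i <;> rfl

@[simp] lemma tupOf_cfs {R : Type*} (q : Fin (l + 1) → QP R (n + 1)) : tupOf (cfs q) = q := rfl

lemma cfs_injective {R : Type*} : Function.Injective (cfs : (Fin (l + 1) → QP R (n + 1)) → _) :=
  fun q q' h => by rw [← tupOf_cfs q, h, tupOf_cfs]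

/-- Coefficients of paths of degree at most `J`: `(j, false, i)` is the real part, `(j, true, i)`
the imaginary part of the coefficient of `s ^ j` in the `i`-th coordinate. -/
abbrev PV (n l J : ℕ) := Fin (J + 1) × Bool × Ix n l

/-- The path. -/
noncomputable def ppath {J : ℕ} (y : PV n l J → ℝ) (s : ℝ) : Tup n l :=
  tupOf fun i => ∑ j : Fin (J + 1), ((y (j, false, i) : ℂ) + (y (j, true, i) : ℂ) * Complex.I) *
    (s : ℂ) ^ (j : ℕ)

/-- The same with formal variables: `none` for the imaginary unit, `some none` for `s`. -/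
noncomputable def upath {J : ℕ} (i : Ix n l) : MvPolynomial (Option (Option (PV n l J))) ℤ :=
  ∑ j : Fin (J + 1), (X (some (some (j, false, i))) + X (some (some (j, true, i))) * X none) *
    X (some none) ^ (j : ℕ)

lemma cev_bind₁ {σ τ : Type*} (u : σ → MvPolynomial τ ℤ) (x : τ → ℂ) (p : MvPolynomial σ ℤ) :
    cev x (bind₁ u p) = cev (fun i => cev x (u i)) p := by
  unfold cev
  rw [aeval_bind₁]

lemma cev_upath {J : ℕ} (y : PV n l J → ℝ) (s : ℝ) (i : Ix n l) :
    cev (ptI (pt y s)) (upath (J := J) i) = cfs (ppath y s) i := by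
  unfold cev upath ppath
  rw [cfs_tupOf, map_sum]
  refine Finset.sum_congr rfl fun j _ => ?_
  simp [ptI]

lemma totalDegree_upath {J : ℕ} (i : Ix n l) : (upath (J := J) i).totalDegree ≤ J + 2 := by
  refine totalDegree_finsetSum_le fun j _ => (totalDegree_mul _ _).trans ?_
  have h1 : (X (some (some (j, false, i))) + X (some (some (j, true, i))) * X none :
      MvPolynomial (Option (Option (PV n l J))) ℤ).totalDegree ≤ 2 := by
    refine (totalDegree_add _ _).trans (max_le ?_ ?_)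
    · rw [totalDegree_X]; omega
    · refine (totalDegree_mul _ _).trans ?_
      rw [totalDegree_X, totalDegree_X]
  have h2 : (X (some none) ^ (j : ℕ) :
      MvPolynomial (Option (Option (PV n l J))) ℤ).totalDegree ≤ J := by
    rw [totalDegree_X_pow]; omega
  omega

/-- A polynomial in the coefficients of a tuple along a path, split into real and imaginary part:
polynomials in `s`. -/
theorem cev_path {J M : ℕ} {g : MvPolynomial (Ix n l) ℤ} (hg : g.totalDegree * (J + 2) ≤ M)
    (y : PV n l J → ℝ) (s : ℝ) :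
    cev (cfs (ppath y s)) g = (ev (pt y s) (reP M (bind₁ (upath (J := J)) g)) : ℂ) +
      (ev (pt y s) (imP M (bind₁ (upath (J := J)) g)) : ℂ) * Complex.I := by
  rw [← cev_ptI ((totalDegree_bind₁_le totalDegree_upath g).trans hg), cev_bind₁]
  congr 1
  funext i
  exact (cev_upath y s i).symm

/-! ### The paths A, B, C -/

section Paths

variable {R : Type*} [CommRing R]

/-- Coefficients of the path `B₀ + z B₁ + z ^ 2 B₂` with `z = z₁ s + i ω s (1 - s)`. -/
def yP (z₁ ω : R) (B₀ B₁ B₂ : Ix n l → R) : PV n l 4 → R := fun p =>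
  match p with
  | (0, false, i) => B₀ i
  | (0, true, _) => 0
  | (1, false, i) => z₁ * B₁ i
  | (1, true, i) => ω * B₁ i
  | (2, false, i) => (z₁ * z₁ - ω * ω) * B₂ i
  | (2, true, i) => 2 * z₁ * ω * B₂ i - ω * B₁ i
  | (3, false, i) => 2 * ω * ω * B₂ i
  | (3, true, i) => - (2 * ω * z₁) * B₂ i
  | (4, false, i) => - (ω * ω) * B₂ i
  | (4, true, _) => 0

lemma map_yP {S : Type*} [CommRing S] (f : R →+* S) (z₁ ω : R) (B₀ B₁ B₂ : Ix n l → R)
    (p : PV n l 4) : f (yP z₁ ω B₀ B₁ B₂ p) =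
      yP (f z₁) (f ω) (fun i => f (B₀ i)) (fun i => f (B₁ i)) (fun i => f (B₂ i)) p := by
  obtain ⟨j, b, i⟩ := p
  have h2 : f 2 = 2 := map_ofNat f 2
  fin_cases j <;> cases b <;> simp [yP, h2]

theorem ppath_yP (z₁ ω : ℝ) (B₀ B₁ B₂ : Ix n l → ℝ) (s : ℝ) :
    ppath (yP z₁ ω B₀ B₁ B₂) s =
      tupOf fun i => (B₀ i : ℂ) + arc ω z₁ s * B₁ i + arc ω z₁ s ^ 2 * B₂ i := by
  unfold ppath
  congr 1
  funext i
  rw [Fin.sum_univ_five]
  simp only [yP, arc]
  have hI : Complex.I ^ 2 = -1 := Complex.I_sq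
  push_cast
  simp only [Fin.val_zero, Fin.val_one, Fin.val_two, pow_zero, pow_one]
  have h3 : ((3 : Fin 5) : ℕ) = 3 := rfl
  have h4 : ((4 : Fin 5) : ℕ) = 4 := rfl
  rw [h3, h4]
  linear_combination (-(ω : ℂ) ^ 2 * B₂ i * (s : ℂ) ^ 2 * (1 - s) ^ 2) * hI

/-- The direction of path B. -/
def B1B : Ix n l → R := fun i =>
  match i with
  | (_, Sum.inl _) => 0
  | (_, Sum.inr (Sum.inl _)) => 0
  | (m, Sum.inr (Sum.inr _)) => if m = 0 then 1 else 0

/-- Linear part of path C. -/
def B1C (d : Fin (n + 1) → R) (x : Ix n l → R) : Ix n l → R := fun i =>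
  match i with
  | (m, Sum.inl (i, j)) => - (d i * x (m, Sum.inl (Fin.last n, j)) +
      x (m, Sum.inl (i, Fin.last n)) * d j)
  | (m, Sum.inr (Sum.inl i)) => - (d i * x (m, Sum.inr (Sum.inl (Fin.last n))))
  | (_, Sum.inr (Sum.inr _)) => 0

/-- Quadratic part of path C. -/
def B2C (d : Fin (n + 1) → R) (x : Ix n l → R) : Ix n l → R := fun i =>
  match i with
  | (m, Sum.inl (i, j)) => d i * d j * x (m, Sum.inl (Fin.last n, Fin.last n))
  | (_, Sum.inr (Sum.inl _)) => 0
  | (_, Sum.inr (Sum.inr _)) => 0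

theorem pathA_eq (q₀ q : RTup n l) (ω s : ℝ) :
    pathA (tC q₀) (tC q) ω s =
      ppath (yP 1 ω (cfs q₀) (fun i => cfs q i - cfs q₀ i) (fun _ => 0)) s := by
  rw [ppath_yP]
  apply cfs_injective
  rw [cfs_tupOf]
  funext i
  obtain ⟨m, ⟨i, j⟩ | i | i⟩ := i <;>
  · simp only [pathA, cfs, tC, Pi.add_apply, Pi.smul_apply, Prod.fst_add, Prod.snd_add,
      Prod.smul_fst, Prod.smul_snd, smul_eq_mul, Sum.elim_inl, Sum.elim_inr]
    push_cast
    ring

theorem pathB_eq (q : RTup n l) (t₀ t ω s : ℝ) :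
    pathB (tC q) t₀ (t : ℂ) ω s =
      ppath (yP (t - t₀) ω (cfs (addT q t₀)) B1B (fun _ => 0)) s := by
  rw [ppath_yP]
  apply cfs_injective
  rw [cfs_tupOf]
  funext i
  obtain ⟨m, i⟩ := i
  by_cases hm : m = 0
  · subst hm
    rcases i with ⟨i, j⟩ | i | i
    · simp [pathB, cfs, tC, B1B, addT]
    · simp [pathB, cfs, tC, B1B, addT]
    · simp [pathB, cfs, tC, B1B, addT]
      ring
  · rcases i with ⟨i, j⟩ | i | i
    · simp [pathB, cfs, tC, B1B, addT, hm]
    · simp [pathB, cfs, tC, B1B, addT, hm]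
    · simp [pathB, cfs, tC, B1B, addT, hm]

theorem pathC_eq (q : RTup n l) (c : Fin n → ℝ) (ω s : ℝ) :
    pathC (tC q) (xC c) ω s =
      ppath (yP 1 ω (cfs q) (B1C (Fin.snoc c 0) (cfs q)) (B2C (Fin.snoc c 0) (cfs q))) s := by
  rw [ppath_yP]
  apply cfs_injective
  rw [cfs_tupOf]
  have hd : ∀ i : Fin (n + 1), (Fin.snoc (arc ω 1 s • xC c) 0 : Fin (n + 1) → ℂ) i =
      arc ω 1 s * ((Fin.snoc c 0 : Fin (n + 1) → ℝ) i : ℂ) := by
    intro i
    refine Fin.lastCases ?_ (fun i => ?_) i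
    · simp
    · simp [xC]
  funext i
  obtain ⟨m, ⟨i, j⟩ | i | i⟩ := i
  · simp only [pathC, cfs, shT, shQ, tC, B1C, B2C, Sum.elim_inl, hd]
    push_cast
    ring
  · simp only [pathC, cfs, shT, shQ, tC, B1C, B2C, Sum.elim_inl, Sum.elim_inr, hd]
    push_cast
    ring
  · simp only [pathC, cfs, shT, shQ, tC, B1C, B2C, Sum.elim_inr, hd]
    push_cast
    ring

end Paths

end Pool.Agent.QC
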