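import Pool.Agent.QC.Size
import Pool.Agent.QC.Rec.Event
import Pool.Agent.QC.Rec.Path

/-!
# Interface between elimination, event function, event list and chain of infinitesimals

Owners: `ElimData` helper20; `perEvent` helper53; `eventList`, `chain` helper19.
-/

namespace Pool.Agent.QC

open MvPolynomial Matrix Filter Topology

/-- Evaluation at a complex point. -/
noncomputable def cevHom {σ : Type*} (x : σ → ℂ) : MvPolynomial σ ℤ →+* ℂ :=
  (aeval x : MvPolynomial σ ℤ →ₐ[ℤ] ℂ).toRingHom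

/-- The output of the elimination (critical points part). -/
structure ElimData where
  /-- genericity -/
  Phi : ∀ p : NL, MvPolynomial (Ix p.1.1 p.1.2) ℂ
  ne : ∀ p, Phi p ≠ 0
  good : ∀ p, GoodPhi (Phi p)
  /-- the root sets -/
  RS : ∀ p, RootSys (Phi p)
  /-- the polynomial `r(q, Z)` -/
  r : ∀ p : NL, Polynomial (MvPolynomial (Ix p.1.1 p.1.2) ℤ)
  r_easy : EasyP LL (fun p => Set.range (r p).coeff)
  r_deg : Bd LL (fun p => (r p).natDegree)
  lead : ∀ p (q : Tup p.1.1 p.1.2), eval (cfs q) (Phi p) ≠ 0 →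
    cevHom (cfs q) (r p).leadingCoeff ≠ 0
  rt : ∀ p (q : Tup p.1.1 p.1.2), eval (cfs q) (Phi p) ≠ 0 →
    (RS p).Rt q = {z | ((r p).map (cevHom (cfs q))).eval z = 0}

/-! ### Variables -/

/-- Variables `(q, t₀)`. -/
abbrev VQ (n l : ℕ) := Ix n l ⊕ Unit

/-- Variables `(q, t₀, t, v)`. -/
abbrev VE (n l : ℕ) := Ix n l ⊕ (Fin 2 ⊕ Fin (n + 1))

section Vars

variable {n l : ℕ}

/-- The tuple of a point. -/
def yq {τ : Type*} (y : Ix n l ⊕ τ → ℝ) : RTup n l := tupOf fun i => y (Sum.inl i)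

/-- The point with coordinates `(q, t₀, t, v)`. -/
def mkE (q : RTup n l) (t₀ t : ℝ) (v : Fin (n + 1) → ℝ) : VE n l → ℝ :=
  Sum.elim (cfs q) (Sum.elim ![t₀, t] v)

end Vars

variable (E : ElimData)

/-- Domain for `(q, t₀)`. -/
def DQ (p : NL) : Set (VQ p.1.1 p.1.2 → ℝ) :=
  {y | eval (cfs (tC (yq y))) (E.Phi p) ≠ 0 ∧
    eval (cfs (tC (addT (yq y) (y (Sum.inr ()))))) (E.Phi p) ≠ 0 ∧ y (Sum.inr ()) < 0}

/-- Domain for `(q, t₀, t, v)`: `v` is the singular point of `q + t`, `t₀ < t < 0`. -/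
def DE (p : NL) : Set (VE p.1.1 p.1.2 → ℝ) :=
  {y | eval (cfs (tC (yq y))) (E.Phi p) ≠ 0 ∧
    eval (cfs (tC (addT (yq y) (y (Sum.inr (Sum.inl 0)))))) (E.Phi p) ≠ 0 ∧
    y (Sum.inr (Sum.inl 0)) < y (Sum.inr (Sum.inl 1)) ∧ y (Sum.inr (Sum.inl 1)) < 0 ∧
    xC (fun i => y (Sum.inr (Sum.inr i))) ∈
      SingF (f0 (tC (addT (yq y) (y (Sum.inr (Sum.inl 1))))))}

/-- (H) The list of the results at all events in increasing order. -/
def EventList : Prop :=
  ∀ (R : ∀ p : NL, (VE p.1.1 p.1.2 → ℝ) → EvRec → Prop),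
    EasyR LL (σ := fun p => VE p.1.1 p.1.2) (β := fun _ => EvRec) (DE E) R →
    EasyR LL (σ := fun p => VQ p.1.1 p.1.2) (β := fun _ => List EvRec) (DQ E)
      (fun p y ρ => ∃ ts : List ℝ, ts.Pairwise (· < ·) ∧
        (∀ t, t ∈ ts ↔ t ∈ EvT (yq y) (y (Sum.inr ()))) ∧
        List.Forall₂ (fun t r => ∃ v, xC v ∈ SingF (f0 (tC (addT (yq y) t))) ∧
          R p (mkE (yq y) (y (Sum.inr ())) t v) r) ts ρ)

end Pool.Agent.QC
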