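import Pool.Agent.QC.Rec.HasRec
import Pool.Agent.QC.Inp
import Pool.Agent.QC.Red.Main

/-!
# The chain of infinitesimals `δ ≫ ε ≫ ρ`

The record of the perturbed input is computed from the coefficients of the input.
-/

namespace Pool.Agent.QC

open MvPolynomial Matrix Filter Topology Set

/-- One coefficient of a quadratic polynomial. -/
def slotQ {R : Type*} {N : ℕ} (p : QP R N) (j : (Fin N × Fin N) ⊕ (Fin N ⊕ Unit)) : R :=
  Sum.elim (fun jk => p.1 jk.1 jk.2) (Sum.elim (fun j => p.2.1 j) (fun _ => p.2.2)) j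

lemma cfs_eq_slotQ {R : Type*} {n l : ℕ} (q : Fin (l + 1) → QP R (n + 1)) (i : Ix n l) :
    cfs q i = slotQ (q i.1) i.2 := rfl

/-- The integral base tuple `(-1 - N₁, G)`. -/
def zbase {n l : ℕ} (N1 : QP ℤ (n + 1)) (G : Fin l → QP ℤ (n + 1)) : Ix n l → ℤ :=
  fun i => Fin.cases (slotQ ((0, 0, -1) : QP ℤ (n + 1)) i.2 - slotQ N1 i.2)
    (fun m => slotQ (G m) i.2) i.1

lemma tupOf_zbase {n l : ℕ} (N1 : QP ℤ (n + 1)) (G : Fin l → QP ℤ (n + 1)) :
    (tupOf fun i => (zbase N1 G i : ℂ)) =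
      tC (baseT (qZR N1) (fun i => qZR (G i)) (-1) (-1)) := by
  apply cfs_injective
  rw [cfs_tupOf]
  funext ⟨m, j⟩
  refine Fin.cases ?_ (fun m => ?_) m
  · rcases j with ⟨j, k⟩ | j | j <;>
      simp [zbase, slotQ, cfs, tC, baseT, qZR, qcst, sub_eq_add_neg]
  · rcases j with ⟨j, k⟩ | j | j <;>
      simp [zbase, slotQ, cfs, tC, baseT, qZR]

/-! ### The substitution -/

section Subst

variable {n l : ℕ}

/-- Variables: input, `δ`, `ε`, `ρ`, `1/ρ`. -/
abbrev VR (n l : ℕ) := Option (Option (Option (Option (Ixb n l))))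

/-- The coefficients of the perturbed input and `t₀`. -/
noncomputable def uR (N1 : QP ℤ (n + 1)) (G : Fin l → QP ℤ (n + 1)) :
    VQ n l → MvPolynomial (VR n l) ℤ := Sum.elim
  (fun i => Fin.cases
    (X none * (C (slotQ ((0, 0, 1) : QP ℤ (n + 1)) i.2) -
      X (some (some (some none))) * C (slotQ N1 i.2)))
    (fun m => (C 1 - X (some (some none))) * X (some (some (some (some (m, i.2))))) +
      X (some (some none)) * C (slotQ (G m) i.2)) i.1)
  (fun _ => C (-2) * X none)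

theorem spt_uR (N1 : QP ℤ (n + 1)) (G : Fin l → QP ℤ (n + 1)) (x : Ixb n l → ℝ)
    (δ ε ρ : ℝ) :
    yq (spt (uR N1 G) (pt (pt (pt (pt x δ) ε) ρ) ρ⁻¹)) =
      qb (qZR N1) (fun i => qZR (G i)) (ofcf x) δ ε ρ := by
  unfold yq
  rw [← tupOf_cfs (qb (qZR N1) (fun i => qZR (G i)) (ofcf x) δ ε ρ)]
  congr 1
  funext ⟨m, j⟩
  refine Fin.cases ?_ (fun m => ?_) m
  · rcases j with ⟨j, k⟩ | j | j <;>
      simp [spt, uR, slotQ, cfs, qb, qZR, qcst, sub_eq_add_neg]
  · rcases j with ⟨j, k⟩ | j | j <;>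
      simp [spt, uR, slotQ, cfs, qb, qZR, ofcf]

theorem spt_uR' (N1 : QP ℤ (n + 1)) (G : Fin l → QP ℤ (n + 1)) (x : Ixb n l → ℝ)
    (δ ε ρ : ℝ) :
    spt (uR N1 G) (pt (pt (pt (pt x δ) ε) ρ) ρ⁻¹) (Sum.inr ()) = -2 / ρ := by
  show ev _ (C (-2) * X none) = _
  rw [ev_mul, ev_C, ev_X, pt_none, div_eq_mul_inv]
  push_cast
  ring

section Calc

variable {σ : Type*} {M c c' : ℕ} {K : Set (MvPolynomial σ ℤ)} {p q : MvPolynomial σ ℤ}

theorem calcX (i : σ) : Calc M 0 (Set.range X) {(X i : MvPolynomial σ ℤ)} :=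
  Calc.refl (by rintro _ rfl; exact ⟨i, rfl⟩)

theorem calcMul (hp : Calc M c K {p}) (hq : Calc M c' K {q}) (h : (p * q).totalDegree ≤ M) :
    Calc M (c + c' + 1) K {p * q} :=
  (hp.union hq).trans' (Calc.mul (Or.inr (Or.inl rfl)) (Or.inr (Or.inr rfl)) h)

theorem calcAdd (hp : Calc M c K {p}) (hq : Calc M c' K {q}) (h : (p + q).totalDegree ≤ M) :
    Calc M (c + c' + 1) K {p + q} :=
  (hp.union hq).trans' (Calc.add (Or.inr (Or.inl rfl)) (Or.inr (Or.inr rfl)) h)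

theorem calcSub (hp : Calc M c K {p}) (hq : Calc M c' K {q}) (h : (p - q).totalDegree ≤ M) :
    Calc M (c + c' + 1) K {p - q} :=
  (hp.union hq).trans' (Calc.sub (Or.inr (Or.inl rfl)) (Or.inr (Or.inr rfl)) h)

end Calc

lemma tdC {σ : Type*} (z : ℤ) : (C z : MvPolynomial σ ℤ).totalDegree ≤ 0 := (totalDegree_C _).le

lemma tdX {σ : Type*} (i : σ) : (X i : MvPolynomial σ ℤ).totalDegree ≤ 1 := (totalDegree_X _).le

lemma tdMul {σ : Type*} {p q : MvPolynomial σ ℤ} {a b : ℕ} (hp : p.totalDegree ≤ a)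
    (hq : q.totalDegree ≤ b) : (p * q).totalDegree ≤ a + b :=
  (totalDegree_mul _ _).trans (add_le_add hp hq)

lemma tdAdd {σ : Type*} {p q : MvPolynomial σ ℤ} {a b : ℕ} (hp : p.totalDegree ≤ a)
    (hq : q.totalDegree ≤ b) : (p + q).totalDegree ≤ max a b :=
  (totalDegree_add _ _).trans (max_le_max hp hq)

lemma tdSub {σ : Type*} {p q : MvPolynomial σ ℤ} {a b : ℕ} (hp : p.totalDegree ≤ a)
    (hq : q.totalDegree ≤ b) : (p - q).totalDegree ≤ max a b :=
  (totalDegree_sub _ _).trans (max_le_max hp hq)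

theorem calc_uR (N1 : QP ℤ (n + 1)) (G : Fin l → QP ℤ (n + 1)) (i : VQ n l) :
    Calc 2 5 (Set.range X) {uR N1 G i} ∧ (uR N1 G i).totalDegree ≤ 2 := by
  rcases i with ⟨m, j⟩ | i
  · refine Fin.cases ?_ (fun m => ?_) m
    · show Calc 2 5 (Set.range X) {X none * (C (slotQ ((0, 0, 1) : QP ℤ (n + 1)) j) -
          X (some (some (some none))) * C (slotQ N1 j))} ∧
        (X none * (C (slotQ ((0, 0, 1) : QP ℤ (n + 1)) j) -
          X (some (some (some none))) * C (slotQ N1 j)) : MvPolynomial (VR n l) ℤ).totalDegree ≤ 2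
      have d1 := tdMul (tdX (some (some (some none)) : VR n l)) (tdC (slotQ N1 j))
      have d2 := tdSub (tdC (σ := VR n l) (slotQ ((0, 0, 1) : QP ℤ (n + 1)) j)) d1
      have d3 := tdMul (tdX (none : VR n l)) d2
      refine ⟨(calcMul (calcX none) (calcSub (Calc.const _) (calcMul (calcX _) (Calc.const _)
        (d1.trans (by norm_num))) (d2.trans (by norm_num))) (d3.trans (by norm_num))).mono_c
          (by norm_num), d3.trans (by norm_num)⟩
    · show Calc 2 5 (Set.range X) {(C 1 - X (some (some none))) *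
          X (some (some (some (some (m, j))))) + X (some (some none)) * C (slotQ (G m) j)} ∧
        ((C 1 - X (some (some none))) * X (some (some (some (some (m, j))))) +
          X (some (some none)) * C (slotQ (G m) j) : MvPolynomial (VR n l) ℤ).totalDegree ≤ 2
      have d1 := tdSub (tdC (σ := VR n l) 1) (tdX (some (some none) : VR n l))
      have d2 := tdMul d1 (tdX (some (some (some (some (m, j)))) : VR n l))
      have d3 := tdMul (tdX (some (some none) : VR n l)) (tdC (slotQ (G m) j))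
      have d4 := tdAdd d2 d3
      refine ⟨(calcAdd (calcMul (calcSub (Calc.const _) (calcX _) (d1.trans (by norm_num)))
        (calcX _) (d2.trans (by norm_num))) (calcMul (calcX _) (Calc.const _)
        (d3.trans (by norm_num))) (d4.trans (by norm_num))).mono_c
          (by norm_num), d4.trans (by norm_num)⟩
  · show Calc 2 5 (Set.range X) {C (-2) * X none} ∧
      (C (-2) * X none : MvPolynomial (VR n l) ℤ).totalDegree ≤ 2
    have d1 := tdMul (tdC (σ := VR n l) (-2)) (tdX (none : VR n l))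
    exact ⟨(calcMul (Calc.const _) (calcX _) (d1.trans (by norm_num))).mono_c (by norm_num),
      d1.trans (by norm_num)⟩

end Subst

/-- The number of coefficients is small. -/
theorem bd_card_VQ : Bd LL (fun p : NL => Fintype.card (VQ p.n p.l)) := by
  have h1 : Bd LL (fun p : NL => (p.l + 1) * ((p.n + 1) * (p.n + 1) + ((p.n + 1) + 1)) + 1) :=
    ((bd_l.add (Bd.const 1)).mul (((bd_n.add (Bd.const 1)).mul (bd_n.add (Bd.const 1))).add
      ((bd_n.add (Bd.const 1)).add (Bd.const 1)))).add (Bd.const 1)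
  refine h1.mono fun p => le_of_eq ?_
  simp only [Fintype.card_sum, Fintype.card_prod, Fintype.card_fin, Fintype.card_unit]

theorem easyP_uR (N1 : ∀ p : NL, QP ℤ (p.1.1 + 1)) (G : ∀ p : NL, Fin p.1.2 → QP ℤ (p.1.1 + 1)) :
    EasyP LL (σ := fun p : NL => VR p.1.1 p.1.2) (fun p => Set.range (uR (N1 p) (G p))) := by
  refine EasyP.range (κ := fun p : NL => VQ p.1.1 p.1.2) bd_card_VQ ?_
  refine EasyP.of_bd (M := fun _ => 2) (c := fun _ => 5) (Bd.const 2) (Bd.const 5)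
    (fun q => (calc_uR (N1 q.1) (G q.1) q.2).1) ?_
  rintro q _ rfl
  exact (calc_uR (N1 q.1) (G q.1) q.2).2

/-! ### The chain -/

section Chain

variable {E : ElimData} (N1 : ∀ p : NL, QP ℤ (p.1.1 + 1))
  (G : ∀ p : NL, Fin p.1.2 → QP ℤ (p.1.1 + 1))

/-- The good inputs for the last level. -/
def D3 (E : ElimData) (p : NL) : Set (Option (Option (Option (Ixb p.1.1 p.1.2))) → ℝ) :=
  {y | 0 < y none ∧ spt (uR (N1 p) (G p)) (pt y (y none)⁻¹) ∈ DQ E p}

/-- The relation of the last level. -/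
def R3 (E : ElimData) (p : NL) (y : Option (Option (Option (Ixb p.1.1 p.1.2))) → ℝ)
    (ρ : List EvRec) : Prop :=
  HasRec (E.RS p) (tupOf fun i => (zbase (N1 p) (G p) i : ℂ))
    (yq (spt (uR (N1 p) (G p)) (pt y (y none)⁻¹)))
    (spt (uR (N1 p) (G p)) (pt y (y none)⁻¹) (Sum.inr ())) ρ

/-- The record of the perturbed input, computed from the input. -/
theorem easy_chain (hE : EventList E)
    (hB : ∀ p, GoodBase (E.Phi p) (N1 p) (G p)) :
    EasyR LL (σ := fun p => Ixb p.1.1 p.1.2) (β := fun _ => List EvRec) (fun _ => univ)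
      (fun p x ρ => ∀ᶠ δ in 𝓝[>] (0 : ℝ), ∀ᶠ ε in 𝓝[>] (0 : ℝ), ∀ᶠ r in 𝓝[>] (0 : ℝ),
        R3 N1 G E p (pt (pt (pt x δ) ε) r) ρ) := by
  have h0 := easy_hasRec hE (fun p => zbase (N1 p) (G p)) (fun p => by
    have h1 := (hB p).nz
    rw [← tupOf_zbase, cfs_tupOf] at h1
    exact h1)
  -- the substitution
  have h1 : EasyR LL (σ := fun p => VR p.1.1 p.1.2) (β := fun _ => List EvRec)
      (fun p => {y | spt (uR (N1 p) (G p)) y ∈ DQ E p})
      (fun p y ρ => HasRec (E.RS p) (tupOf fun i => (zbase (N1 p) (G p) i : ℂ))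
        (yq (spt (uR (N1 p) (G p)) y)) (spt (uR (N1 p) (G p)) y (Sum.inr ())) ρ) :=
    h0.subst (easyP_uR N1 G) fun p y hy => hy
  -- the reciprocal of `ρ`
  have h2 : EasyR LL (σ := fun p => Option (Option (Option (Ixb p.1.1 p.1.2))))
      (β := fun _ => List EvRec) (fun p => D3 N1 G E p) (fun p => R3 N1 G E p) := by
    have h3 := EasyR.inv (σ := fun p : NL => Option (Option (Option (Ixb p.1.1 p.1.2)))) h1
      (g := fun p => X none) (EasyP.vars.mono fun p => by rintro _ rfl; exact ⟨_, rfl⟩)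
      (D := fun p => D3 N1 G E p) (fun p y hy => by
        rw [ev_X]
        exact ⟨hy.1.ne', hy.2⟩)
    refine h3.imp fun p y _ b hb => ?_
    simp only [ev_X] at hb
    exact hb
  -- the three limits
  have h3 := EasyR.lim (σ := fun p : NL => Option (Option (Ixb p.1.1 p.1.2)))
    (D := fun p => {y | ∀ᶠ r in 𝓝[>] (0 : ℝ), pt y r ∈ D3 N1 G E p}) h2 (fun p y hy => hy)
  have h4 := EasyR.lim (σ := fun p : NL => Option (Ixb p.1.1 p.1.2))
    (D := fun p => {y | ∀ᶠ ε in 𝓝[>] (0 : ℝ), ∀ᶠ r in 𝓝[>] (0 : ℝ), pt (pt y ε) r ∈ D3 N1 G E p})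
    h3 (fun p y hy => hy)
  refine EasyR.lim (σ := fun p : NL => Ixb p.1.1 p.1.2) (D := fun _ => univ) h4
    (fun p x _ => ?_)
  have h5 := (Red.reduction (E.good p) (hB p) (ofcf x)).2
  filter_upwards [h5] with δ hδ
  show ∀ᶠ ε in 𝓝[>] (0 : ℝ), ∀ᶠ r in 𝓝[>] (0 : ℝ), pt (pt (pt x δ) ε) r ∈ D3 N1 G E p
  filter_upwards [hδ] with ε hε
  filter_upwards [hε, self_mem_nhdsWithin] with r hr hr0
  refine ⟨hr0, ?_⟩
  rw [pt_none]
  refine ⟨?_, ?_, ?_⟩
  · rw [spt_uR]; exact hr.1.nz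
  · rw [spt_uR, spt_uR']; exact hr.1.nz₀
  · rw [spt_uR']; exact hr.1.neg

end Chain

/-- (C) The record is computed with `k ^ O(l)` operations. -/
theorem algorithm_main : ∃ A : ℕ, ∀ n l : ℕ, 1 ≤ n → 1 ≤ l →
    ∃ (Phi : MvPolynomial (Ix n l) ℂ), GoodPhi Phi ∧ ∃ (RS : RootSys Phi)
      (N1 : QP ℤ (n + 1)) (G : Fin l → QP ℤ (n + 1)), GoodBase Phi N1 G ∧
      ∃ F₀ : (Ixb n l → ℝ) → List EvRec,
        (∃ M c, c ≤ (n + 1) ^ (A * l) ∧ Dec M c (range X) univ F₀) ∧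
        ∀ x : Ixb n l → ℝ, ∀ᶠ δ in 𝓝[>] (0 : ℝ), ∀ᶠ ε in 𝓝[>] (0 : ℝ), ∀ᶠ ρ in 𝓝[>] (0 : ℝ),
          HasRec RS (tC (baseT (qZR N1) (fun i => qZR (G i)) (-1) (-1)))
            (qb (qZR N1) (fun i => qZR (G i)) (ofcf x) δ ε ρ) (-2 / ρ) (F₀ x) := by
  obtain ⟨E, hE⟩ := exists_elim
  have hbase : ∀ p : NL, ∃ N1 : QP ℤ (p.1.1 + 1), ∃ G : Fin p.1.2 → QP ℤ (p.1.1 + 1),
      GoodBase (E.Phi p) N1 G := fun p => Red.exists_base p.1.1 p.1.2 (E.ne p)
  choose N1 G hB using hbase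
  obtain ⟨F, h1, h2⟩ := easy_chain N1 G hE hB
  obtain ⟨A, hA⟩ := h1.dec two_le_LL
  refine ⟨A, fun n l hn hl => ?_⟩
  set p : NL := ⟨(n, l), hn, hl⟩ with hp
  refine ⟨E.Phi p, E.good p, E.RS p, N1 p, G p, hB p, F p,
    ⟨_, _, le_of_eq ?_, hA p⟩, fun x => ?_⟩
  · show ((n + 1) ^ l) ^ A = (n + 1) ^ (A * l)
    rw [← pow_mul, mul_comm]
  · filter_upwards [h2 p x trivial] with δ hδ
    filter_upwards [hδ] with ε hε
    filter_upwards [hε] with r hr
    unfold R3 at hr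
    rw [pt_none, spt_uR, spt_uR', tupOf_zbase] at hr
    exact hr

end Pool.Agent.QC
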