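import Pool.Agent.QC.Sign.Sig
import Pool.Agent.QC.S4.Hess
import Pool.Agent.QC.Rec

/-!
# The class of an event from the signs of the characteristic polynomial of the Hessian
-/

namespace Pool.Agent.QC

open Matrix Set

variable {m : ℕ}

theorem negDef_iff_eig {A : Matrix (Fin m) (Fin m) ℝ} (hA : A.IsHermitian) :
    NegDef A ↔ ∀ i, hA.eigenvalues i < 0 := by
  constructor
  · intro h i
    have hne : S4.ev hA i ≠ 0 := by
      intro h0
      have := S4.ev_dot hA i i
      rw [h0] at this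
      simp at this
    have h1 := h (S4.ev hA i) hne
    rw [S4.mulVec_ev, dotProduct_smul, S4.ev_dot, if_pos rfl] at h1
    simpa using h1
  · intro h a ha
    obtain ⟨i, hi⟩ : ∃ i, S4.ev hA i ⬝ᵥ a ≠ 0 := by
      by_contra hcon
      push Not at hcon
      exact ha (S4.eq_zero_of_ev hA hcon)
    show a ⬝ᵥ A *ᵥ a < 0
    rw [S4.quad_eq hA, ← neg_pos, ← Finset.sum_neg_distrib]
    refine Finset.sum_pos' (fun j _ => ?_) ⟨i, Finset.mem_univ i, ?_⟩
    · nlinarith [h j, sq_nonneg (S4.ev hA j ⬝ᵥ a)]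
    · have : 0 < (S4.ev hA i ⬝ᵥ a) ^ 2 := by positivity
      nlinarith [h i]

theorem onePos_iff_eig {A : Matrix (Fin m) (Fin m) ℝ} (hA : A.IsHermitian) :
    OnePos A ↔ ∃ i, 0 < hA.eigenvalues i ∧ ∀ j, j ≠ i → hA.eigenvalues j < 0 := by
  constructor
  · rintro ⟨a, ha, hx⟩
    change 0 < a ⬝ᵥ A *ᵥ a at ha
    rw [S4.quad_eq hA] at ha
    obtain ⟨i, hi⟩ : ∃ i, 0 < hA.eigenvalues i := by
      by_contra hcon
      push Not at hcon
      refine absurd ha (not_lt.2 (Finset.sum_nonpos fun j _ => ?_))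
      exact mul_nonpos_of_nonpos_of_nonneg (hcon j) (sq_nonneg _)
    refine ⟨i, hi, fun j hj => ?_⟩
    by_contra hcon
    push Not at hcon
    have hAa : ∀ k, S4.ev hA k ⬝ᵥ A *ᵥ a = hA.eigenvalues k * (S4.ev hA k ⬝ᵥ a) := by
      intro k
      have hsym : Aᵀ = A := by
        have := hA.eq
        rwa [conjTranspose_eq_transpose_of_trivial] at this
      rw [dotProduct_mulVec, ← mulVec_transpose, hsym, S4.mulVec_ev, smul_dotProduct,
        smul_eq_mul]
    set p := hA.eigenvalues i * (S4.ev hA i ⬝ᵥ a) with hp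
    set q := hA.eigenvalues j * (S4.ev hA j ⬝ᵥ a) with hq
    obtain ⟨x, y, hxy, hne⟩ : ∃ x y : ℝ, x * p + y * q = 0 ∧ (x ≠ 0 ∨ y ≠ 0) := by
      by_cases hp0 : p = 0
      · exact ⟨1, 0, by rw [hp0]; ring, Or.inl one_ne_zero⟩
      · exact ⟨q, -p, by ring, Or.inr (neg_ne_zero.2 hp0)⟩
    set z : Fin m → ℝ := x • S4.ev hA i + y • S4.ev hA j with hz
    have hzk : ∀ k, S4.ev hA k ⬝ᵥ z = (if k = i then x else 0) + if k = j then y else 0 := by
      intro k
      rw [hz, dotProduct_add, dotProduct_smul, dotProduct_smul, S4.ev_dot, S4.ev_dot]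
      simp
    have hz0 : z ≠ 0 := by
      intro h0
      have h1 := hzk i
      have h2 := hzk j
      rw [h0] at h1 h2
      simp [hj, Ne.symm hj] at h1 h2
      rcases hne with h | h
      · exact h h1.symm
      · exact h h2.symm
    have hza : z ⬝ᵥ A.mulVec a = 0 := by
      change z ⬝ᵥ A *ᵥ a = 0
      rw [hz, add_dotProduct, smul_dotProduct, smul_dotProduct, hAa, hAa, smul_eq_mul,
        smul_eq_mul]
      exact hxy
    have h1 := hx z hz0 hza
    change z ⬝ᵥ A *ᵥ z < 0 at h1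
    rw [S4.quad_eq hA] at h1
    refine absurd h1 (not_lt.2 (Finset.sum_nonneg fun k _ => ?_))
    by_cases hki : k = i
    · rw [hki]; positivity
    · by_cases hkj : k = j
      · rw [hkj]; exact mul_nonneg hcon (sq_nonneg _)
      · rw [hzk k, if_neg hki, if_neg hkj]; simp
  · rintro ⟨i, hi, hj⟩
    refine ⟨S4.ev hA i, ?_, fun x hx h0 => ?_⟩
    · change 0 < S4.ev hA i ⬝ᵥ A *ᵥ S4.ev hA i
      rw [S4.mulVec_ev, dotProduct_smul, S4.ev_dot, if_pos rfl]
      simpa using hi
    · change x ⬝ᵥ A *ᵥ S4.ev hA i = 0 at h0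
      rw [S4.mulVec_ev, dotProduct_smul, smul_eq_mul, dotProduct_comm] at h0
      have hxi : S4.ev hA i ⬝ᵥ x = 0 := (mul_eq_zero.1 h0).resolve_left hi.ne'
      obtain ⟨k, hk⟩ : ∃ k, S4.ev hA k ⬝ᵥ x ≠ 0 := by
        by_contra hcon
        push Not at hcon
        exact hx (S4.eq_zero_of_ev hA hcon)
      have hki : k ≠ i := fun h => hk (by rw [h]; exact hxi)
      change x ⬝ᵥ A *ᵥ x < 0
      rw [S4.quad_eq hA, ← neg_pos, ← Finset.sum_neg_distrib]
      refine Finset.sum_pos' (fun j _ => ?_) ⟨k, Finset.mem_univ k, ?_⟩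
      · by_cases hji : j = i
        · rw [hji, hxi]; simp
        · nlinarith [hj j hji, sq_nonneg (S4.ev hA j ⬝ᵥ x)]
      · have : 0 < (S4.ev hA k ⬝ᵥ x) ^ 2 := by positivity
        nlinarith [hj k hki]

theorem negDef_iff_ncard {A : Matrix (Fin m) (Fin m) ℝ} (hA : A.IsHermitian) :
    NegDef A ↔ {i | hA.eigenvalues i < 0}.ncard = m := by
  rw [negDef_iff_eig hA]
  constructor
  · intro h
    have : {i | hA.eigenvalues i < 0} = Set.univ := Set.eq_univ_of_forall h
    rw [this, Set.ncard_univ, Nat.card_eq_fintype_card, Fintype.card_fin]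
  · intro h
    have : {i | hA.eigenvalues i < 0} = Set.univ := by
      refine Set.eq_of_subset_of_ncard_le (Set.subset_univ _) ?_ (Set.toFinite _)
      rw [Set.ncard_univ, Nat.card_eq_fintype_card, Fintype.card_fin, h]
    intro i
    have hi : i ∈ {i | hA.eigenvalues i < 0} := by rw [this]; trivial
    exact hi

theorem onePos_iff_ncard {A : Matrix (Fin m) (Fin m) ℝ} (hA : A.IsHermitian) :
    OnePos A ↔ {i | 0 < hA.eigenvalues i}.ncard = 1 ∧
      {i | hA.eigenvalues i < 0}.ncard + 1 = m := by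
  rw [onePos_iff_eig hA]
  constructor
  · rintro ⟨i, hi, hj⟩
    have h1 : {i | 0 < hA.eigenvalues i} = {i} := by
      ext j
      simp only [Set.mem_ofPred_eq, Set.mem_singleton_iff]
      constructor
      · intro h
        by_contra hne
        exact absurd h (hj j hne).le.not_gt
      · rintro rfl; exact hi
    have h2 : {i | hA.eigenvalues i < 0} = Set.univ \ {i} := by
      ext j
      simp only [Set.mem_ofPred_eq, Set.mem_sdiff, Set.mem_univ, true_and,
        Set.mem_singleton_iff]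
      constructor
      · rintro h rfl
        exact absurd h hi.le.not_gt
      · exact hj j
    refine ⟨by rw [h1, Set.ncard_singleton], ?_⟩
    rw [h2, Set.ncard_sdiff_singleton_add_one (Set.mem_univ i) (Set.toFinite _), Set.ncard_univ,
      Nat.card_eq_fintype_card, Fintype.card_fin]
  · rintro ⟨h1, h2⟩
    obtain ⟨i, hi⟩ := Set.ncard_eq_one.1 h1
    have hi0 : i ∈ {i | 0 < hA.eigenvalues i} := by rw [hi]; rfl
    refine ⟨i, hi0, fun j hj => ?_⟩
    have hsub : {i | hA.eigenvalues i < 0} ⊆ Set.univ \ {i} := by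
      intro k hk
      refine ⟨trivial, ?_⟩
      rintro rfl
      simp only [Set.mem_ofPred_eq] at hi0 hk
      exact absurd hi0 hk.le.not_gt
    have heq : {i | hA.eigenvalues i < 0} = Set.univ \ {i} := by
      refine Set.eq_of_subset_of_ncard_le hsub ?_ (Set.toFinite _)
      have := Set.ncard_sdiff_singleton_add_one (Set.mem_univ i) (Set.toFinite _)
      rw [Set.ncard_univ, Nat.card_eq_fintype_card, Fintype.card_fin] at this
      omega
    have : j ∈ {i | hA.eigenvalues i < 0} := by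
      rw [heq]; exact ⟨trivial, hj⟩
    exact this

/-- The signs of the coefficients of the characteristic polynomial determine the class. -/
theorem class_congr {A B : Matrix (Fin m) (Fin m) ℝ} (hA : A.IsHermitian) (hB : B.IsHermitian)
    (h : ∀ i < m, SignType.sign (A.charpoly.coeff i) = SignType.sign (B.charpoly.coeff i)) :
    (NegDef A ↔ NegDef B) ∧ (OnePos A ↔ OnePos B) := by
  have h1 := countP_eq_of_sign A.charpoly B.charpoly A.charpoly_monic B.charpoly_monic
    (n := m) (by simp) (by simp) (roots_card_of_isHermitian A hA)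
    (roots_card_of_isHermitian B hB) h
  have hr : ∀ {C : Matrix (Fin m) (Fin m) ℝ} (hC : C.IsHermitian),
      C.charpoly.roots = Multiset.map hC.eigenvalues Finset.univ.val := fun hC => by
    rw [hC.roots_charpoly_eq_eigenvalues]; rfl
  rw [hr hA, hr hB, countP_map_univ, countP_map_univ, countP_map_univ, countP_map_univ] at h1
  rw [negDef_iff_ncard hA, negDef_iff_ncard hB, onePos_iff_ncard hA, onePos_iff_ncard hB, h1.1,
    h1.2]
  exact ⟨Iff.rfl, Iff.rfl⟩

/-- Positive multiples. -/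
theorem negDef_smulR {A : Matrix (Fin m) (Fin m) ℝ} {c : ℝ} (hc : 0 < c) :
    NegDef (c • A) ↔ NegDef A := by
  have h : ∀ a : Fin m → ℝ, a ⬝ᵥ (c • A).mulVec a = c * (a ⬝ᵥ A.mulVec a) := fun a => by
    rw [smul_mulVec, dotProduct_smul, smul_eq_mul]
  simp only [NegDef, h]
  exact forall_congr' fun a => imp_congr_right fun _ =>
    ⟨fun h => by nlinarith, fun h => mul_neg_of_pos_of_neg hc h⟩

theorem onePos_smulR {A : Matrix (Fin m) (Fin m) ℝ} {c : ℝ} (hc : 0 < c) :
    OnePos (c • A) ↔ OnePos A := by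
  have h : ∀ a b : Fin m → ℝ, a ⬝ᵥ (c • A).mulVec b = c * (a ⬝ᵥ A.mulVec b) := fun a b => by
    rw [smul_mulVec, dotProduct_smul, smul_eq_mul]
  simp only [OnePos, h]
  refine exists_congr fun a => and_congr ?_ (forall_congr' fun x => imp_congr_right fun _ => ?_)
  · exact ⟨fun h => by nlinarith, fun h => mul_pos hc h⟩
  · refine imp_congr ?_ ?_
    · simp [hc.ne']
    · exact ⟨fun h => by nlinarith, fun h => mul_neg_of_pos_of_neg hc h⟩

/-- Congruence. -/
theorem negDef_congr {A S : Matrix (Fin m) (Fin m) ℝ} (hS : IsUnit S.det) :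
    NegDef (Sᵀ * A * S) ↔ NegDef A := by
  have h : ∀ a b : Fin m → ℝ,
      a ⬝ᵥ (Sᵀ * A * S).mulVec b = (S.mulVec a) ⬝ᵥ A.mulVec (S.mulVec b) := by
    intro a b
    rw [← mulVec_mulVec, ← mulVec_mulVec, dotProduct_mulVec, vecMul_transpose]
  have hinj : ∀ a : Fin m → ℝ, S.mulVec a = 0 → a = 0 := by
    intro a ha
    have := congrArg (S⁻¹.mulVec) ha
    rwa [mulVec_mulVec, nonsing_inv_mul S hS, one_mulVec, mulVec_zero] at this
  constructor
  · intro hN a ha
    have hb : S.mulVec (S⁻¹.mulVec a) = a := by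
      rw [mulVec_mulVec, mul_nonsing_inv S hS, one_mulVec]
    have hb0 : S⁻¹.mulVec a ≠ 0 := fun h0 => ha (by rw [← hb, h0, mulVec_zero])
    have := hN _ hb0
    rwa [h, hb] at this
  · intro hN a ha
    rw [h]
    exact hN _ fun h0 => ha (hinj a h0)

theorem onePos_congr {A S : Matrix (Fin m) (Fin m) ℝ} (hS : IsUnit S.det) :
    OnePos (Sᵀ * A * S) ↔ OnePos A := by
  have h : ∀ a b : Fin m → ℝ,
      a ⬝ᵥ (Sᵀ * A * S).mulVec b = (S.mulVec a) ⬝ᵥ A.mulVec (S.mulVec b) := by
    intro a b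
    rw [← mulVec_mulVec, ← mulVec_mulVec, dotProduct_mulVec, vecMul_transpose]
  have hinj : ∀ a : Fin m → ℝ, S.mulVec a = 0 → a = 0 := by
    intro a ha
    have := congrArg (S⁻¹.mulVec) ha
    rwa [mulVec_mulVec, nonsing_inv_mul S hS, one_mulVec, mulVec_zero] at this
  have hb : ∀ a, S.mulVec (S⁻¹.mulVec a) = a := fun a => by
    rw [mulVec_mulVec, mul_nonsing_inv S hS, one_mulVec]
  constructor
  · rintro ⟨a, ha, hx⟩
    rw [h] at ha
    refine ⟨S.mulVec a, ha, fun x hx0 h0 => ?_⟩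
    have hx' : S⁻¹.mulVec x ≠ 0 := fun h' => hx0 (by rw [← hb x, h', mulVec_zero])
    have := hx _ hx' (by rw [h, hb]; exact h0)
    rwa [h, hb] at this
  · rintro ⟨a, ha, hx⟩
    refine ⟨S⁻¹.mulVec a, by rw [h, hb]; exact ha, fun x hx0 h0 => ?_⟩
    rw [h, hb] at h0
    rw [h]
    exact hx _ (fun h' => hx0 (hinj x h')) h0

end Pool.Agent.QC
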