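import Pool.Agent.QC.Rec
import Pool.Agent.QC.Vec

/-!
# Value, gradient and Hessian of `f = prod P_m - 1` over any commutative ring
-/

namespace Pool.Agent.QC

open MvPolynomial Matrix

/-! ### Leibniz rule for products -/

section Leibniz

variable {A : Type*} [CommRing A] {R : Type*} [CommRing R] [Algebra R A] {ι : Type*}
  [DecidableEq ι]

theorem derivation_prod (D : Derivation R A A) (s : Finset ι) (f : ι → A) :
    D (∏ m ∈ s, f m) = ∑ m ∈ s, D (f m) * ∏ m' ∈ s.erase m, f m' := by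
  induction s using Finset.induction_on with
  | empty => simp
  | @insert a s ha ih =>
    rw [Finset.prod_insert ha, Derivation.leibniz, ih, Finset.sum_insert ha,
      Finset.erase_insert ha, smul_eq_mul, smul_eq_mul, Finset.mul_sum]
    have : ∑ m ∈ s, D (f m) * ∏ m' ∈ (insert a s).erase m, f m' =
        ∑ m ∈ s, f a * (D (f m) * ∏ m' ∈ s.erase m, f m') := by
      refine Finset.sum_congr rfl fun m hm => ?_
      have hma : m ≠ a := fun h => ha (h ▸ hm)
      rw [Finset.erase_insert_of_ne hma.symm, Finset.prod_insert (fun h =>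
        ha (Finset.mem_of_mem_erase h))]
      ring
    rw [this]
    ring

end Leibniz

/-! ### Formulas -/

section Formulas

variable {R : Type*} [CommRing R] {N l : ℕ}

/-- Value of a quadratic polynomial. -/
def qv (p : QP R N) (x : Fin N → R) : R :=
  (∑ i, ∑ j, p.1 i j * x i * x j) + (∑ i, p.2.1 i * x i) + p.2.2

/-- Partial derivatives of a quadratic polynomial. -/
def qg (p : QP R N) (k : Fin N) (x : Fin N → R) : R :=
  (∑ j, (p.1 k j + p.1 j k) * x j) + p.2.1 k

/-- Second derivatives of a quadratic polynomial. -/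
def qh (p : QP R N) (i j : Fin N) : R := p.1 i j + p.1 j i

/-- Value of `f`. -/
def fF (q : Fin (l + 1) → QP R N) (x : Fin N → R) : R := ∏ m, qv (q m) x - 1

/-- Gradient of `f`. -/
def fG (q : Fin (l + 1) → QP R N) (x : Fin N → R) (i : Fin N) : R :=
  ∑ m, qg (q m) i x * ∏ m' ∈ Finset.univ.erase m, qv (q m') x

/-- Hessian of `f`. -/
def fH (q : Fin (l + 1) → QP R N) (x : Fin N → R) (i j : Fin N) : R :=
  ∑ m, (qh (q m) i j * ∏ m' ∈ Finset.univ.erase m, qv (q m') x +
    ∑ m' ∈ Finset.univ.erase m, qg (q m) j x * (qg (q m') i x *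
      ∏ m'' ∈ (Finset.univ.erase m).erase m', qv (q m'') x))

/-- The product of `P_1, ..., P_l`. -/
def fPi (q : Fin (l + 1) → QP R N) (x : Fin N → R) : R := ∏ m : Fin l, qv (q m.succ) x

variable {S : Type*} [CommRing S]

/-- Image of a quadratic polynomial under a ring homomorphism. -/
def qmap (f : R →+* S) (p : QP R N) : QP S N :=
  (fun i j => f (p.1 i j), fun i => f (p.2.1 i), f p.2.2)

lemma map_qv (f : R →+* S) (p : QP R N) (x : Fin N → R) :
    f (qv p x) = qv (qmap f p) (fun i => f (x i)) := by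
  simp [qv, qmap, map_sum]

lemma map_qg (f : R →+* S) (p : QP R N) (k : Fin N) (x : Fin N → R) :
    f (qg p k x) = qg (qmap f p) k (fun i => f (x i)) := by
  simp [qg, qmap, map_sum]

lemma map_qh (f : R →+* S) (p : QP R N) (i j : Fin N) :
    f (qh p i j) = qh (qmap f p) i j := by
  simp [qh, qmap]

lemma map_fF (f : R →+* S) (q : Fin (l + 1) → QP R N) (x : Fin N → R) :
    f (fF q x) = fF (fun m => qmap f (q m)) (fun i => f (x i)) := by
  simp [fF, map_prod, map_qv]

lemma map_fG (f : R →+* S) (q : Fin (l + 1) → QP R N) (x : Fin N → R) (i : Fin N) :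
    f (fG q x i) = fG (fun m => qmap f (q m)) (fun i => f (x i)) i := by
  simp [fG, map_sum, map_prod, map_qv, map_qg]

lemma map_fH (f : R →+* S) (q : Fin (l + 1) → QP R N) (x : Fin N → R) (i j : Fin N) :
    f (fH q x i j) = fH (fun m => qmap f (q m)) (fun i => f (x i)) i j := by
  simp [fH, map_sum, map_prod, map_qv, map_qg, map_qh]

lemma map_fPi (f : R →+* S) (q : Fin (l + 1) → QP R N) (x : Fin N → R) :
    f (fPi q x) = fPi (fun m => qmap f (q m)) (fun i => f (x i)) := by
  simp [fPi, map_prod, map_qv]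

end Formulas

/-! ### The complex polynomial `f0` -/

section Cplx

variable {n l : ℕ}

lemma pderiv_pderiv_qpol {N : ℕ} (p : QPc N) (i j : Fin N) :
    pderiv i (pderiv j (qpol p)) = C (qh p i j) := by
  refine MvPolynomial.funext fun x => ?_
  have h1 : pderiv j (qpol p) = (∑ k, C (p.1 j k + p.1 k j) * X k) + C (p.2.1 j) := by
    refine MvPolynomial.funext fun x => ?_
    rw [eval_pderiv_qpol, qgrad]
    simp
  rw [h1]
  simp only [map_add, map_sum, Derivation.leibniz, pderiv_C, pderiv_X, smul_eq_mul, mul_zero,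
    add_zero, eval_mul, eval_C, qh]
  simp only [Pi.single_apply]
  simp [add_comm]

lemma eval_f0_fF (q : Tup n l) (x : Fin (n + 1) → ℂ) : eval x (f0 q) = fF q x := by
  simp only [f0, prodT, map_sub, map_prod, eval_qpol, map_one, fF]
  rfl

lemma eval_pderiv_f0 (q : Tup n l) (x : Fin (n + 1) → ℂ) (i : Fin (n + 1)) :
    eval x (pderiv i (f0 q)) = fG q x i := by
  rw [f0, prodT, map_sub, Derivation.map_one_eq_zero, sub_zero, derivation_prod]
  simp only [map_sum, map_mul, map_prod, eval_qpol, eval_pderiv_qpol, fG]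
  rfl

lemma hess_f0 (q : Tup n l) (x : Fin (n + 1) → ℂ) (i j : Fin (n + 1)) :
    hess (f0 q) x i j = fH q x i j := by
  rw [hess, f0, prodT, map_sub, Derivation.map_one_eq_zero, sub_zero, derivation_prod,
    map_sum, map_sum]
  refine Finset.sum_congr rfl fun m _ => ?_
  rw [Derivation.leibniz, derivation_prod, pderiv_pderiv_qpol]
  simp only [smul_eq_mul, map_add, map_mul, map_sum, map_prod, eval_qpol, eval_pderiv_qpol,
    eval_C, Finset.mul_sum]
  rw [add_comm]
  congr 1
  exact mul_comm _ _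

/-! ### Real points -/

lemma tC_eq (q : RTup n l) (m : Fin (l + 1)) : tC q m = qmap Complex.ofRealHom (q m) := rfl

lemma ofReal_fF (q : RTup n l) (v : Fin (n + 1) → ℝ) :
    fF (tC q) (xC v) = ((fF q v : ℝ) : ℂ) := (map_fF Complex.ofRealHom q v).symm

lemma ofReal_fG (q : RTup n l) (v : Fin (n + 1) → ℝ) (i : Fin (n + 1)) :
    fG (tC q) (xC v) i = ((fG q v i : ℝ) : ℂ) := (map_fG Complex.ofRealHom q v i).symm

lemma ofReal_fH (q : RTup n l) (v : Fin (n + 1) → ℝ) (i j : Fin (n + 1)) :
    fH (tC q) (xC v) i j = ((fH q v i j : ℝ) : ℂ) := (map_fH Complex.ofRealHom q v i j).symm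

lemma mem_SingF_xC (q : RTup n l) (v : Fin (n + 1) → ℝ) :
    xC v ∈ SingF (f0 (tC q)) ↔ fF q v = 0 ∧ ∀ i, fG q v i = 0 := by
  unfold SingF
  simp only [Set.mem_ofPred_eq, eval_f0_fF, eval_pderiv_f0, ofReal_fF, ofReal_fG,
    Complex.ofReal_eq_zero]

lemma HR_eq_fH (q : RTup n l) (v : Fin (n + 1) → ℝ) (i j : Fin (n + 1)) :
    HR q v i j = fH q v i j / fPi q v := by
  rw [HR, hess_f0, ofReal_fH, Complex.ofReal_re]
  rfl

/-- The matrix `Pi' * Hess f` (a positive multiple of `HR`). -/
def Hm {R : Type*} [CommRing R] {N : ℕ} (q : Fin (l + 1) → QP R N) (v : Fin N → R) :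
    Matrix (Fin N) (Fin N) R := fun i j => fPi q v * fH q v i j

lemma fPi_ne_zero {q : RTup n l} {v : Fin (n + 1) → ℝ} (h : fF q v = 0) : fPi q v ≠ 0 := by
  intro h0
  rw [fF, Fin.prod_univ_succ] at h
  rw [fPi] at h0
  rw [h0, mul_zero] at h
  norm_num at h

lemma Hm_eq {q : RTup n l} {v : Fin (n + 1) → ℝ} (h : fF q v = 0) :
    Hm q v = (fPi q v ^ 2) • HR q v := by
  have h0 := fPi_ne_zero h
  ext i j
  rw [Matrix.smul_apply, HR_eq_fH, smul_eq_mul, Hm]
  field_simp

lemma fH_symm {R : Type*} [CommRing R] {N : ℕ} (q : Fin (l + 1) → QP R N) (v : Fin N → R)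
    (i j : Fin N) : fH q v i j = fH q v j i := by
  unfold fH
  rw [Finset.sum_add_distrib, Finset.sum_add_distrib]
  congr 1
  · refine Finset.sum_congr rfl fun m _ => ?_
    rw [qh, qh, add_comm]
  · rw [Finset.sum_sigma', Finset.sum_sigma']
    refine Finset.sum_nbij' (fun x => ⟨x.2, x.1⟩) (fun x => ⟨x.2, x.1⟩) ?_ ?_ ?_ ?_ ?_
    · rintro ⟨a, b⟩ h
      simp only [Finset.mem_sigma, Finset.mem_univ, Finset.mem_erase, true_and, and_true] at h ⊢
      exact h.symm
    · rintro ⟨a, b⟩ h
      simp only [Finset.mem_sigma, Finset.mem_univ, Finset.mem_erase, true_and, and_true] at h ⊢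
      exact h.symm
    · rintro ⟨a, b⟩ _; rfl
    · rintro ⟨a, b⟩ _; rfl
    · rintro ⟨a, b⟩ _
      simp only
      rw [Finset.erase_right_comm]
      ring

lemma Hm_symm {R : Type*} [CommRing R] {N : ℕ} (q : Fin (l + 1) → QP R N) (v : Fin N → R) :
    (Hm q v).IsSymm := by
  ext i j
  rw [transpose_apply, Hm, Hm, fH_symm]

end Cplx

end Pool.Agent.QC
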