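import Pool.Agent.QC.Size
import Pool.Agent.QC.Rec.Hess
import Pool.Agent.QC.Elim.Def

/-!
# Families: quadratic polynomials, `f`, its gradient, the matrix `A(lam)` and its solution

Also: polynomials in one variable as polynomials in `(y, z)`.
-/

namespace Pool.Agent.QC

open MvPolynomial

variable {ι ι' : Type*} {L : ι → ℕ} {σ : ι → Type*}

namespace EasyP

/-- Uniformly chosen members of a family. -/
theorem member {κ : ι → Type*} {f : ∀ i, κ i → MvPolynomial (σ i) ℤ}
    (h : EasyP L (fun i => Set.range (f i))) (g : ι' → ι) (k : ∀ j, κ (g j)) :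
    EasyP (fun j => L (g j)) (σ := fun j => σ (g j)) (fun j => {f (g j) (k j)}) :=
  (h.comap g).mono fun j => by
    rintro _ rfl
    exact ⟨k j, rfl⟩

/-- Sums out of uniformly easy summands. -/
theorem sum' {κ : ι → Type*} [∀ i, Fintype (κ i)] {f : ∀ i, κ i → MvPolynomial (σ i) ℤ}
    (hκ : Bd L (fun i => Fintype.card (κ i)))
    (h : EasyP (fun p : Σ i, κ i => L p.1) (σ := fun p => σ p.1) (fun p => {f p.1 p.2})) :
    EasyP L (fun i => {∑ j, f i j}) := EasyP.sum hκ (EasyP.range hκ h)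

/-- Products out of uniformly easy factors. -/
theorem prod' {κ : ι → Type*} [∀ i, Fintype (κ i)] {f : ∀ i, κ i → MvPolynomial (σ i) ℤ}
    (hκ : Bd L (fun i => Fintype.card (κ i)))
    (h : EasyP (fun p : Σ i, κ i => L p.1) (σ := fun p => σ p.1) (fun p => {f p.1 p.2})) :
    EasyP L (fun i => {∏ j, f i j}) := EasyP.prod hκ (EasyP.range hκ h)

end EasyP

lemma bd_fin {N : ι → ℕ} (hN : Bd L N) : Bd L (fun i => Fintype.card (Fin (N i))) :=
  hN.mono fun i => by rw [Fintype.card_fin]

section Forms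

variable {N l : ι → ℕ} {q : ∀ i, Fin (l i + 1) → QP (MvPolynomial (σ i) ℤ) (N i)}
  {x : ∀ i, Fin (N i) → MvPolynomial (σ i) ℤ}

/-- The coefficients of a tuple are easy. -/
structure EasyQ (L : ι → ℕ) {σ : ι → Type*} {N l : ι → ℕ}
    (q : ∀ i, Fin (l i + 1) → QP (MvPolynomial (σ i) ℤ) (N i)) : Prop where
  hN : Bd L N
  hl : Bd L l
  h2 : EasyP L (fun i => Set.range fun x : Fin (l i + 1) × (Fin (N i) × Fin (N i)) =>
    (q i x.1).1 x.2.1 x.2.2)
  h1 : EasyP L (fun i => Set.range fun x : Fin (l i + 1) × Fin (N i) => (q i x.1).2.1 x.2)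
  h0 : EasyP L (fun i => Set.range fun m : Fin (l i + 1) => (q i m).2.2)

namespace EasyQ

theorem comap (g : ι' → ι) (h : EasyQ L q) :
    EasyQ (fun j => L (g j)) (σ := fun j => σ (g j)) (fun j => q (g j)) :=
  ⟨h.hN.comap g, h.hl.comap g, h.h2.comap g, h.h1.comap g, h.h0.comap g⟩

theorem bdl (h : EasyQ L q) : Bd L (fun i => Fintype.card (Fin (l i + 1))) :=
  (h.hl.add (Bd.const 1)).mono fun i => by rw [Fintype.card_fin]

theorem bdN (h : EasyQ L q) : Bd L (fun i => Fintype.card (Fin (N i))) := bd_fin h.hN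

theorem bdNN (h : EasyQ L q) : Bd L (fun i => Fintype.card (Fin (N i) × Fin (N i))) :=
  (h.hN.mul h.hN).mono fun i => by rw [Fintype.card_prod, Fintype.card_fin]

/-- Values of one member, chosen by `m`. -/
theorem qv (h : EasyQ L q) (hx : EasyP L (fun i => Set.range (x i))) (m : ∀ i, Fin (l i + 1)) :
    EasyP L (fun i => {QC.qv (q i (m i)) (x i)}) := by
  have e2 : EasyP L (fun i => {∑ jk : Fin (N i) × Fin (N i),
      (q i (m i)).1 jk.1 jk.2 * x i jk.1 * x i jk.2}) := by
    refine EasyP.sum' h.bdNN ?_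
    exact ((h.h2.member (fun p : Σ i, Fin (N i) × Fin (N i) => p.1)
      (fun p => (m p.1, p.2))).mul (hx.member (fun p : Σ i, Fin (N i) × Fin (N i) => p.1)
        (fun p => p.2.1))).mul (hx.member (fun p : Σ i, Fin (N i) × Fin (N i) => p.1)
        (fun p => p.2.2))
  have e1 : EasyP L (fun i => {∑ j : Fin (N i), (q i (m i)).2.1 j * x i j}) := by
    refine EasyP.sum' h.bdN ?_
    exact (h.h1.member (fun p : Σ i, Fin (N i) => p.1) (fun p => (m p.1, p.2))).mul
      (hx.member (fun p : Σ i, Fin (N i) => p.1) (fun p => p.2))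
  have e0 := h.h0.member id m
  refine ((e2.add e1).add e0).mono fun i => ?_
  rintro _ rfl
  rw [Set.mem_singleton_iff, QC.qv, Fintype.sum_prod_type]
  rfl

theorem qg (h : EasyQ L q) (hx : EasyP L (fun i => Set.range (x i))) (m : ∀ i, Fin (l i + 1))
    (k : ∀ i, Fin (N i)) : EasyP L (fun i => {QC.qg (q i (m i)) (k i) (x i)}) := by
  have e1 : EasyP L (fun i => {∑ j : Fin (N i),
      ((q i (m i)).1 (k i) j + (q i (m i)).1 j (k i)) * x i j}) := by
    refine EasyP.sum' h.bdN ?_
    exact ((h.h2.member (fun p : Σ i, Fin (N i) => p.1) (fun p => (m p.1, (k p.1, p.2)))).add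
      (h.h2.member (fun p : Σ i, Fin (N i) => p.1) (fun p => (m p.1, (p.2, k p.1))))).mul
      (hx.member (fun p : Σ i, Fin (N i) => p.1) (fun p => p.2))
  have e0 := h.h1.member id (fun i => (m i, k i))
  refine (e1.add e0).mono fun i => ?_
  rintro _ rfl
  rfl

theorem fF (h : EasyQ L q) (hx : EasyP L (fun i => Set.range (x i))) :
    EasyP L (fun i => {QC.fF (q i) (x i)}) := by
  have e1 : EasyP L (fun i => {∏ m : Fin (l i + 1), QC.qv (q i m) (x i)}) :=
    EasyP.prod' h.bdl ((h.comap (fun p : Σ i, Fin (l i + 1) => p.1)).qv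
      (hx.comap (fun p : Σ i, Fin (l i + 1) => p.1)) (fun p => p.2))
  refine (e1.sub (EasyP.const fun _ => 1)).mono fun i => ?_
  rintro _ rfl
  rw [Set.mem_singleton_iff, QC.fF, C_1]

theorem fPi (h : EasyQ L q) (hx : EasyP L (fun i => Set.range (x i))) :
    EasyP L (fun i => {QC.fPi (q i) (x i)}) :=
  EasyP.prod' (κ := fun i => Fin (l i)) (bd_fin h.hl)
    ((h.comap (fun p : Σ i, Fin (l i) => p.1)).qv
      (hx.comap (fun p : Σ i, Fin (l i) => p.1)) (fun p => p.2.succ))

/-- The product of all but one value. -/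
theorem prodErase (h : EasyQ L q) (hx : EasyP L (fun i => Set.range (x i)))
    (m : ∀ i, Fin (l i + 1)) :
    EasyP L (fun i => {∏ m' ∈ Finset.univ.erase (m i), QC.qv (q i m') (x i)}) := by
  classical
  have e1 : EasyP L (fun i => {∏ m' : Fin (l i + 1),
      if m' = m i then 1 else QC.qv (q i m') (x i)}) := by
    refine EasyP.prod' h.bdl ?_
    have e2 := ((h.comap (fun p : Σ i, Fin (l i + 1) => p.1)).qv
      (hx.comap (fun p : Σ i, Fin (l i + 1) => p.1)) (fun p => p.2)).zero_one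
    refine e2.mono fun p => ?_
    rintro _ rfl
    split_ifs
    · exact Or.inr (Or.inr rfl)
    · exact Or.inl rfl
  refine e1.mono fun i => ?_
  rintro _ rfl
  rw [Set.mem_singleton_iff, ← Finset.mul_prod_erase Finset.univ _ (Finset.mem_univ (m i)),
    if_pos rfl, one_mul]
  refine Finset.prod_congr rfl fun m' hm' => ?_
  rw [if_neg (Finset.ne_of_mem_erase hm')]

theorem fG (h : EasyQ L q) (hx : EasyP L (fun i => Set.range (x i))) (k : ∀ i, Fin (N i)) :
    EasyP L (fun i => {QC.fG (q i) (x i) (k i)}) :=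
  EasyP.sum' (f := fun i m => QC.qg (q i m) (k i) (x i) *
      ∏ m' ∈ Finset.univ.erase m, QC.qv (q i m') (x i)) h.bdl
    (((h.comap (fun p : Σ i, Fin (l i + 1) => p.1)).qg
      (hx.comap (fun p : Σ i, Fin (l i + 1) => p.1)) (fun p => p.2) (fun p => k p.1)).mul
      ((h.comap (fun p : Σ i, Fin (l i + 1) => p.1)).prodErase
      (hx.comap (fun p : Σ i, Fin (l i + 1) => p.1)) (fun p => p.2)))

end EasyQ

end Forms

/-! ### The matrix `A(lam)` -/

section Lam

variable {n l : ι → ℕ} {q : ∀ i, Fin (l i + 1) → QP (MvPolynomial (σ i) ℤ) (n i + 1)}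
  {lam : ∀ i, Fin (l i + 1) → MvPolynomial (σ i) ℤ}

namespace EasyQ

theorem matL (h : EasyQ L q) (hlam : EasyP L (fun i => Set.range (lam i))) :
    EasyP L (fun i => {p | ∃ r s, p = Elim.matL (q i) (lam i) r s}) := by
  have e1 : EasyP L (fun i => Set.range fun rs : Fin (n i + 1) × Fin (n i + 1) =>
      ∑ m, lam i m * ((q i m).1 rs.1 rs.2 + (q i m).1 rs.2 rs.1)) := by
    refine EasyP.range h.bdNN (EasyP.sum'
      (ι := Σ i, Fin (n i + 1) × Fin (n i + 1)) (L := fun p => L p.1) (σ := fun p => σ p.1)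
      (κ := fun p => Fin (l p.1 + 1))
      (f := fun p m => lam p.1 m * ((q p.1 m).1 p.2.1 p.2.2 + (q p.1 m).1 p.2.2 p.2.1))
      (h.bdl.comap fun p : Σ i, Fin (n i + 1) × Fin (n i + 1) => p.1) ?_)
    let g : (Σ p : (Σ i, Fin (n i + 1) × Fin (n i + 1)), Fin (l p.1 + 1)) → ι := fun w => w.1.1
    exact (hlam.member g (fun w => w.2)).mul
      ((h.h2.member g (fun w => (w.2, (w.1.2.1, w.1.2.2)))).add
        (h.h2.member g (fun w => (w.2, (w.1.2.2, w.1.2.1)))))
  refine e1.mono fun i => ?_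
  rintro _ ⟨r, s, rfl⟩
  exact ⟨(r, s), rfl⟩

theorem detL (h : EasyQ L q) (hlam : EasyP L (fun i => Set.range (lam i))) :
    EasyP L (fun i => {(Elim.matL (q i) (lam i)).det}) :=
  EasyP.det (κ := fun i => Fin (n i + 1)) h.bdN (h.matL hlam)

theorem solS (h : EasyQ L q) (hlam : EasyP L (fun i => Set.range (lam i)))
    (r : ∀ i, Fin (n i + 1)) : EasyP L (fun i => {Elim.solS (q i) (lam i) (r i)}) := by
  have e1 := EasyP.adjugate (κ := fun i => Fin (n i + 1)) h.bdN (h.matL hlam)
  have e2 : EasyP (fun p : Σ i, Fin (n i + 1) => L p.1) (σ := fun p => σ p.1)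
      (fun p => {Elim.vecL (q p.1) (lam p.1) p.2}) := by
    refine EasyP.sum' (ι := Σ i, Fin (n i + 1)) (L := fun p => L p.1) (σ := fun p => σ p.1)
      (κ := fun p => Fin (l p.1 + 1)) (f := fun p m => lam p.1 m * (q p.1 m).2.1 p.2)
      (h.bdl.comap fun p : Σ i, Fin (n i + 1) => p.1) ?_
    let g : (Σ p : (Σ i, Fin (n i + 1)), Fin (l p.1 + 1)) → ι := fun w => w.1.1
    exact (hlam.member g (fun w => w.2)).mul (h.h1.member g (fun w => (w.2, w.1.2)))
  have e3 : EasyP L (fun i => {∑ s, (Elim.matL (q i) (lam i)).adjugate (r i) s *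
      Elim.vecL (q i) (lam i) s}) := by
    refine EasyP.sum' h.bdN (EasyP.mul ?_ e2)
    exact (e1.comap (fun p : Σ i, Fin (n i + 1) => p.1)).mono fun p => by
      rintro _ rfl; exact ⟨_, _, rfl⟩
  exact e3.neg

end EasyQ

end Lam

/-! ### Polynomials in one more variable -/

section OfPoly

variable {τ : Type*}

/-- A polynomial in one variable as a polynomial in `(y, z)`. -/
noncomputable def ofPoly (A : Polynomial (MvPolynomial τ ℤ)) : MvPolynomial (Option τ) ℤ :=
  (A.map (rename (some : τ → Option τ)).toRingHom).eval (X none)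

theorem ev_ofPoly (A : Polynomial (MvPolynomial τ ℤ)) (y : τ → ℝ) (z : ℝ) :
    ev (pt y z) (ofPoly A) = (spec A y).eval z := by
  have h1 := Polynomial.eval₂_hom (evHom (pt y z)) (X none)
    (p := A.map (rename (some : τ → Option τ)).toRingHom)
  rw [Polynomial.eval₂_map] at h1
  have h2 : (evHom (pt y z)).comp (rename (some : τ → Option τ)).toRingHom = evHom y := by
    refine RingHom.ext fun p => ?_
    show ev (pt y z) (rename some p) = ev y p
    rw [ev, ev, aeval_rename]
    rfl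
  rw [h2] at h1
  rw [spec, Polynomial.eval_map]
  have h3 : evHom (pt y z) (X none) = z := by simp
  rw [h3] at h1
  exact h1.symm

end OfPoly

theorem EasyP.ofPoly {A : ∀ i, Polynomial (MvPolynomial (σ i) ℤ)}
    (hN : Bd L (fun i => (A i).natDegree)) (hA : EasyP L (fun i => Set.range (A i).coeff)) :
    EasyP L (σ := fun i => Option (σ i)) (fun i => {QC.ofPoly (A i)}) := by
  have h1 := hA.rename (τ := fun i => Option (σ i)) (fun i => some)
  refine EasyP.peval (σ := fun i => Option (σ i))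
    (A := fun i => (A i).map (MvPolynomial.rename (some : σ i → Option (σ i))).toRingHom)
    (w := fun i => X none) (hN.mono fun i => Polynomial.natDegree_map_le) (h1.mono fun i => ?_)
    (EasyP.vars.mono fun i => by rintro _ rfl; exact ⟨none, rfl⟩)
  rintro _ ⟨j, rfl⟩
  rw [Polynomial.coeff_map]
  exact ⟨_, ⟨j, rfl⟩, rfl⟩

end Pool.Agent.QC
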