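import Pool.Agent.QC.Rec.EventList

/-!
# The list of the results at all events is computed
-/

namespace Pool.Agent.QC

open MvPolynomial Matrix Filter Topology Elim

variable {E : ElimData} {S : SingData E} {β : Type*} {F : ∀ p : NL, (VE p.1.1 p.1.2 → ℝ) → β}

/-! ### The valid candidates -/

section VSet

variable {J : Type*} [Fintype J]

open Classical in
/-- Places of the valid candidates. -/
noncomputable def Vset (A : J → List (Option β)) : Finset (Σ _ : J, ℕ) :=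
  (Finset.univ.sigma fun j => Finset.range (A j).length).filter fun a =>
    ∃ r, (A a.1)[a.2]? = some (some r)

lemma mem_Vset {A : J → List (Option β)} {a : Σ _ : J, ℕ} :
    a ∈ Vset A ↔ ∃ r, (A a.1)[a.2]? = some (some r) := by
  classical
  unfold Vset
  rw [Finset.mem_filter]
  refine ⟨fun h => h.2, fun h => ⟨?_, h⟩⟩
  obtain ⟨r, hr⟩ := h
  rw [Finset.mem_sigma]
  exact ⟨Finset.mem_univ _, Finset.mem_range.2 (List.getElem?_eq_some_iff.1 hr).1⟩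

end VSet

/-- The value of `F` at the event `t`. -/
noncomputable def Gv (F : ∀ p : NL, (VE p.1.1 p.1.2 → ℝ) → β) (p : NL) (y : VQ p.1.1 p.1.2 → ℝ)
    (t : ℝ) : β := by
  classical
  exact F p (mkE (yq y) (y (Sum.inr ())) t
    (if h : ∃ v, xC v ∈ SingF (f0 (tC (addT (yq y) t))) then h.choose else 0))

lemma yq_mkE {n l : ℕ} (q : RTup n l) (t₀ t : ℝ) (v : Fin (n + 1) → ℝ) :
    yq (mkE q t₀ t v) = q := tupOf_cfs q

lemma mkE_mem_DE {p : NL} {y : VQ p.1.1 p.1.2 → ℝ} (hy : y ∈ BQ E p) {t : ℝ}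
    {v : Fin (p.1.1 + 1) → ℝ} :
    mkE (yq y) (y (Sum.inr ())) t v ∈ DE E p ↔ (y (Sum.inr ()) < t ∧ t < 0) ∧
      xC v ∈ SingF (f0 (tC (addT (yq y) t))) := by
  unfold DE
  rw [Set.mem_ofPred_eq, yq_mkE]
  show _ ∧ eval (cfs (tC (addT (yq y) (y (Sum.inr ()))))) (E.Phi p) ≠ 0 ∧ y (Sum.inr ()) < t ∧
    t < 0 ∧ xC v ∈ SingF (f0 (tC (addT (yq y) t))) ↔ _
  constructor
  · rintro ⟨_, _, h3, h4, h5⟩
    exact ⟨⟨h3, h4⟩, h5⟩
  · rintro ⟨⟨h3, h4⟩, h5⟩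
    exact ⟨hy.1, hy.2, h3, h4, h5⟩

lemma F_mkE {p : NL} {y : VQ p.1.1 p.1.2 → ℝ} (hy : y ∈ BQ E p) {t : ℝ}
    {v : Fin (p.1.1 + 1) → ℝ} (hv : xC v ∈ SingF (f0 (tC (addT (yq y) t)))) :
    F p (mkE (yq y) (y (Sum.inr ())) t v) = Gv F p y t := by
  classical
  have hex : ∃ v, xC v ∈ SingF (f0 (tC (addT (yq y) t))) := ⟨v, hv⟩
  unfold Gv
  rw [dif_pos hex, sing_unique (E.good p) hy.1 hv hex.choose_spec]

lemma F4_mkE {p : NL} {y : VQ p.1.1 p.1.2 → ℝ} (hy : y ∈ BQ E p) {t : ℝ}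
    {v : Fin (p.1.1 + 1) → ℝ} {r : β}
    (h : F4 E F p (mkE (yq y) (y (Sum.inr ())) t v) = some r) :
    t ∈ EvT (yq y) (y (Sum.inr ())) ∧ r = Gv F p y t := by
  classical
  unfold F4 at h
  by_cases hm : mkE (yq y) (y (Sum.inr ())) t v ∈ DE E p
  · rw [if_pos hm, Option.some_inj] at h
    rw [mkE_mem_DE hy] at hm
    exact ⟨⟨hm.1, ⟨_, hm.2⟩⟩, by rw [← h, F_mkE (F := F) hy hm.2]⟩
  · rw [if_neg hm] at h
    exact absurd h (by simp)

/-! ### Values of the tower -/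

section Values

variable (S F) in
/-- The values of `N_m(T) / G(T)`. -/
noncomputable def lamV (x : PJ S) (y : VQ x.1.1.1 x.1.1.2 → ℝ) (T : ℝ)
    (o : Option (Fin (x.1.1.2 + 1))) : ℝ :=
  (spec (S.Nu x.1 x.2 o) fun i => y (Sum.inl i)).eval T *
    ((spec (S.G x.1 x.2) fun i => y (Sum.inl i)).eval T)⁻¹

lemma F1_pt (x : PJ S) (y : VQ x.1.1.1 x.1.1.2 → ℝ) (T : ℝ) {r : β}
    (h : F1 S F x (pt y T) = some r) :
    (spec (S.G x.1 x.2) fun i => y (Sum.inl i)).eval T ≠ 0 ∧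
    F4 E F x.1 (mkE (yq y) (y (Sum.inr ())) (lamV S x y T none) fun i =>
      solS (yq y) (fun m => lamV S x y T (some m)) i *
        (matL (yq y) fun m => lamV S x y T (some m)).det⁻¹) = some r := by
  classical
  unfold F1 at h
  by_cases h1 : ev (pt y T) (ofPoly (toQ (S.G x.1 x.2))) = 0
  · rw [if_pos h1] at h
    exact absurd h (by simp)
  rw [if_neg h1] at h
  rw [ev_ofPoly, spec_toQ] at h1 h
  refine ⟨h1, ?_⟩
  unfold F2 at h
  rw [ev_detP] at h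
  split_ifs at h with h2
  rw [spt_u3] at h
  exact h

lemma F1_pt' (x : PJ S) (y : VQ x.1.1.1 x.1.1.2 → ℝ) (T : ℝ)
    (h1 : (spec (S.G x.1 x.2) fun i => y (Sum.inl i)).eval T ≠ 0)
    (h2 : (matL (yq y) fun m => lamV S x y T (some m)).det ≠ 0) :
    F1 S F x (pt y T) = F4 E F x.1 (mkE (yq y) (y (Sum.inr ())) (lamV S x y T none) fun i =>
      solS (yq y) (fun m => lamV S x y T (some m)) i *
        (matL (yq y) fun m => lamV S x y T (some m)).det⁻¹) := by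
  classical
  unfold F1
  rw [ev_ofPoly, spec_toQ, if_neg h1]
  unfold F2
  unfold lamV at h2
  rw [ev_detP, if_neg h2, spt_u3]
  rfl

end Values

/-! ### The list -/

section Final

variable (S) in
/-- The time of a candidate. -/
noncomputable def tm (p : NL) (y : VQ p.1.1 p.1.2 → ℝ) (a : Σ _ : S.J p, ℕ) : ℝ :=
  lamV S ⟨p, a.1⟩ y ((rootList (spec (toQ (S.P p a.1)) y)).getD a.2 0) none

lemma valid_iff {p : NL} {y : VQ p.1.1 p.1.2 → ℝ} {a : Σ _ : S.J p, ℕ} {r : β} :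
    (FA S F ⟨p, a.1⟩ y)[a.2]? = some (some r) ↔
      a.2 < (rootList (spec (toQ (S.P p a.1)) y)).length ∧
      F1 S F ⟨p, a.1⟩ (pt y ((rootList (spec (toQ (S.P p a.1)) y)).getD a.2 0)) = some r := by
  unfold FA
  rw [List.getElem?_map, Option.map_eq_some_iff]
  constructor
  · rintro ⟨T, h1, h2⟩
    have h3 := (List.getElem?_eq_some_iff.1 h1).1
    refine ⟨h3, ?_⟩
    rw [List.getD_eq_getElem?_getD, h1]
    exact h2
  · rintro ⟨h1, h2⟩
    refine ⟨_, List.getElem?_eq_getElem h1, ?_⟩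
    rw [List.getD_eq_getElem _ _ h1] at h2
    exact h2

lemma valid_ev {p : NL} {y : VQ p.1.1 p.1.2 → ℝ} (hy : y ∈ BQ E p) {a : Σ _ : S.J p, ℕ}
    (ha : a ∈ Vset fun j => FA S F ⟨p, j⟩ y) :
    tm S p y a ∈ EvT (yq y) (y (Sum.inr ())) ∧
      (FA S F ⟨p, a.1⟩ y)[a.2]? = some (some (Gv F p y (tm S p y a))) ∧
      a.2 < (rootList (spec (toQ (S.P p a.1)) y)).length ∧
      (spec (S.G p a.1) fun i => y (Sum.inl i)).eval
        ((rootList (spec (toQ (S.P p a.1)) y)).getD a.2 0) ≠ 0 := by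
  obtain ⟨r, hr⟩ := mem_Vset.1 ha
  have h1 := valid_iff.1 hr
  obtain ⟨h2, h3⟩ := F1_pt (F := F) _ _ _ h1.2
  obtain ⟨h4, h5⟩ := F4_mkE hy h3
  refine ⟨h4, ?_, h1.1, h2⟩
  rw [hr, h5]
  rfl

lemma exists_valid {p : NL} {y : VQ p.1.1 p.1.2 → ℝ} (hy : y ∈ BQ E p) {t : ℝ}
    (ht : t ∈ EvT (yq y) (y (Sum.inr ()))) :
    ∃ a ∈ Vset (fun j => FA S F ⟨p, j⟩ y), tm S p y a = t := by
  classical
  obtain ⟨ht0, vc, hvc⟩ := ht
  obtain ⟨v, rfl⟩ := exists_real_sing (E.good p) hy.1 hvc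
  obtain ⟨j, T, h1, h2, h3, h4, h5, h6⟩ := S.cand p (yq y) hy.1 t v hvc
  have hc : cfs (yq y) = fun i => y (Sum.inl i) := cfs_tupOf _
  rw [hc] at h1 h2 h3 h4 h5 h6
  simp only [div_eq_mul_inv] at h4 h5 h6
  have hT : T ∈ rootList (spec (toQ (S.P p j)) y) := by
    rw [spec_toQ, mem_rootList h2]
    exact h1
  obtain ⟨i, hi, hiT⟩ := List.mem_iff_getElem.1 hT
  have hT' : (rootList (spec (toQ (S.P p j)) y)).getD i 0 = T := by
    rw [List.getD_eq_getElem _ _ hi, hiT]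
  have htm : tm S p y ⟨j, i⟩ = t := by
    show lamV S ⟨p, j⟩ y ((rootList (spec (toQ (S.P p j)) y)).getD i 0) none = t
    rw [hT', h4]
    rfl
  refine ⟨⟨j, i⟩, mem_Vset.2 ⟨Gv F p y t, valid_iff.2 ⟨hi, ?_⟩⟩, htm⟩
  rw [hT', F1_pt' (F := F) ⟨p, j⟩ y T h3 h5]
  have e1 : (fun i => solS (yq y) (fun m => lamV S ⟨p, j⟩ y T (some m)) i *
      (matL (yq y) fun m => lamV S ⟨p, j⟩ y T (some m)).det⁻¹) = v :=
    funext fun i => (h6 i).symm
  have e2 : lamV S ⟨p, j⟩ y T none = t := h4.symm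
  rw [e1, e2]
  unfold F4
  rw [if_pos ((mkE_mem_DE hy).2 ⟨ht0, hvc⟩), F_mkE (F := F) hy hvc]

lemma lt_iff {p : NL} {y : VQ p.1.1 p.1.2 → ℝ} (hy : y ∈ BQ E p) {a b : Σ _ : S.J p, ℕ}
    (ha : a ∈ Vset fun j => FA S F ⟨p, j⟩ y) (hb : b ∈ Vset fun j => FA S F ⟨p, j⟩ y) :
    tm S p y a < tm S p y b ↔
      ((cmpL S ⟨p, (a.1, b.1)⟩ y)[a.2]?.bind fun row => row[b.2]?) = some (-1) := by
  obtain ⟨_, _, ha1, ha2⟩ := valid_ev hy ha
  obtain ⟨_, _, hb1, hb2⟩ := valid_ev hy hb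
  have ea : (rootList (spec (toQ (S.P p a.1)) y))[a.2]? =
      some ((rootList (spec (toQ (S.P p a.1)) y)).getD a.2 0) := by
    rw [List.getElem?_eq_getElem ha1, List.getD_eq_getElem _ _ ha1]
  have eb : (rootList (spec (toQ (S.P p b.1)) y))[b.2]? =
      some ((rootList (spec (toQ (S.P p b.1)) y)).getD b.2 0) := by
    rw [List.getElem?_eq_getElem hb1, List.getD_eq_getElem _ _ hb1]
  unfold cmpL
  rw [List.getElem?_map, ea, Option.map_some, Option.bind_some, List.getElem?_map]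
  simp only [spec_map_some]
  rw [eb, Option.map_some, Option.some_inj,
    sign_cmpP (by rw [spec_toQ (S.G p a.1)]; exact ha2) (by rw [spec_toQ (S.G p b.1)]; exact hb2),
    spec_toQ (S.G p a.1), spec_toQ (S.G p b.1), spec_toQ (S.Nu p a.1 none),
    spec_toQ (S.Nu p b.1 none), div_eq_mul_inv, div_eq_mul_inv]
  rfl

variable (S F) in
/-- The sorted list of the results. -/
noncomputable def rho (p : NL) (y : VQ p.1.1 p.1.2 → ℝ) : List β :=
  (((Vset fun j => FA S F ⟨p, j⟩ y).image (tm S p y)).sort (· ≤ ·)).map (Gv F p y)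

theorem easy_rho (hF : Easy LL (σ := fun p => VE p.1.1 p.1.2) (β := fun _ => β) (DE E) F) :
    Easy LL (σ := fun p => VQ p.1.1 p.1.2) (β := fun _ => List β) (BQ E) (rho S F) := by
  have h1 := (easy_FAll (S := S) hF).pair ((easy_cmpAll S).mono_D (D' := BQ E)
    fun p => Set.subset_univ _)
  refine h1.factor fun p x hx y hy hxy => ?_
  have e1 : (fun j => FA S F ⟨p, j⟩ x) = fun j => FA S F ⟨p, j⟩ y := congrArg Prod.fst hxy
  have e2 : ∀ jj, cmpL S ⟨p, jj⟩ x = cmpL S ⟨p, jj⟩ y := fun jj =>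
    congrFun (congrArg Prod.snd hxy) jj
  unfold rho
  rw [← e1]
  refine sort_map_eq _ _ _ _ _ (fun a ha b hb => ?_) fun a ha => ?_
  · rw [lt_iff hx ha hb, lt_iff hy (e1 ▸ ha) (e1 ▸ hb), e2]
  · have h2 := (valid_ev hx ha).2.1
    have h3 := (valid_ev (F := F) hy (e1 ▸ ha)).2.1
    have h4 := congrFun e1 a.1
    rw [h4, h3] at h2
    simpa using h2.symm

end Final

/-- (H) -/
theorem eventList (S : SingData E) : EventList E := by
  rintro R ⟨F, hF, hR⟩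
  refine EasyR.of_easy (F := rho S F) ((easy_rho (S := S) hF).mono_D
    fun p y hy => ⟨hy.1, hy.2.1⟩) ?_
  rintro p y ⟨hy1, hy2, hy3⟩
  have hy : y ∈ BQ E p := ⟨hy1, hy2⟩
  have hmem : ∀ t, t ∈ ((Vset fun j => FA S F ⟨p, j⟩ y).image (tm S p y)).sort (· ≤ ·) ↔
      t ∈ EvT (yq y) (y (Sum.inr ())) := by
    intro t
    rw [Finset.mem_sort, Finset.mem_image]
    constructor
    · rintro ⟨a, ha, rfl⟩
      exact (valid_ev hy ha).1
    · intro ht
      exact exists_valid hy ht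
  refine ⟨((Vset fun j => FA S F ⟨p, j⟩ y).image (tm S p y)).sort (· ≤ ·),
    (Finset.sortedLT_sort _).pairwise, hmem, ?_⟩
  unfold rho
  rw [List.forall₂_map_right_iff]
  refine List.forall₂_same.2 fun t ht => ?_
  obtain ⟨ht0, vc, hvc⟩ := (hmem t).1 ht
  obtain ⟨v, rfl⟩ := exists_real_sing (E.good p) hy.1 hvc
  refine ⟨v, hvc, ?_⟩
  rw [← F_mkE hy hvc]
  exact hR p _ ((mkE_mem_DE hy).2 ⟨ht0, hvc⟩)

/-- Elimination and event list. -/
theorem exists_elim' : ∃ E : ElimData, EventList E := by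
  obtain ⟨E, ⟨S⟩⟩ := exists_singData
  exact ⟨E, eventList S⟩

end Pool.Agent.QC
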