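import Pool.Agent.QC.Rec.Tower

/-!
# The list of events
-/

namespace Pool.Agent.QC

open MvPolynomial Matrix Filter Topology Elim

variable {E : ElimData}

/-! ### The event function with a test of the conditions -/

/-- The conditions which are not tested. -/
def BQ (E : ElimData) (p : NL) : Set (VQ p.1.1 p.1.2 → ℝ) :=
  {y | eval (cfs (tC (yq y))) (E.Phi p) ≠ 0 ∧
    eval (cfs (tC (addT (yq y) (y (Sum.inr ()))))) (E.Phi p) ≠ 0}

/-- The same for events. -/
def BE (E : ElimData) (p : NL) : Set (VE p.1.1 p.1.2 → ℝ) :=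
  {y | eval (cfs (tC (yq y))) (E.Phi p) ≠ 0 ∧
    eval (cfs (tC (addT (yq y) (y (Sum.inr (Sum.inl 0)))))) (E.Phi p) ≠ 0}

lemma mem_DE_iff {p : NL} {y : VE p.1.1 p.1.2 → ℝ} (hy : y ∈ BE E p) :
    y ∈ DE E p ↔ y (Sum.inr (Sum.inl 0)) < y (Sum.inr (Sum.inl 1)) ∧
      y (Sum.inr (Sum.inl 1)) < 0 ∧
      fF (addT (yq y) (y (Sum.inr (Sum.inl 1)))) (fun i => y (Sum.inr (Sum.inr i))) = 0 ∧
      ∀ i, fG (addT (yq y) (y (Sum.inr (Sum.inl 1)))) (fun i => y (Sum.inr (Sum.inr i))) i = 0 := by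
  constructor
  · rintro ⟨_, _, h3, h4, h5⟩
    exact ⟨h3, h4, (mem_SingF_xC _ _).1 h5⟩
  · rintro ⟨h3, h4, h5⟩
    exact ⟨hy.1, hy.2, h3, h4, (mem_SingF_xC _ _).2 h5⟩

theorem easy_mem_DE : Easy LL (σ := fun p => VE p.1.1 p.1.2) (β := fun _ => Prop) (BE E)
    (fun p y => y ∈ DE E p) := by
  have hq := easyQ_qPE (L := LL) (n := fun p => p.1.1) (l := fun p => p.1.2) bd_n bd_l
  have hx : EasyP LL (σ := fun p => VE p.1.1 p.1.2) (fun p => Set.range fun i =>
      (X (Sum.inr (Sum.inr i)) : MvPolynomial (VE p.1.1 p.1.2) ℤ)) :=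
    EasyP.vars.mono fun p => by rintro _ ⟨i, rfl⟩; exact ⟨_, rfl⟩
  have h1 : Easy LL (σ := fun p => VE p.1.1 p.1.2) (β := fun _ => Prop) (BE E)
      (fun p y => 0 < ev y (X (Sum.inr (Sum.inl 1)) - X (Sum.inr (Sum.inl 0)))) :=
    Easy.pos ((EasyP.varT fun _ => Sum.inr (Sum.inl 1)).sub
      (EasyP.varT fun _ => Sum.inr (Sum.inl 0)))
  have h2 : Easy LL (σ := fun p => VE p.1.1 p.1.2) (β := fun _ => Prop) (BE E)
      (fun p y => 0 < ev y (-X (Sum.inr (Sum.inl 1)))) :=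
    Easy.pos (EasyP.varT fun _ => Sum.inr (Sum.inl 1)).neg
  have h3 : Easy LL (σ := fun p => VE p.1.1 p.1.2) (β := fun _ => Prop) (BE E)
      (fun p y => ev y (fF (qPE p.1.1 p.1.2) fun i => X (Sum.inr (Sum.inr i))) = 0) :=
    Easy.isZero (hq.fF hx)
  have h4 : Easy LL (σ := fun p => VE p.1.1 p.1.2) (β := fun p => Fin (p.1.1 + 1) → Prop) (BE E)
      (fun p y i => ev y (fG (qPE p.1.1 p.1.2) (fun i => X (Sum.inr (Sum.inr i))) i) = 0) := by
    refine Easy.pi (L := LL) (σ := fun p => VE p.1.1 p.1.2) (β := fun _ => Prop)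
      (κ := fun p => Fin (p.1.1 + 1)) (T := fun p i y =>
        ev y (fG (qPE p.1.1 p.1.2) (fun i => X (Sum.inr (Sum.inr i))) i) = 0) hq.bdN ?_
    exact Easy.isZero ((hq.comap fun w : Σ p : NL, Fin (p.1.1 + 1) => w.1).fG
      (hx.comap fun w : Σ p : NL, Fin (p.1.1 + 1) => w.1) fun w => w.2)
  have h5 := ((h1.pair h2).pair (h3.pair h4)).comp
    (γ := fun _ => Prop) (fun p r => (r.1.1 ∧ r.1.2) ∧ (r.2.1 ∧ ∀ i, r.2.2 i))
  refine h5.congr fun p y hy => ?_
  rw [eq_iff_iff, mem_DE_iff hy]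
  simp only [ev_sub, ev_neg, ev_X, sub_pos, Left.neg_pos_iff, ev_fF, ev_fG, evTup_qPE, and_assoc]

open Classical in
/-- The result of an event or `none`. -/
noncomputable def F4 {β : Type*} (E : ElimData) (F : ∀ p : NL, (VE p.1.1 p.1.2 → ℝ) → β) (p : NL)
    (y : VE p.1.1 p.1.2 → ℝ) : Option β := if y ∈ DE E p then some (F p y) else none

theorem easy_F4 {β : Type*} {F : ∀ p : NL, (VE p.1.1 p.1.2 → ℝ) → β}
    (hF : Easy LL (σ := fun p => VE p.1.1 p.1.2) (β := fun _ => β) (DE E) F) :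
    Easy LL (σ := fun p => VE p.1.1 p.1.2) (β := fun _ => Option β) (BE E) (F4 E F) := by
  refine easy_mem_DE.cases ?_ ?_
  · refine ((hF.comp fun _ => some).mono_D fun p => Set.inter_subset_right).congr ?_
    rintro p y ⟨_, hy⟩
    exact (if_pos hy).symm
  · refine Easy.leaf ?_
    rintro p x ⟨_, hx⟩ y ⟨_, hy⟩
    exact (if_neg hx).trans (if_neg hy).symm

/-! ### The tower -/

section Tower

variable (S : SingData E) {β : Type*} (F : ∀ p : NL, (VE p.1.1 p.1.2 → ℝ) → β)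

/-- Candidates. -/
abbrev PJ {E : ElimData} (S : SingData E) := Σ p : NL, S.J p

/-- The measure. -/
abbrev LJ {E : ElimData} (S : SingData E) : PJ S → ℕ := fun x => LL x.1

open Classical in
/-- Level with `T` and `1 / G`. -/
noncomputable def F2 (x : PJ S) (y : Option (Option (VQ x.1.1.1 x.1.1.2)) → ℝ) : Option β :=
  if ev y (detP (S.Nu x.1 x.2)) = 0 then none
  else F4 E F x.1 (spt (u3 (S.Nu x.1 x.2)) (pt y (ev y (detP (S.Nu x.1 x.2)))⁻¹))

open Classical in
/-- Level with `T`. -/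
noncomputable def F1 (x : PJ S) (y : Option (VQ x.1.1.1 x.1.1.2) → ℝ) : Option β :=
  if ev y (ofPoly (toQ (S.G x.1 x.2))) = 0 then none
  else F2 S F x (pt y (ev y (ofPoly (toQ (S.G x.1 x.2))))⁻¹)

/-- The list for a candidate. -/
noncomputable def FA (x : PJ S) (y : VQ x.1.1.1 x.1.1.2 → ℝ) : List (Option β) :=
  (rootList (spec (toQ (S.P x.1 x.2)) y)).map fun T => F1 S F x (pt y T)

variable {S} {F}

theorem bd_nJ (S : SingData E) : Bd (LJ S) (fun x => x.1.1.1) := bd_n.comap fun x : PJ S => x.1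

theorem bd_lJ (S : SingData E) : Bd (LJ S) (fun x => x.1.1.2) := bd_l.comap fun x : PJ S => x.1

/-- The numerators, uniformly. -/
theorem easy_num (S : SingData E) : EasyP (fun w : Σ x : PJ S, Option (Fin (x.1.1.2 + 1)) => LL w.1.1)
    (σ := fun w => Option (Option (VQ w.1.1.1.1 w.1.1.1.2)))
    (fun w => {num2 (S.Nu w.1.1 w.1.2 w.2)}) :=
  EasyP.num2 (κ := Σ x : PJ S, Option (Fin (x.1.1.2 + 1)))
    (n := fun w => w.1.1.1.1) (l := fun w => w.1.1.1.2)
    (A := fun w => S.Nu w.1.1 w.1.2 w.2)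
    (S.Nu_deg.comap (fun w : Σ x : PJ S, Option (Fin (x.1.1.2 + 1)) =>
      (⟨w.1.1, (w.1.2, w.2)⟩ : Σ p : NL, S.J p × Option (Fin (p.1.2 + 1)))))
    (S.Nu_easy.comap (fun w : Σ x : PJ S, Option (Fin (x.1.1.2 + 1)) =>
      (⟨w.1.1, (w.1.2, w.2)⟩ : Σ p : NL, S.J p × Option (Fin (p.1.2 + 1)))))

theorem easy_numS (S : SingData E) : EasyP (LJ S)
    (σ := fun x => Option (Option (VQ x.1.1.1 x.1.1.2)))
    (fun x => Set.range fun m : Fin (x.1.1.2 + 1) => num2 (S.Nu x.1 x.2 (some m))) := by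
  refine EasyP.range (κ := fun x : PJ S => Fin (x.1.1.2 + 1))
    (bd_fin ((bd_lJ S).add (Bd.const 1))) ?_
  exact (easy_num S).comap (fun w : Σ x : PJ S, Fin (x.1.1.2 + 1) =>
    (⟨w.1, some w.2⟩ : Σ x : PJ S, Option (Fin (x.1.1.2 + 1))))

theorem easy_numN (S : SingData E) : EasyP (LJ S)
    (σ := fun x => Option (Option (VQ x.1.1.1 x.1.1.2)))
    (fun x => {num2 (S.Nu x.1 x.2 none)}) :=
  (easy_num S).comap (fun x : PJ S => (⟨x, none⟩ : Σ x : PJ S, Option (Fin (x.1.1.2 + 1))))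

theorem easy_detP (S : SingData E) : EasyP (LJ S)
    (σ := fun x => Option (Option (VQ x.1.1.1 x.1.1.2))) (fun x => {detP (S.Nu x.1 x.2)}) :=
  (easyQ_qP2 (L := LJ S) (bd_nJ S) (bd_lJ S)).detL (easy_numS S)

theorem easy_u3 (S : SingData E) : EasyP (LJ S)
    (σ := fun x => Option (Option (Option (VQ x.1.1.1 x.1.1.2))))
    (fun x => Set.range (u3 (S.Nu x.1 x.2))) := by
  have h1 : EasyP (LJ S) (σ := fun x => Option (Option (Option (VQ x.1.1.1 x.1.1.2))))
      (fun x => Set.range fun i : Fin (x.1.1.1 + 1) =>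
        rename some (solS (qP2 x.1.1.1 x.1.1.2) (fun m => num2 (S.Nu x.1 x.2 (some m))) i) *
          X none) := by
    refine EasyP.range (κ := fun x : PJ S => Fin (x.1.1.1 + 1))
      (bd_fin ((bd_nJ S).add (Bd.const 1))) ?_
    refine EasyP.mul ?_ (EasyP.varT fun _ => none)
    refine EasyP.renameSome (κ := Σ x : PJ S, Fin (x.1.1.1 + 1))
      (σ := fun w => Option (Option (VQ w.1.1.1.1 w.1.1.1.2)))
      (p := fun w => solS (qP2 w.1.1.1.1 w.1.1.1.2)
        (fun m => num2 (S.Nu w.1.1 w.1.2 (some m))) w.2) ?_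
    exact ((easyQ_qP2 (L := LJ S) (bd_nJ S) (bd_lJ S)).comap
      (fun w : Σ x : PJ S, Fin (x.1.1.1 + 1) => w.1)).solS
      ((easy_numS S).comap (fun w : Σ x : PJ S, Fin (x.1.1.1 + 1) => w.1)) fun w => w.2
  refine ((EasyP.vars.union (easy_numN S).renameSome).union h1).mono fun x => ?_
  rintro _ ⟨i, rfl⟩
  rcases i with i | i | i
  · exact Or.inl (Or.inl ⟨_, rfl⟩)
  · refine Fin.cases ?_ (fun i => ?_) i
    · exact Or.inl (Or.inl ⟨_, rfl⟩)
    · have hi : i = 0 := Subsingleton.elim _ _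
      subst hi
      exact Or.inl (Or.inr rfl)
  · exact Or.inr ⟨i, rfl⟩

lemma spt_u3_mem {p : NL} {Nu : Option (Fin (p.1.2 + 1)) → Polynomial (MvPolynomial (Ix p.1.1 p.1.2) ℤ)}
    {y : Option (Option (VQ p.1.1 p.1.2)) → ℝ} (hy : (fun i => y (some (some i))) ∈ BQ E p)
    (w : ℝ) : spt (u3 Nu) (pt y w) ∈ BE E p := by
  have h1 : yq (spt (u3 Nu) (pt y w)) = yq fun i => y (some (some i)) := by
    unfold yq
    congr 1
    funext i
    show ev _ (X (some (some (some (Sum.inl i))))) = _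
    rw [ev_X]
    rfl
  have h2 : spt (u3 Nu) (pt y w) (Sum.inr (Sum.inl 0)) = y (some (some (Sum.inr ()))) := by
    show ev _ (X (some (some (some (Sum.inr ()))))) = _
    rw [ev_X]
    rfl
  unfold BE
  rw [Set.mem_ofPred_eq, h1, h2]
  exact hy

theorem easy_F2 (hF : Easy LL (σ := fun p => VE p.1.1 p.1.2) (β := fun _ => β) (DE E) F) :
    Easy (LJ S) (σ := fun x => Option (Option (VQ x.1.1.1 x.1.1.2))) (β := fun _ => Option β)
      (fun x => {y | (fun i => y (some (some i))) ∈ BQ E x.1}) (F2 S F) := by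
  have h1 : Easy (LJ S) (σ := fun x => Option (Option (Option (VQ x.1.1.1 x.1.1.2))))
      (β := fun _ => Option β) (fun x => {y | spt (u3 (S.Nu x.1 x.2)) y ∈ BE E x.1})
      (fun x y => F4 E F x.1 (spt (u3 (S.Nu x.1 x.2)) y)) :=
    ((easy_F4 hF).comap fun x : PJ S => x.1).subst (easy_u3 S) fun x y hy => hy
  refine Easy.cases (s := fun x y => ev y (detP (S.Nu x.1 x.2)) = 0)
    (Easy.isZero (easy_detP S)) ?_ ?_
  · refine Easy.leaf ?_
    rintro x y ⟨_, hy⟩ y' ⟨_, hy'⟩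
    exact (if_pos hy).trans (if_pos hy').symm
  · refine (h1.inv (easy_detP S) (D := fun x => {y | (fun i => y (some (some i))) ∈ BQ E x.1} ∩
      {y | ¬ ev y (detP (S.Nu x.1 x.2)) = 0}) ?_).congr ?_
    · rintro x y ⟨hy, hy'⟩
      exact ⟨hy', spt_u3_mem hy _⟩
    · rintro x y ⟨_, hy⟩
      exact (if_neg hy).symm

theorem easy_G (S : SingData E) : EasyP (LJ S) (σ := fun x => Option (VQ x.1.1.1 x.1.1.2))
    (fun x => {ofPoly (toQ (S.G x.1 x.2))}) := EasyP.num1 S.G_deg S.G_easy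

theorem easy_F1 (hF : Easy LL (σ := fun p => VE p.1.1 p.1.2) (β := fun _ => β) (DE E) F) :
    Easy (LJ S) (σ := fun x => Option (VQ x.1.1.1 x.1.1.2)) (β := fun _ => Option β)
      (fun x => {y | (fun i => y (some i)) ∈ BQ E x.1}) (F1 S F) := by
  refine Easy.cases (s := fun x y => ev y (ofPoly (toQ (S.G x.1 x.2))) = 0)
    (Easy.isZero (easy_G S)) ?_ ?_
  · refine Easy.leaf ?_
    rintro x y ⟨_, hy⟩ y' ⟨_, hy'⟩
    exact (if_pos hy).trans (if_pos hy').symm
  · refine ((easy_F2 (S := S) hF).inv (easy_G S)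
      (D := fun x => {y | (fun i => y (some i)) ∈ BQ E x.1} ∩
      {y | ¬ ev y (ofPoly (toQ (S.G x.1 x.2))) = 0}) ?_).congr ?_
    · rintro x y ⟨hy, hy'⟩
      exact ⟨hy', hy⟩
    · rintro x y ⟨_, hy⟩
      exact (if_neg hy).symm

theorem easy_FA (hF : Easy LL (σ := fun p => VE p.1.1 p.1.2) (β := fun _ => β) (DE E) F) :
    Easy (LJ S) (σ := fun x => VQ x.1.1.1 x.1.1.2) (β := fun _ => List (Option β))
      (fun x => BQ E x.1) (FA S F) :=
  (easy_F1 (S := S) hF).roots S.P_easy.toQ (bd_toQ S.P_deg) fun _ _ hy _ _ => hy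

theorem easy_FAll (hF : Easy LL (σ := fun p => VE p.1.1 p.1.2) (β := fun _ => β) (DE E) F) :
    Easy LL (σ := fun p => VQ p.1.1 p.1.2) (β := fun p => S.J p → List (Option β)) (BQ E)
      (fun p y j => FA S F ⟨p, j⟩ y) :=
  Easy.pi (L := LL) (σ := fun p => VQ p.1.1 p.1.2) (β := fun _ => List (Option β)) (κ := S.J)
    (T := fun p j y => FA S F ⟨p, j⟩ y) S.card (easy_FA hF)

end Tower

/-! ### Comparison of the times -/

section Cmp

variable {n l : ℕ}

/-- The value at the first root. -/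
noncomputable def at1 (A : Polynomial (MvPolynomial (Ix n l) ℤ)) :
    MvPolynomial (Option (Option (VQ n l))) ℤ := rename some (ofPoly (toQ A))

/-- The value at the second root. -/
noncomputable def at2 (A : Polynomial (MvPolynomial (Ix n l) ℤ)) :
    MvPolynomial (Option (Option (VQ n l))) ℤ := rename (Option.map some) (ofPoly (toQ A))

lemma ev_at1 (A : Polynomial (MvPolynomial (Ix n l) ℤ)) (y : VQ n l → ℝ) (T T' : ℝ) :
    ev (pt (pt y T) T') (at1 A) = (spec (toQ A) y).eval T := by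
  rw [at1, ev_rename_some, ev_ofPoly]

lemma ev_at2 (A : Polynomial (MvPolynomial (Ix n l) ℤ)) (y : VQ n l → ℝ) (T T' : ℝ) :
    ev (pt (pt y T) T') (at2 A) = (spec (toQ A) y).eval T' := by
  rw [← ev_ofPoly, at2, ev, ev, aeval_rename]
  congr 2
  funext o
  cases o <;> rfl

/-- The difference of two times, up to a positive factor. -/
noncomputable def cmpP (A G A' G' : Polynomial (MvPolynomial (Ix n l) ℤ)) :
    MvPolynomial (Option (Option (VQ n l))) ℤ :=
  (at1 A * at2 G' - at2 A' * at1 G) * (at1 G * at2 G')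

lemma sign_cmpP {A G A' G' : Polynomial (MvPolynomial (Ix n l) ℤ)} {y : VQ n l → ℝ} {T T' : ℝ}
    (hG : (spec (toQ G) y).eval T ≠ 0) (hG' : (spec (toQ G') y).eval T' ≠ 0) :
    SignType.sign (ev (pt (pt y T) T') (cmpP A G A' G')) = -1 ↔
      (spec (toQ A) y).eval T / (spec (toQ G) y).eval T <
        (spec (toQ A') y).eval T' / (spec (toQ G') y).eval T' := by
  rw [sign_eq_neg_one_iff]
  simp only [cmpP, ev_mul, ev_sub, ev_at1, ev_at2]
  set a := (spec (toQ A) y).eval T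
  set g := (spec (toQ G) y).eval T
  set a' := (spec (toQ A') y).eval T'
  set g' := (spec (toQ G') y).eval T'
  have h1 : (a * g' - a' * g) * (g * g') = (a / g - a' / g') * (g * g') ^ 2 := by
    field_simp
  have h2 : 0 < (g * g') ^ 2 := by positivity
  rw [h1, mul_neg_iff]
  constructor
  · rintro (⟨_, h⟩ | ⟨h, _⟩)
    · exact absurd h2 (not_lt.2 h.le)
    · exact sub_neg.1 h
  · intro h
    exact Or.inr ⟨sub_neg.2 h, h2⟩

lemma spec_map_some (A : Polynomial (MvPolynomial (VQ n l) ℤ)) (y : VQ n l → ℝ) (T : ℝ) :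
    spec (A.map (rename (some : VQ n l → Option (VQ n l))).toRingHom) (pt y T) = spec A y := by
  rw [spec, Polynomial.map_map, spec]
  congr 1
  refine RingHom.ext fun p => ?_
  exact ev_rename_some y T p

end Cmp

section Cmp2

variable (S : SingData E)

/-- The table of comparisons. -/
noncomputable def cmpL (w : Σ p : NL, S.J p × S.J p) (y : VQ w.1.1.1 w.1.1.2 → ℝ) :
    List (List SignType) :=
  (rootList (spec (toQ (S.P w.1 w.2.1)) y)).map fun T =>
    (rootList (spec ((toQ (S.P w.1 w.2.2)).map (rename some).toRingHom) (pt y T))).map fun T' =>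
      SignType.sign (ev (pt (pt y T) T') (cmpP (S.Nu w.1 w.2.1 none) (S.G w.1 w.2.1)
        (S.Nu w.1 w.2.2 none) (S.G w.1 w.2.2)))

theorem easy_at1 {κ : Type*} {L : κ → ℕ} {n l : κ → ℕ}
    {A : ∀ k, Polynomial (MvPolynomial (Ix (n k) (l k)) ℤ)}
    (hN : Bd L (fun k => (A k).natDegree)) (hA : EasyP L (fun k => Set.range (A k).coeff)) :
    EasyP L (σ := fun k => Option (Option (VQ (n k) (l k)))) (fun k => {at1 (A k)}) :=
  (EasyP.num1 hN hA).renameSome

theorem easy_at2 {κ : Type*} {L : κ → ℕ} {n l : κ → ℕ}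
    {A : ∀ k, Polynomial (MvPolynomial (Ix (n k) (l k)) ℤ)}
    (hN : Bd L (fun k => (A k).natDegree)) (hA : EasyP L (fun k => Set.range (A k).coeff)) :
    EasyP L (σ := fun k => Option (Option (VQ (n k) (l k)))) (fun k => {at2 (A k)}) :=
  ((EasyP.num1 hN hA).rename (τ := fun k => Option (Option (VQ (n k) (l k))))
    (fun _ => Option.map some)).mono fun k => by
    rintro _ rfl
    exact ⟨_, rfl, rfl⟩

theorem easy_cmpL : Easy (fun w : Σ p : NL, S.J p × S.J p => LL w.1)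
    (σ := fun w => VQ w.1.1.1 w.1.1.2) (β := fun _ => List (List SignType))
    (fun _ => Set.univ) (cmpL S) := by
  let g1 : (Σ p : NL, S.J p × S.J p) → PJ S := fun w => ⟨w.1, w.2.1⟩
  let g2 : (Σ p : NL, S.J p × S.J p) → PJ S := fun w => ⟨w.1, w.2.2⟩
  let g3 : (PJ S) → Σ p : NL, S.J p × Option (Fin (p.1.2 + 1)) := fun x => ⟨x.1, (x.2, none)⟩
  have eN := S.Nu_easy.comap g3
  have dN := S.Nu_deg.comap g3
  have h1 : EasyP (fun w : Σ p : NL, S.J p × S.J p => LL w.1)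
      (σ := fun w => Option (Option (VQ w.1.1.1 w.1.1.2)))
      (fun w => {cmpP (S.Nu w.1 w.2.1 none) (S.G w.1 w.2.1)
        (S.Nu w.1 w.2.2 none) (S.G w.1 w.2.2)}) :=
    (((easy_at1 (dN.comap g1) (eN.comap g1)).mul
      (easy_at2 (S.G_deg.comap g2) (S.G_easy.comap g2))).sub
      ((easy_at2 (dN.comap g2) (eN.comap g2)).mul
      (easy_at1 (S.G_deg.comap g1) (S.G_easy.comap g1)))).mul
      ((easy_at1 (S.G_deg.comap g1) (S.G_easy.comap g1)).mul
      (easy_at2 (S.G_deg.comap g2) (S.G_easy.comap g2)))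
  have h2 := Easy.sign (D := fun _ => Set.univ) h1
  have h3 := h2.roots (L := fun w : Σ p : NL, S.J p × S.J p => LL w.1)
    (P := fun w => (toQ (S.P w.1 w.2.2)).map (rename some).toRingHom) (D := fun _ => Set.univ)
    ?_ ?_ fun _ _ _ _ _ => Set.mem_univ _
  · exact h3.roots (L := fun w : Σ p : NL, S.J p × S.J p => LL w.1)
      (P := fun w => toQ (S.P w.1 w.2.1)) (S.P_easy.toQ.comap g1) ((bd_toQ S.P_deg).comap g1)
      fun _ _ _ _ _ => Set.mem_univ _
  · refine ((S.P_easy.toQ.comap g2).rename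
      (τ := fun w : Σ p : NL, S.J p × S.J p => Option (VQ w.1.1.1 w.1.1.2))
      (fun _ => some)).mono fun w => ?_
    rintro _ ⟨j, rfl⟩
    rw [Polynomial.coeff_map]
    exact ⟨_, ⟨j, rfl⟩, rfl⟩
  · exact ((bd_toQ S.P_deg).comap g2).mono fun w => Polynomial.natDegree_map_le

theorem easy_cmpAll : Easy LL (σ := fun p => VQ p.1.1 p.1.2)
    (β := fun p => S.J p × S.J p → List (List SignType)) (fun _ => Set.univ)
    (fun p y jj => cmpL S ⟨p, jj⟩ y) :=
  Easy.pi (L := LL) (σ := fun p => VQ p.1.1 p.1.2) (β := fun _ => List (List SignType))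
    (κ := fun p => S.J p × S.J p) (T := fun p jj y => cmpL S ⟨p, jj⟩ y)
    ((S.card.mul S.card).mono fun p => by rw [Fintype.card_prod]) (easy_cmpL S)

end Cmp2

end Pool.Agent.QC
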