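import Pool.Agent.QC.Rec.Frame
import Pool.Agent.QC.Rec.Class
import Pool.Agent.QC.Lab.Paths

/-!
# Frames for an event: existence
-/

namespace Pool.Agent.QC

open MvPolynomial Matrix Filter Topology Lab

variable {n l : ℕ}

theorem eventually_notMem_of_finite {F : Set ℝ} (hF : F.Finite) :
    ∀ᶠ κ in 𝓝[>] (0 : ℝ), κ ∉ F := by
  have h1 : 𝓝[>] (0 : ℝ) ≤ cofinite :=
    (nhdsWithin_mono 0 fun x (hx : (0 : ℝ) < x) => ne_of_gt hx).trans (nhdsNE_le_cofinite 0)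
  exact h1 hF.compl_mem_cofinite

/-- The frame vector. -/
noncomputable def cFr (g : Fin (n + 1) → ℝ) (κ : ℝ) : Fin n → ℝ := fun j =>
  g j.castSucc * (g (Fin.last n) + κ)⁻¹

theorem inv_last_last {H : Matrix (Fin (n + 1)) (Fin (n + 1)) ℝ} (c : Fin n → ℝ) :
    ((shM c)ᵀ * H * shM c)⁻¹ (Fin.last n) (Fin.last n) =
      (Pi.single (Fin.last n) 1 + dv c) ⬝ᵥ H⁻¹ *ᵥ (Pi.single (Fin.last n) 1 + dv c) := by
  have hM : (shM c)⁻¹ = shN c := Matrix.inv_eq_right_inv (shM_mul_shN c)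
  have hMT : ((shM c)ᵀ)⁻¹ = (shN c)ᵀ := by rw [← transpose_nonsing_inv, hM]
  rw [Matrix.mul_inv_rev, Matrix.mul_inv_rev, hM, hMT]
  have h1 : ∀ A : Matrix (Fin (n + 1)) (Fin (n + 1)) ℝ, A (Fin.last n) (Fin.last n) =
      Pi.single (Fin.last n) 1 ⬝ᵥ A *ᵥ Pi.single (Fin.last n) 1 := by
    intro A
    simp
  have h2 : (shN c)ᵀ *ᵥ Pi.single (Fin.last n) (1 : ℝ) = Pi.single (Fin.last n) 1 + dv c := by
    funext i
    rw [shN, transpose_add, transpose_one, add_mulVec, one_mulVec, Pi.add_apply, Pi.add_apply]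
    congr 1
    simp [vecMulVec_apply]
  rw [h1 (shN c * (H⁻¹ * (shN c)ᵀ)), ← mulVec_mulVec, ← mulVec_mulVec, dotProduct_mulVec,
    ← mulVec_transpose, h2]

theorem frame_pos {H : Matrix (Fin (n + 1)) (Fin (n + 1)) ℝ}
    (hdet : H.det ≠ 0) {a : Fin (n + 1) → ℝ} (ha : 0 < a ⬝ᵥ H *ᵥ a) :
    ∀ᶠ κ in 𝓝[>] (0 : ℝ), (H *ᵥ a) (Fin.last n) + κ ≠ 0 ∧
      0 < ((shM (cFr (H *ᵥ a) κ))ᵀ * H * shM (cFr (H *ᵥ a) κ))⁻¹ (Fin.last n) (Fin.last n) := by
  set g := H *ᵥ a with hg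
  set e : Fin (n + 1) → ℝ := Pi.single (Fin.last n) 1 with he
  have h1 : ∀ᶠ κ in 𝓝[>] (0 : ℝ), κ ∉ ({-g (Fin.last n)} : Set ℝ) :=
    eventually_notMem_of_finite (Set.finite_singleton _)
  set φ : ℝ → ℝ := fun κ => (g + κ • e) ⬝ᵥ H⁻¹ *ᵥ (g + κ • e) with hφ
  have hφc : ContinuousAt φ 0 := by
    have : Continuous φ := by
      simp only [hφ, mulVec_add, mulVec_smul, dotProduct_add, add_dotProduct, smul_dotProduct,
        dotProduct_smul, smul_eq_mul]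
      fun_prop
    exact this.continuousAt
  have hφ0 : 0 < φ 0 := by
    have hu : IsUnit H.det := isUnit_iff_ne_zero.2 hdet
    have : H⁻¹ *ᵥ g = a := by rw [hg, mulVec_mulVec, nonsing_inv_mul H hu, one_mulVec]
    simp only [hφ, zero_smul, add_zero]
    rw [this, dotProduct_comm]
    exact ha
  have h2 : ∀ᶠ κ in 𝓝[>] (0 : ℝ), 0 < φ κ :=
    (hφc.eventually (Ioi_mem_nhds hφ0)).filter_mono nhdsWithin_le_nhds
  filter_upwards [h1, h2] with κ k1 k2
  have hne : g (Fin.last n) + κ ≠ 0 := fun h => k1 (by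
    rw [Set.mem_singleton_iff]; linarith)
  refine ⟨hne, ?_⟩
  rw [inv_last_last]
  have h3 : e + dv (cFr g κ) = (g (Fin.last n) + κ)⁻¹ • (g + κ • e) := by
    funext i
    refine Fin.lastCases ?_ (fun j => ?_) i
    · simp only [he, Pi.add_apply, Pi.single_eq_same, dv_last, Pi.smul_apply, smul_eq_mul,
        mul_one, add_zero]
      rw [inv_mul_cancel₀ hne]
    · have hj : (Pi.single (Fin.last n) (1 : ℝ) : Fin (n + 1) → ℝ) j.castSucc = 0 :=
        Pi.single_eq_of_ne (Fin.castSucc_lt_last j).ne _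
      simp only [he, Pi.add_apply, Pi.smul_apply, smul_eq_mul, hj, mul_zero, add_zero,
        zero_add, dv_castSucc, cFr]
      ring
  rw [h3, mulVec_smul, dotProduct_smul, smul_dotProduct, smul_eq_mul, smul_eq_mul]
  have hi : (g (Fin.last n) + κ)⁻¹ ≠ 0 := inv_ne_zero hne
  have : 0 < (g (Fin.last n) + κ)⁻¹ * (g (Fin.last n) + κ)⁻¹ := mul_self_pos.2 hi
  rw [← mul_assoc]
  exact mul_pos this k2

theorem frame_Phi {Phi : MvPolynomial (Ix n l) ℂ} {q : RTup n l}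
    (hq : eval (cfs (tC q)) Phi ≠ 0) (g : Fin (n + 1) → ℝ) :
    ∀ᶠ κ in 𝓝[>] (0 : ℝ), g (Fin.last n) + κ ≠ 0 → eval (cfs (tC (shT (cFr g κ) q))) Phi ≠ 0 := by
  obtain ⟨P, hP⟩ := (poly_shT (tC q) (xC fun j : Fin n => g j.castSucc)).eval Phi
  have hP0 : P ≠ 0 := by
    rintro rfl
    have := hP 0
    rw [zero_smul, shT_zero] at this
    exact hq (by simpa using this)
  have hfin : {κ : ℝ | P.eval (((g (Fin.last n) + κ)⁻¹ : ℝ) : ℂ) = 0 ∧
      g (Fin.last n) + κ ≠ 0}.Finite := by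
    have h1 : {z : ℂ | P.eval z = 0}.Finite := Polynomial.finite_setOfPred_isRoot hP0
    refine (h1.preimage (f := fun κ : ℝ => (((g (Fin.last n) + κ)⁻¹ : ℝ) : ℂ)) ?_).subset ?_
    · intro x _ y _ hxy
      have h2 : (g (Fin.last n) + x)⁻¹ = (g (Fin.last n) + y)⁻¹ := Complex.ofReal_injective hxy
      have h3 := inv_injective h2
      linarith
    · rintro κ ⟨h, _⟩
      exact h
  filter_upwards [eventually_notMem_of_finite hfin] with κ hκ hne h0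
  refine hκ ⟨?_, hne⟩
  have h1 : (((g (Fin.last n) + κ)⁻¹ : ℝ) : ℂ) • xC (fun j : Fin n => g j.castSucc) =
      xC (cFr g κ) := by
    funext j
    simp only [Pi.smul_apply, smul_eq_mul, xC, cFr]
    push_cast
    ring
  rw [← hP, h1, ← tC_shT]
  exact h0

end Pool.Agent.QC
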