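import Pool.Agent.QC.Rec.PerEvent3
import Pool.Agent.QC.Rec.EventFin

/-!
# The record of a real tuple is computed
-/

namespace Pool.Agent.QC

open MvPolynomial Matrix Filter Topology

/-- Elimination and event list (helper20, helper19). -/
theorem exists_elim : ∃ E : ElimData, EventList E := exists_elim'

variable {E : ElimData}

/-- The record of a real tuple is computed. -/
theorem easy_hasRec (hE : EventList E) (z₀ : ∀ p : NL, Ix p.1.1 p.1.2 → ℤ)
    (hz₀ : ∀ p, eval (fun i => (z₀ p i : ℂ)) (E.Phi p) ≠ 0) :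
    EasyR LL (σ := fun p => VQ p.1.1 p.1.2) (β := fun _ => List EvRec) (DQ E)
      (fun p y ρ => HasRec (E.RS p) (tupOf fun i => (z₀ p i : ℂ)) (yq y) (y (Sum.inr ())) ρ) := by
  refine (hE _ (perEvent E z₀ hz₀)).imp ?_
  rintro p y ⟨hy1, hy2, hy3⟩ ρ ⟨ts, h1, h2, h3⟩
  refine ⟨ts, h1, h2, h3.imp ?_⟩
  rintro t R ⟨v, hv, hR⟩
  refine HasEv.of_cert hy1 hv ?_ hR
  have h4 := (E.good p _ hy1).2.2.2 (t : ℂ)
  rw [← Lab.tC_addT] at h4
  exact (h4 _ hv).1

end Pool.Agent.QC
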