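import Pool.Agent.QC.Rec.Sub

/-!
# The Hessian is computed
-/

namespace Pool.Agent.QC

open MvPolynomial Filter Topology Set

section General

variable {ι : Type*} {L : ι → ℕ} {σ : ι → Type*} {κ : ι → Type*} [∀ i, Fintype (κ i)]
  {f : ∀ i, κ i → MvPolynomial (σ i) ℤ}

/-- Sums over subsets. -/
theorem EasyP.sumS (s : ∀ i, Finset (κ i)) (hκ : Bd L (fun i => Fintype.card (κ i)))
    (h : EasyP L (fun i => Set.range (f i))) : EasyP L (fun i => {∑ j ∈ s i, f i j}) := by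
  classical
  have h1 : EasyP L (fun i => Set.range fun j => if j ∈ s i then f i j else 0) := by
    refine h.zero_one.mono fun i => ?_
    rintro _ ⟨j, rfl⟩
    by_cases hj : j ∈ s i
    · simp only [if_pos hj]; exact Or.inl ⟨j, rfl⟩
    · simp only [if_neg hj]; exact Or.inr (Or.inl rfl)
  refine (EasyP.sum hκ h1).mono fun i => ?_
  rintro _ rfl
  rw [Finset.sum_ite_mem, Finset.univ_inter]
  rfl

/-- Products over subsets. -/
theorem EasyP.prodS (s : ∀ i, Finset (κ i)) (hκ : Bd L (fun i => Fintype.card (κ i)))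
    (h : EasyP L (fun i => Set.range (f i))) : EasyP L (fun i => {∏ j ∈ s i, f i j}) := by
  classical
  have h1 : EasyP L (fun i => Set.range fun j => if j ∈ s i then f i j else 1) := by
    refine h.zero_one.mono fun i => ?_
    rintro _ ⟨j, rfl⟩
    by_cases hj : j ∈ s i
    · simp only [if_pos hj]; exact Or.inl ⟨j, rfl⟩
    · simp only [if_neg hj]; exact Or.inr (Or.inr rfl)
  refine (EasyP.prod hκ h1).mono fun i => ?_
  rintro _ rfl
  rw [Finset.prod_ite_mem, Finset.univ_inter]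
  rfl

end General

variable {σ : NL → Type*} {x : ∀ p : NL, Ix p.1.1 p.1.2 → MvPolynomial (σ p) ℤ}
  {v : ∀ p : NL, Fin (p.1.1 + 1) → MvPolynomial (σ p) ℤ}

lemma bd_n1 : Bd LL (fun p : NL => p.1.1 + 1) := bd_n.add (Bd.const 1)

lemma bd_l1 : Bd LL (fun p : NL => p.1.2 + 1) := bd_l.add (Bd.const 1)

lemma bd_fin_n {α : Type*} (g : α → NL) :
    Bd (fun a => LL (g a)) (fun a => Fintype.card (Fin ((g a).1.1 + 1))) := by
  simpa using bd_n1.comap g

lemma bd_fin_l {α : Type*} (g : α → NL) :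
    Bd (fun a => LL (g a)) (fun a => Fintype.card (Fin ((g a).1.2 + 1))) := by
  simpa using bd_l1.comap g

/-- Coefficients, for a family of indices. -/
theorem EasyP.at {α : Type*} {κ : NL → Type*} {f : ∀ p, κ p → MvPolynomial (σ p) ℤ}
    (h : EasyP LL (fun p => Set.range (f p))) (g : α → NL) (k : ∀ a, κ (g a)) :
    EasyP (fun a => LL (g a)) (σ := fun a => σ (g a)) (fun a => {f (g a) (k a)}) :=
  h.of_range.comap fun a => (⟨g a, k a⟩ : Σ p, κ p)

theorem easyP_qv (hx : EasyP LL (fun p => Set.range (x p)))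
    (hv : EasyP LL (fun p => Set.range (v p))) :
    EasyP LL (fun p => Set.range fun m : Fin (p.1.2 + 1) => qv (tupOf (x p) m) (v p)) := by
  refine EasyP.range (bd_fin_l id) ?_
  unfold qv
  refine EasyP.add (EasyP.add ?_ ?_) ?_
  · refine EasyP.sum (bd_fin_n _) (EasyP.range (bd_fin_n _) (EasyP.sum (bd_fin_n _)
      (EasyP.range (bd_fin_n _) (EasyP.mul (EasyP.mul ?_ ?_) ?_))))
    · exact hx.at _ _
    · exact hv.at _ _
    · exact hv.at _ _
  · refine EasyP.sum (bd_fin_n _) (EasyP.range (bd_fin_n _) (EasyP.mul ?_ ?_))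
    · exact hx.at _ _
    · exact hv.at _ _
  · exact hx.at _ _

theorem easyP_qg (hx : EasyP LL (fun p => Set.range (x p)))
    (hv : EasyP LL (fun p => Set.range (v p))) :
    EasyP LL (fun p => Set.range fun mk : Fin (p.1.2 + 1) × Fin (p.1.1 + 1) =>
      qg (tupOf (x p) mk.1) mk.2 (v p)) := by
  refine EasyP.range ((bd_l1.mul bd_n1).mono fun p => by simp) ?_
  unfold qg
  refine EasyP.add ?_ ?_
  · refine EasyP.sum (bd_fin_n _) (EasyP.range (bd_fin_n _) (EasyP.mul (EasyP.add ?_ ?_) ?_))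
    · exact hx.at _ _
    · exact hx.at _ _
    · exact hv.at _ _
  · exact hx.at _ _

/-- The entries of the Hessian. -/
theorem easyP_fH (hx : EasyP LL (fun p => Set.range (x p)))
    (hv : EasyP LL (fun p => Set.range (v p))) :
    EasyP LL (fun p => Set.range fun ij : Fin (p.1.1 + 1) × Fin (p.1.1 + 1) =>
      fH (tupOf (x p)) (v p) ij.1 ij.2) := by
  have hq := easyP_qv hx hv
  have hg := easyP_qg hx hv
  -- products over erased sets
  have pe : EasyP LL (fun p => Set.range fun m : Fin (p.1.2 + 1) =>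
      ∏ m' ∈ Finset.univ.erase m, qv (tupOf (x p) m') (v p)) := by
    refine EasyP.range (bd_fin_l id) ?_
    exact EasyP.prodS (L := fun q : (Σ p : NL, Fin (p.1.2 + 1)) => LL q.1)
      (σ := fun q => σ q.1) (κ := fun q => Fin (q.1.1.2 + 1))
      (f := fun q m' => qv (tupOf (x q.1) m') (v q.1)) (fun q => Finset.univ.erase q.2)
      (bd_fin_l _) (hq.comap Sigma.fst)
  have ppe : EasyP LL (fun p => Set.range fun mm : Fin (p.1.2 + 1) × Fin (p.1.2 + 1) =>
      ∏ m'' ∈ (Finset.univ.erase mm.1).erase mm.2, qv (tupOf (x p) m'') (v p)) := by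
    refine EasyP.range ((bd_l1.mul bd_l1).mono fun p => by simp) ?_
    exact EasyP.prodS (L := fun q : (Σ p : NL, Fin (p.1.2 + 1) × Fin (p.1.2 + 1)) => LL q.1)
      (σ := fun q => σ q.1) (κ := fun q => Fin (q.1.1.2 + 1))
      (f := fun q m' => qv (tupOf (x q.1) m') (v q.1))
      (fun q => (Finset.univ.erase q.2.1).erase q.2.2)
      (bd_fin_l _) (hq.comap Sigma.fst)
  -- the inner sums
  have s1 : EasyP LL (fun p => Set.range fun mij :
      Fin (p.1.2 + 1) × (Fin (p.1.1 + 1) × Fin (p.1.1 + 1)) =>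
      ∑ m' ∈ Finset.univ.erase mij.1, qg (tupOf (x p) mij.1) mij.2.2 (v p) *
        (qg (tupOf (x p) m') mij.2.1 (v p) *
          ∏ m'' ∈ (Finset.univ.erase mij.1).erase m', qv (tupOf (x p) m'') (v p))) := by
    refine EasyP.range ((bd_l1.mul (bd_n1.mul bd_n1)).mono fun p => by simp) ?_
    refine EasyP.sumS (L := fun q : (Σ p : NL, Fin (p.1.2 + 1) ×
        (Fin (p.1.1 + 1) × Fin (p.1.1 + 1))) => LL q.1)
      (σ := fun q => σ q.1) (κ := fun q => Fin (q.1.1.2 + 1))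
      (f := fun q m' => qg (tupOf (x q.1) q.2.1) q.2.2.2 (v q.1) *
        (qg (tupOf (x q.1) m') q.2.2.1 (v q.1) *
          ∏ m'' ∈ (Finset.univ.erase q.2.1).erase m', qv (tupOf (x q.1) m'') (v q.1)))
      (fun q => Finset.univ.erase q.2.1) (bd_fin_l _) ?_
    refine EasyP.range (bd_fin_l _) (EasyP.mul ?_ (EasyP.mul ?_ ?_))
    · exact hg.at (fun a : (Σ q : (Σ p : NL, Fin (p.1.2 + 1) ×
        (Fin (p.1.1 + 1) × Fin (p.1.1 + 1))), Fin (q.1.1.2 + 1)) => a.1.1)
        fun a => (a.1.2.1, a.1.2.2.2)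
    · exact hg.at (fun a : (Σ q : (Σ p : NL, Fin (p.1.2 + 1) ×
        (Fin (p.1.1 + 1) × Fin (p.1.1 + 1))), Fin (q.1.1.2 + 1)) => a.1.1)
        fun a => (a.2, a.1.2.2.1)
    · exact ppe.at (fun a : (Σ q : (Σ p : NL, Fin (p.1.2 + 1) ×
        (Fin (p.1.1 + 1) × Fin (p.1.1 + 1))), Fin (q.1.1.2 + 1)) => a.1.1)
        fun a => (a.1.2.1, a.2)
  refine EasyP.range ((bd_n1.mul bd_n1).mono fun p => by simp) ?_
  unfold fH
  refine EasyP.sum (L := fun q : (Σ p : NL, Fin (p.1.1 + 1) × Fin (p.1.1 + 1)) => LL q.1)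
    (σ := fun q => σ q.1) (κ := fun q => Fin (q.1.1.2 + 1)) (bd_fin_l _)
    (EasyP.range (bd_fin_l _) (EasyP.add (EasyP.mul ?_ ?_) ?_))
  · unfold qh
    exact EasyP.add (hx.at _ _) (hx.at _ _)
  · exact pe.at (fun a : (Σ q : (Σ p : NL, Fin (p.1.1 + 1) × Fin (p.1.1 + 1)),
      Fin (q.1.1.2 + 1)) => a.1.1) fun a => a.2
  · exact s1.at (fun a : (Σ q : (Σ p : NL, Fin (p.1.1 + 1) × Fin (p.1.1 + 1)),
      Fin (q.1.1.2 + 1)) => a.1.1) fun a => (a.2, a.1.2)

/-- The entries of the matrix `Hm`. -/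
theorem easyP_Hm (hx : EasyP LL (fun p => Set.range (x p)))
    (hv : EasyP LL (fun p => Set.range (v p))) :
    EasyP LL (fun p => {h | ∃ i j, h = Hm (tupOf (x p)) (v p) i j}) := by
  have hq := easyP_qv hx hv
  have hPi : EasyP LL (fun p => {fPi (tupOf (x p)) (v p)}) := by
    unfold fPi
    refine EasyP.prod (bd_l.mono fun p => by simp) (EasyP.range (bd_l.mono fun p => by simp) ?_)
    exact hq.at (fun a : (Σ p : NL, Fin p.1.2) => a.1) fun a => a.2.succ
  have h1 := (hPi.comap (Sigma.fst : (Σ p : NL, Fin (p.1.1 + 1) × Fin (p.1.1 + 1)) → NL)).mul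
    (easyP_fH hx hv).of_range
  have h2 := EasyP.range (L := LL) (σ := σ) (κ := fun p => Fin (p.1.1 + 1) × Fin (p.1.1 + 1))
    (f := fun p ij => fPi (tupOf (x p)) (v p) * fH (tupOf (x p)) (v p) ij.1 ij.2)
    ((bd_n1.mul bd_n1).mono fun p : NL => le_of_eq (by simp)) h1
  refine h2.mono fun p => ?_
  rintro _ ⟨i, j, rfl⟩
  exact ⟨(i, j), rfl⟩

end Pool.Agent.QC
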