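import Pool.Agent.QC.Rec.Data
import Pool.Agent.QC.Word.Final
import Pool.Agent.QC.Word.Count

/-!
# Words along paths are computed
-/

namespace Pool.Agent.QC

open MvPolynomial Filter Topology Set

/-- The word depends only on `[0, 1]`. -/
lemma word_congr {S S' : ℝ → Set ℂ} (h : ∀ s ∈ Icc (0 : ℝ) 1, S s = S' s) : word S = word S' := by
  unfold word
  congr 1
  funext s
  rw [h s.1 s.2]

variable (E : ElimData)

lemma cp_map {n l M : ℕ} (r : Polynomial (MvPolynomial (Ix n l) ℤ))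
    (hM : ∀ k ≤ r.natDegree, (bind₁ (upath (J := 4)) (r.coeff k)).totalDegree ≤ M)
    (y : PV n l 4 → ℝ) (s : ℝ) :
    cp (fun k => reP M (bind₁ (upath (J := 4)) (r.coeff k)))
      (fun k => imP M (bind₁ (upath (J := 4)) (r.coeff k))) r.natDegree (pt y s) =
    r.map (cevHom (cfs (ppath y s))) := by
  ext k
  rw [cp_coeff, Polynomial.coeff_map]
  split_ifs with h
  · rw [← cev_ptI (hM k h), cev_bind₁]
    show _ = cev (cfs (ppath y s)) (r.coeff k)
    congr 1
    funext i
    exact cev_upath y s i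
  · rw [Polynomial.coeff_eq_zero_of_natDegree_lt (not_le.1 h), map_zero]

theorem EasyP.var {ι : Type*} {L : ι → ℕ} {σ : ι → Type*} (x : ∀ i, σ i) :
    EasyP L (fun i => {(X (x i) : MvPolynomial (σ i) ℤ)}) :=
  EasyP.vars.of_mem fun i => ⟨x i, rfl⟩

lemma card_Ix (n l : ℕ) :
    Fintype.card (Ix n l) = (l + 1) * ((n + 1) * (n + 1) + ((n + 1) + 1)) := by
  simp [Ix]

lemma bd_card_Ix : Bd LL (fun p => Fintype.card (Ix p.1.1 p.1.2)) := by
  have h1 : Bd LL (fun p : NL => p.1.1) := bd_n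
  have h2 : Bd LL (fun p : NL => p.1.2) := bd_l
  simp only [card_Ix]
  exact (h2.add (Bd.const 1)).mul (((h1.add (Bd.const 1)).mul (h1.add (Bd.const 1))).add
    ((h1.add (Bd.const 1)).add (Bd.const 1)))

theorem easyP_upath {J : ℕ} : EasyP LL (σ := fun p : NL => Option (Option (PV p.1.1 p.1.2 J)))
    (fun p => Set.range (upath (n := p.1.1) (l := p.1.2) (J := J))) := by
  refine EasyP.range bd_card_Ix ?_
  unfold upath
  refine EasyP.sum (κ := fun _ => Fin (J + 1)) ((Bd.const (J + 1)).mono fun p => ?_) ?_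
  · simp
  · refine EasyP.range ((Bd.const (J + 1)).mono fun p => ?_) ?_
    · simp
    · refine EasyP.mul (EasyP.add (EasyP.var _) (EasyP.mul (EasyP.var _) (EasyP.var _)))
        (EasyP.pow (EasyP.var _) ((Bd.const J).mono fun p => ?_))
      exact Nat.lt_succ_iff.1 p.2.2

/-- (C2) The words along polynomial paths. -/
theorem easy_pathWord :
    Easy LL (σ := fun p : NL => PV p.1.1 p.1.2 4)
      (fun p => {y | ∀ s ∈ Icc (0 : ℝ) 1, eval (cfs (ppath y s)) (E.Phi p) ≠ 0})
      (fun p y => word (fun s => (E.RS p).Rt (ppath y s))) := by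
  set f : ∀ p : NL, Fin ((E.r p).natDegree + 1) →
      MvPolynomial (Option (Option (PV p.1.1 p.1.2 4))) ℤ :=
    fun p k => bind₁ (upath (J := 4)) ((E.r p).coeff k) with hf
  have hfe : EasyP LL (σ := fun p : NL => Option (Option (PV p.1.1 p.1.2 4)))
      (fun p => Set.range (f p)) := by
    refine (E.r_easy.subst easyP_upath).mono fun p => ?_
    rintro _ ⟨k, rfl⟩
    exact ⟨_, ⟨k, rfl⟩, rfl⟩
  obtain ⟨a, ha, _, _, ha2⟩ := E.r_easy.bd
  have hκ : Bd LL (fun p => Fintype.card (Fin ((E.r p).natDegree + 1))) := by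
    simpa using E.r_deg.add (Bd.const 1)
  obtain ⟨N, hN, hN1, hre, him⟩ := EasyP.reIm hκ hfe
  have hmap : ∀ (p : NL) (y : PV p.1.1 p.1.2 4 → ℝ) (s : ℝ),
      cp (fun k => reP (N p) (bind₁ (upath (J := 4)) ((E.r p).coeff k)))
        (fun k => imP (N p) (bind₁ (upath (J := 4)) ((E.r p).coeff k))) (E.r p).natDegree
        (pt y s) = (E.r p).map (cevHom (cfs (ppath y s))) := fun p y s =>
    cp_map _ (fun k hk => hN1 p ⟨k, Nat.lt_succ_iff.2 hk⟩) y s
  have key := Easy.segWord (L := LL) (σ := fun p : NL => PV p.1.1 p.1.2 4)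
    (a := fun p k => reP (N p) (bind₁ (upath (J := 4)) ((E.r p).coeff k)))
    (b := fun p k => imP (N p) (bind₁ (upath (J := 4)) ((E.r p).coeff k)))
    (n := fun p => (E.r p).natDegree) E.r_deg
    (hre.mono fun p => by rintro _ ⟨k, hk, rfl⟩; exact ⟨⟨k, Nat.lt_succ_iff.2 hk⟩, rfl⟩)
    (him.mono fun p => by rintro _ ⟨k, hk, rfl⟩; exact ⟨⟨k, Nat.lt_succ_iff.2 hk⟩, rfl⟩)
    (D := fun p => {y | ∀ s ∈ Icc (0 : ℝ) 1, eval (cfs (ppath y s)) (E.Phi p) ≠ 0}) ?_
  · refine key.congr fun p y hy => word_congr fun s hs => ?_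
    rw [E.rt p _ (hy s hs), hmap]
  · intro p y hy
    refine ⟨(E.r p).natDegree, (E.RS p).M, fun s hs => ?_⟩
    have h0 : cevHom (cfs (ppath y s)) (E.r p).leadingCoeff ≠ 0 := E.lead p _ (hy s hs)
    rw [hmap]
    have hne : (E.r p).map (cevHom (cfs (ppath y s))) ≠ 0 := by
      intro h
      apply h0
      have := congrArg (fun P => Polynomial.coeff P (E.r p).natDegree) h
      simpa using this
    refine ⟨hne, ?_, ?_⟩
    · exact Polynomial.natDegree_map_of_leadingCoeff_ne_zero _ h0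
    · have h2 : {z | ((E.r p).map (cevHom (cfs (ppath y s)))).eval z = 0} =
          (((E.r p).map (cevHom (cfs (ppath y s)))).roots.toFinset : Set ℂ) := by
        ext z
        simp [Polynomial.mem_roots hne]
      rw [← (E.RS p).card _ (hy s hs), E.rt p _ (hy s hs), h2, Set.ncard_coe_finset]

/-- Variables: tuple and a real number. -/
abbrev VC (n l : ℕ) := Ix n l ⊕ Unit

lemma cp_map_real {n l : ℕ} {τ : Type*} (r : Polynomial (MvPolynomial (Ix n l) ℤ))
    (x : Ix n l ⊕ τ → ℝ) :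
    cp (fun k => rename Sum.inl (r.coeff k)) (fun _ => 0) r.natDegree x =
      r.map (cevHom (cfs (tC (yq x)))) := by
  ext k
  rw [cp_coeff, Polynomial.coeff_map]
  split_ifs with h
  · rw [ev_zero, Complex.ofReal_zero, zero_mul, add_zero]
    show _ = aeval (cfs (tC (yq x))) (r.coeff k)
    have h1 : cfs (tC (yq x)) = fun i => ((x (Sum.inl i) : ℝ) : ℂ) := by
      funext i
      obtain ⟨m, ij | i | u⟩ := i <;> rfl
    rw [h1]
    induction r.coeff k using MvPolynomial.induction_on with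
    | C a => simp
    | add p q hp hq => rw [map_add, ev_add, map_add, ← hp, ← hq]; push_cast; rfl
    | mul_X p i hp =>
      rw [map_mul, ev_mul, map_mul, ← hp, rename_X, ev_X, aeval_X]; push_cast; rfl
  · rw [Polynomial.coeff_eq_zero_of_natDegree_lt (not_le.1 h), map_zero]

/-- The number of real roots below a number. -/
theorem easy_cnt :
    Easy LL (σ := fun p : NL => VC p.1.1 p.1.2)
      (fun p => {x | eval (cfs (tC (yq x))) (E.Phi p) ≠ 0})
      (fun p x => {z ∈ (E.RS p).Rt (tC (yq x)) | z.im = 0 ∧ z.re < x (Sum.inr ())}.ncard) := by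
  have key := Easy.count (L := LL) (σ := fun p : NL => VC p.1.1 p.1.2)
    (a := fun p k => rename Sum.inl ((E.r p).coeff k)) (b := fun _ _ => 0)
    (n := fun p => (E.r p).natDegree) E.r_deg
    ((E.r_easy.rename (τ := fun p : NL => VC p.1.1 p.1.2) fun _ => Sum.inl).mono fun p => by
      rintro _ ⟨k, _, rfl⟩; exact ⟨_, ⟨k, rfl⟩, rfl⟩)
    ((EasyP.const (L := LL) (σ := fun p : NL => VC p.1.1 p.1.2) fun _ => 0).mono fun p => by
      rintro _ ⟨k, _, rfl⟩; simp)
    (v := fun p => X (Sum.inr ())) (EasyP.var _)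
    (D := fun p => {x | eval (cfs (tC (yq x))) (E.Phi p) ≠ 0}) ?_
  · refine key.congr fun p x hx => ?_
    rw [cp_map_real, E.rt p _ hx, ev_X]
    rfl
  · intro p x hx
    rw [cp_map_real]
    intro h
    apply E.lead p _ hx
    have := congrArg (fun P => Polynomial.coeff P (E.r p).natDegree) h
    simpa using this

end Pool.Agent.QC
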