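import Pool.Agent.QC.Rec.Words
import Pool.Agent.QC.Rec.HmEasy

/-!
# The certificate of an event is computed
-/

namespace Pool.Agent.QC

open MvPolynomial Matrix Filter Topology

/-! ### Relations -/

namespace EasyR

variable {ι : Type*} {L : ι → ℕ} {σ : ι → Type*} {β γ : ι → Type*}
  {D : ∀ i, Set (σ i → ℝ)} {R : ∀ i, (σ i → ℝ) → β i → Prop}

theorem map {R' : ∀ i, (σ i → ℝ) → γ i → Prop} (h : EasyR L D R) (g : ∀ i, β i → γ i)
    (h' : ∀ i, ∀ x ∈ D i, ∀ b, R i x b → R' i x (g i b)) : EasyR L D R' := by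
  obtain ⟨F, h1, h2⟩ := h
  exact ⟨_, h1.comp g, fun i x hx => h' i x hx _ (h2 i x hx)⟩

theorem pair {R' : ∀ i, (σ i → ℝ) → γ i → Prop} (h : EasyR L D R) (h' : EasyR L D R') :
    EasyR L (β := fun i => β i × γ i) D (fun i x b => R i x b.1 ∧ R' i x b.2) := by
  obtain ⟨F, h1, h2⟩ := h
  obtain ⟨F', h1', h2'⟩ := h'
  exact ⟨_, h1.pair h1', fun i x hx => ⟨h2 i x hx, h2' i x hx⟩⟩

theorem cases {s : ∀ i, (σ i → ℝ) → Prop} (h : Easy L D s)
    (h1 : EasyR L (fun i => D i ∩ {x | s i x}) R)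
    (h2 : EasyR L (fun i => D i ∩ {x | ¬ s i x}) R) : EasyR L D R := by
  classical
  obtain ⟨F1, a1, b1⟩ := h1
  obtain ⟨F2, a2, b2⟩ := h2
  refine ⟨fun i x => if s i x then F1 i x else F2 i x, Easy.cases h ?_ ?_, ?_⟩
  · exact a1.congr fun i x hx => by rw [if_pos (show s i x from hx.2)]
  · exact a2.congr fun i x hx => by rw [if_neg (show ¬ s i x from hx.2)]
  · intro i x hx
    by_cases hs : s i x
    · show R i x (if s i x then F1 i x else F2 i x)
      rw [if_pos hs]; exact b1 i x ⟨hx, hs⟩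
    · show R i x (if s i x then F1 i x else F2 i x)
      rw [if_neg hs]; exact b2 i x ⟨hx, hs⟩

end EasyR

/-! ### Coordinates -/

section Coord

variable {n l : ℕ}

/-- The coordinates `t₀`, `t`. -/
def tY (y : VE n l → ℝ) (j : Fin 2) : ℝ := y (Sum.inr (Sum.inl j))

/-- The coordinates `v`. -/
def vY (y : VE n l → ℝ) : Fin (n + 1) → ℝ := fun i => y (Sum.inr (Sum.inr i))

/-- The matrix of a point. -/
def HY (y : VE n l → ℝ) : Matrix (Fin (n + 1)) (Fin (n + 1)) ℝ :=
  Hm (addT (yq y) (tY y 1)) (vY y)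

/-- The generic matrix. -/
noncomputable def HE (n l : ℕ) : Matrix (Fin (n + 1)) (Fin (n + 1)) (MvPolynomial (VE n l) ℤ) :=
  Hm (tupOf fun i => X (Sum.inl i) + B1B i * X (Sum.inr (Sum.inl 1)))
    (fun i => X (Sum.inr (Sum.inr i)))

lemma qmap_tupOf {R S : Type*} [CommRing R] [CommRing S] (f : R →+* S) (x : Ix n l → R) :
    (fun m => qmap f (tupOf x m)) = tupOf fun i => f (x i) := rfl

lemma tupOf_addT {R : Type*} [CommRing R] (x : Ix n l → R) (t : R) :
    (tupOf fun i => x i + B1B i * t) = addT (tupOf x) t := by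
  apply cfs_injective
  rw [cfs_tupOf]
  funext i
  rw [cfs_addT, cfs_tupOf]

lemma HE_map (y : VE n l → ℝ) : (HE n l).map (ev y) = HY y := by
  ext i j
  rw [map_apply]
  show evHom y (fPi _ _ * fH _ _ i j) = _
  rw [map_mul, map_fPi, map_fH, qmap_tupOf]
  have h1 : (tupOf fun i : Ix n l => evHom y (X (Sum.inl i) + B1B i * X (Sum.inr (Sum.inl 1)))) =
      addT (yq y) (tY y 1) := by
    rw [yq, ← tupOf_addT]
    congr 1
    funext i
    simp [ev_B1B, tY]
  have h2 : (fun i : Fin (n + 1) => evHom y (X (Sum.inr (Sum.inr i)) : MvPolynomial (VE n l) ℤ)) =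
      vY y := by
    funext i
    simp [vY]
  rw [h1, h2]
  rfl

lemma HE_symm : (HE n l).IsSymm := Hm_symm _ _

end Coord

theorem easyP_HE : EasyP LL (σ := fun p : NL => VE p.1.1 p.1.2)
    (fun p => {h | ∃ i j, h = HE p.1.1 p.1.2 i j}) := by
  refine easyP_Hm (x := fun p i => X (Sum.inl i) + B1B i * X (Sum.inr (Sum.inl 1)))
    (v := fun p i => X (Sum.inr (Sum.inr i))) ?_ ?_
  · exact easyP_addT (x := fun p i => X (Sum.inl i))
      (EasyP.vars.mono fun p => by rintro _ ⟨i, rfl⟩; exact ⟨_, rfl⟩) (EasyP.var _)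
  · exact EasyP.vars.mono fun p => by rintro _ ⟨i, rfl⟩; exact ⟨_, rfl⟩

/-! ### The class -/

section Class

variable {D : ∀ p : NL, Set (VE p.1.1 p.1.2 → ℝ)}

theorem easy_charSigns : Easy LL (σ := fun p : NL => VE p.1.1 p.1.2) D
    (fun p y (j : Fin (p.1.1 + 1)) => SignType.sign ((HY y).charpoly.coeff j)) := by
  have h1 := EasyP.charpoly (L := LL) (σ := fun p : NL => VE p.1.1 p.1.2)
    (κ := fun p => Fin (p.1.1 + 1)) (A := fun p => HE p.1.1 p.1.2) (bd_fin_n id) easyP_HE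
  refine (Easy.signs (L := LL) (D := D) (κ := fun p => Fin (p.1.1 + 1))
    (f := fun p j => (HE p.1.1 p.1.2).charpoly.coeff j) (bd_fin_n id) (h1.mono fun p => ?_)).congr ?_
  · rintro _ ⟨j, rfl⟩; exact ⟨j, rfl⟩
  · intro p y _
    funext j
    have : ev y ((HE p.1.1 p.1.2).charpoly.coeff j) = (HY y).charpoly.coeff j := by
      rw [← HE_map]
      have h2 := Matrix.charpoly_map (HE p.1.1 p.1.2) (evHom y)
      have h3 : (HE p.1.1 p.1.2).map (evHom y) = (HE p.1.1 p.1.2).map (ev y) := rfl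
      rw [← h3, h2, Polynomial.coeff_map]
      rfl
    rw [this]

lemma HY_herm {n l : ℕ} (y : VE n l → ℝ) : (HY y).IsHermitian := by
  have := Hm_symm (addT (yq y) (tY y 1)) (vY y)
  rw [IsHermitian, conjTranspose_eq_transpose_of_trivial]
  exact this

theorem easy_class : Easy LL (σ := fun p : NL => VE p.1.1 p.1.2) D
    (fun p y => (NegDef (HY y), OnePos (HY y))) := by
  refine (easy_charSigns (D := D)).factor fun p x _ y _ hxy => ?_
  have h := class_congr (HY_herm x) (HY_herm y) fun i hi => congrFun hxy ⟨i, hi⟩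
  rw [Prod.mk.injEq]
  exact ⟨propext h.1, propext h.2⟩

theorem easy_inOm : Easy LL (σ := fun p : NL => VE p.1.1 p.1.2) D
    (fun p y => inOm (yq y) (vY y)) := by
  have h1 := easyP_qv (σ := fun p : NL => VE p.1.1 p.1.2) (x := fun p i => X (Sum.inl i))
    (v := fun p i => X (Sum.inr (Sum.inr i)))
    (EasyP.vars.mono fun p => by rintro _ ⟨i, rfl⟩; exact ⟨_, rfl⟩)
    (EasyP.vars.mono fun p => by rintro _ ⟨i, rfl⟩; exact ⟨_, rfl⟩)
  have h2 := Easy.signs (L := LL) (σ := fun p : NL => VE p.1.1 p.1.2) (D := D)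
    (κ := fun p => Fin p.1.2)
    (f := fun p m => qv (tupOf (fun i => X (Sum.inl i)) m.succ) fun i => X (Sum.inr (Sum.inr i)))
    (bd_l.mono fun p => by simp) (h1.mono fun p => by rintro _ ⟨m, rfl⟩; exact ⟨m.succ, rfl⟩)
  have h3 : ∀ (p : NL) (y : VE p.1.1 p.1.2 → ℝ) (m : Fin p.1.2),
      ev y (qv (tupOf (fun i => X (Sum.inl i)) m.succ) fun i => X (Sum.inr (Sum.inr i))) =
        qvR (yq y m.succ) (vY y) := by
    intro p y m
    have := map_qv (evHom y) (tupOf (fun i => (X (Sum.inl i) : MvPolynomial (VE p.1.1 p.1.2) ℤ))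
      m.succ) (fun i => X (Sum.inr (Sum.inr i)))
    have h4 := congrFun (qmap_tupOf (evHom y)
      (fun i => (X (Sum.inl i) : MvPolynomial (VE p.1.1 p.1.2) ℤ))) m.succ
    rw [h4] at this
    simp only [evHom_apply, ev_X] at this
    exact this
  refine h2.factor fun p x _ y _ hxy => ?_
  have h4 : ∀ m : Fin p.1.2, 0 < qvR (yq x m.succ) (vY x) ↔ 0 < qvR (yq y m.succ) (vY y) := by
    intro m
    have := congrFun hxy m
    simp only [h3] at this
    rw [← sign_eq_one_iff, this, sign_eq_one_iff]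
  exact propext (forall_congr' h4)

end Class

/-! ### The words -/

section Pts

variable {n l : ℕ}

/-- The point with coordinates `q, t₀, t, κ, ω, c`. -/
def mkW (q : RTup n l) (t₀ t κ ω : ℝ) (c : Fin n → ℝ) : WV n l → ℝ :=
  Sum.elim (cfs q) (Sum.elim ![t₀, t, κ, ω] c)

lemma mem_DW_mkW {Phi : MvPolynomial (Ix n l) ℂ} {q₀ : Tup n l} {q : RTup n l}
    {t₀ t κ ω : ℝ} {c : Fin n → ℝ} : mkW q t₀ t κ ω c ∈ DW Phi q₀ ↔
      ∀ s ∈ Set.Icc (0 : ℝ) 1,
        eval (cfs (pathA q₀ (tC (addT q t₀)) ω s)) Phi ≠ 0 ∧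
        eval (cfs (pathB (tC q) t₀ ((t + κ : ℝ) : ℂ) ω s)) Phi ≠ 0 ∧
        eval (cfs (pathC (tC (addT q (t + κ))) (xC c) ω s)) Phi ≠ 0 := Iff.rfl

lemma FW_mkW {Phi : MvPolynomial (Ix n l) ℂ} (RS : RootSys Phi) {q₀ : Tup n l} {q : RTup n l}
    {t₀ t κ ω : ℝ} {c : Fin n → ℝ} {R : EvRec} :
    FW RS q₀ (mkW q t₀ t κ ω c) = (R.wA, R.wB, R.wC) ↔ WordsOK RS q₀ q t₀ t c κ ω R := by
  unfold FW WordsOK
  rw [Prod.mk.injEq, Prod.mk.injEq]
  rfl

/-- Substitution in the real case. -/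
noncomputable def uRe (n l : ℕ) : WV n l → MvPolynomial (Option (Option (VE n l))) ℤ :=
  Sum.elim (fun i => X (some (some (Sum.inl i))))
    (Sum.elim ![X (some (some (Sum.inr (Sum.inl 0)))), X (some (some (Sum.inr (Sum.inl 1)))),
      X (some none), X none] (fun _ => 0))

lemma spt_uRe (y : VE n l → ℝ) (κ ω : ℝ) :
    spt (uRe n l) (pt (pt y κ) ω) = mkW (yq y) (tY y 0) (tY y 1) κ ω 0 := by
  funext j
  rcases j with i | j | j
  · simp [spt, uRe, mkW, cfs_yq]
  · fin_cases j <;> simp [spt, uRe, mkW, tY]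
  · simp [spt, uRe, mkW]

/-- Substitution for the number of roots. -/
noncomputable def uCn (n l : ℕ) : VC n l → MvPolynomial (Option (VE n l)) ℤ :=
  Sum.elim (fun i => X (some (Sum.inl i)) + B1B i * (X (some (Sum.inr (Sum.inl 1))) + X none))
    (fun _ => X (some (Sum.inr (Sum.inr (Fin.last n)))))

lemma yq_spt_uCn (y : VE n l → ℝ) (κ : ℝ) :
    yq (spt (uCn n l) (pt y κ)) = addT (yq y) (tY y 1 + κ) := by
  rw [yq, yq, ← tupOf_addT]
  congr 1
  funext i
  simp [spt, uCn, ev_B1B, tY]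

lemma spt_uCn_inr (y : VE n l → ℝ) (κ : ℝ) :
    spt (uCn n l) (pt y κ) (Sum.inr ()) = vY y (Fin.last n) := by
  simp [spt, uCn, vY]

/-- Variables `(q, t₀, t, v)` and `g`. -/
abbrev VG (n l : ℕ) := VE n l ⊕ Fin (n + 1)

/-- Substitution in the other case; variables `κ'`, `z`, `κ`, `ω` are added. -/
noncomputable def uGe (n l : ℕ) :
    WV n l → MvPolynomial (Option (Option (Option (Option (VG n l))))) ℤ :=
  Sum.elim (fun i => X (some (some (some (some (Sum.inl (Sum.inl i)))))))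
    (Sum.elim ![X (some (some (some (some (Sum.inl (Sum.inr (Sum.inl 0))))))),
      X (some (some (some (some (Sum.inl (Sum.inr (Sum.inl 1))))))),
      X (some none), X none] (fun j => X (some (some (some (some (Sum.inr j.castSucc))))) *
        X (some (some none))))

lemma spt_uGe (y : VG n l → ℝ) (κ' z κ ω : ℝ) :
    spt (uGe n l) (pt (pt (pt (pt y κ') z) κ) ω) =
      mkW (yq fun i => y (Sum.inl i)) (tY (fun i => y (Sum.inl i)) 0)
        (tY (fun i => y (Sum.inl i)) 1) κ ω (fun j => y (Sum.inr j.castSucc) * z) := by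
  funext j
  rcases j with i | j | j
  · simp [spt, uGe, mkW, cfs_yq]
  · fin_cases j <;> simp [spt, uGe, mkW, tY]
  · simp [spt, uGe, mkW]

/-- The denominator. -/
noncomputable def gE (n l : ℕ) : MvPolynomial (Option (VG n l)) ℤ :=
  X (some (Sum.inr (Fin.last n))) + X none

lemma ev_gE (y : VG n l → ℝ) (κ' : ℝ) :
    ev (pt y κ') (gE n l) = y (Sum.inr (Fin.last n)) + κ' := by
  simp [gE]

end Pts

theorem easyP_uRe : EasyP LL (fun p : NL => Set.range (uRe p.1.1 p.1.2)) := by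
  refine (EasyP.vars.insert_const fun _ => 0).mono fun p => ?_
  rintro _ ⟨i | j | j, rfl⟩
  · exact Or.inr ⟨_, rfl⟩
  · fin_cases j <;> exact Or.inr ⟨_, rfl⟩
  · left; simp [uRe]

theorem easyP_uCn : EasyP LL (fun p : NL => Set.range (uCn p.1.1 p.1.2)) := by
  have h1 := easyP_addT (σ := fun p : NL => Option (VE p.1.1 p.1.2))
    (x := fun p i => X (some (Sum.inl i))) (t := fun p => X (some (Sum.inr (Sum.inl 1))) + X none)
    (EasyP.vars.mono fun p => by rintro _ ⟨i, rfl⟩; exact ⟨_, rfl⟩)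
    ((EasyP.var _).add (EasyP.var _))
  refine (h1.union EasyP.vars).mono fun p => ?_
  rintro _ ⟨i | j, rfl⟩
  · exact Or.inl ⟨i, rfl⟩
  · exact Or.inr ⟨_, rfl⟩

theorem easyP_uGe : EasyP LL (fun p : NL => Set.range (uGe p.1.1 p.1.2)) := by
  have h1 : EasyP LL (fun p : NL => Set.range fun j : Fin p.1.1 =>
      (X (some (some (some (some (Sum.inr j.castSucc))))) * X (some (some none)) :
        MvPolynomial (Option (Option (Option (Option (VG p.1.1 p.1.2))))) ℤ)) :=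
    EasyP.range (bd_n.mono fun p => by simp) ((EasyP.var _).mul (EasyP.var _))
  refine (h1.union EasyP.vars).mono fun p => ?_
  rintro _ ⟨i | j | j, rfl⟩
  · exact Or.inr ⟨_, rfl⟩
  · fin_cases j <;> exact Or.inr ⟨_, rfl⟩
  · exact Or.inl ⟨j, rfl⟩

end Pool.Agent.QC
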