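import Pool.Agent.QC.Rec.PerEvent

/-!
# The certificate of an event is computed, continued
-/

namespace Pool.Agent.QC

open MvPolynomial Matrix Filter Topology

variable (E : ElimData) (z₀ : ∀ p : NL, Ix p.1.1 p.1.2 → ℤ)
    (hz₀ : ∀ p, eval (fun i => (z₀ p i : ℂ)) (E.Phi p) ≠ 0)

lemma shT_zero' {n l : ℕ} (q : RTup n l) : shT (0 : Fin n → ℝ) q = q := Lab.shT_zero q

include hz₀ in
/-- The words in the real case. -/
theorem easy_realWords :
    EasyR LL (σ := fun p => VE p.1.1 p.1.2) (β := fun _ => Wrd × Wrd × Wrd) (DE E)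
      (fun p y b => ∀ᶠ κ in 𝓝[>] (0 : ℝ), ∀ᶠ ω in 𝓝[>] (0 : ℝ),
        FW (E.RS p) (tupOf fun i => (z₀ p i : ℂ))
          (mkW (yq y) (tY y 0) (tY y 1) κ ω 0) = b) := by
  have a1 := (easy_FW E z₀).subst easyP_uRe
    (D₁ := fun p => {Y | spt (uRe p.1.1 p.1.2) Y ∈ DW (E.Phi p) (tupOf fun i => (z₀ p i : ℂ))})
    (fun p Y hY => hY)
  have a2 := EasyR.of_easy (R := fun p Y b => FW (E.RS p) (tupOf fun i => (z₀ p i : ℂ))
    (spt (uRe p.1.1 p.1.2) Y) = b) a1 (fun p Y _ => rfl)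
  have a3 := EasyR.lim (σ := fun p : NL => Option (VE p.1.1 p.1.2)) a2
    (D := fun p => {y' | ∀ᶠ ω in 𝓝[>] (0 : ℝ), spt (uRe p.1.1 p.1.2) (pt y' ω) ∈
      DW (E.Phi p) (tupOf fun i => (z₀ p i : ℂ))}) (fun p y hy => hy)
  have a4 := EasyR.lim (σ := fun p : NL => VE p.1.1 p.1.2) a3
    (D := DE E) (fun p y hy => ?_)
  · refine a4.imp fun p y _ b hb => ?_
    filter_upwards [hb] with κ hκ
    filter_upwards [hκ] with ω hω
    rw [spt_uRe] at hω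
    exact hω
  · obtain ⟨h1, h2, -, -, -⟩ := hy
    have hq₀ : eval (cfs (tupOf fun i => (z₀ p i : ℂ))) (E.Phi p) ≠ 0 := by
      rw [cfs_tupOf]; exact hz₀ p
    have h3 := Lab.event_paths hq₀ h1 h2 (tY y 1) (c := 0) (by rw [shT_zero']; exact h1)
    filter_upwards [h3] with κ hκ
    show ∀ᶠ ω in 𝓝[>] (0 : ℝ), spt (uRe p.1.1 p.1.2) (pt (pt y κ) ω) ∈
      DW (E.Phi p) (tupOf fun i => (z₀ p i : ℂ))
    filter_upwards [hκ.2.2] with ω hω
    rw [spt_uRe, mem_DW_mkW]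
    exact hω

/-- The number of real roots in the real case. -/
theorem easy_realCnt :
    EasyR LL (σ := fun p => VE p.1.1 p.1.2) (β := fun _ => ℕ) (DE E)
      (fun p y b => ∀ᶠ κ in 𝓝[>] (0 : ℝ),
        {z ∈ (E.RS p).Rt (tC (addT (yq y) (tY y 1 + κ))) |
          z.im = 0 ∧ z.re < vY y (Fin.last _)}.ncard = b) := by
  have a1 := (easy_cnt E).subst easyP_uCn
    (D₁ := fun p => {Y | eval (cfs (tC (yq (spt (uCn p.1.1 p.1.2) Y)))) (E.Phi p) ≠ 0})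
    (fun p Y hY => hY)
  have a2 := EasyR.of_easy (R := fun p Y b =>
    {z ∈ (E.RS p).Rt (tC (yq (spt (uCn p.1.1 p.1.2) Y))) |
      z.im = 0 ∧ z.re < spt (uCn p.1.1 p.1.2) Y (Sum.inr ())}.ncard = b) a1 (fun p Y _ => rfl)
  have a3 := EasyR.lim (σ := fun p : NL => VE p.1.1 p.1.2) a2
    (D := DE E) (fun p y hy => ?_)
  · refine a3.imp fun p y _ b hb => ?_
    filter_upwards [hb] with κ hκ
    rw [yq_spt_uCn, spt_uCn_inr] at hκ
    exact hκ
  · obtain ⟨h1, h2, -, -, -⟩ := hy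
    have h3 := Lab.event_paths h1 h1 h2 (tY y 1) (c := 0) (by rw [shT_zero']; exact h1)
    filter_upwards [h3] with κ hκ
    show eval (cfs (tC (yq (spt (uCn p.1.1 p.1.2) (pt y κ))))) (E.Phi p) ≠ 0
    rw [yq_spt_uCn]
    exact hκ.1

include hz₀ in
/-- The words in the other case, with variables `g`. -/
theorem easy_frame :
    EasyR LL (σ := fun p => VG p.1.1 p.1.2) (β := fun _ => Wrd × Wrd × Wrd)
      (fun p => {y | (fun i => y (Sum.inl i)) ∈ DE E p})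
      (fun p y b => ∀ᶠ κ' in 𝓝[>] (0 : ℝ), ∀ᶠ κ in 𝓝[>] (0 : ℝ), ∀ᶠ ω in 𝓝[>] (0 : ℝ),
        FW (E.RS p) (tupOf fun i => (z₀ p i : ℂ))
          (mkW (yq fun i => y (Sum.inl i)) (tY (fun i => y (Sum.inl i)) 0)
            (tY (fun i => y (Sum.inl i)) 1) κ ω (cFr (fun j => y (Sum.inr j)) κ')) = b) := by
  have a1 := (easy_FW E z₀).subst easyP_uGe
    (D₁ := fun p => {Y | spt (uGe p.1.1 p.1.2) Y ∈ DW (E.Phi p) (tupOf fun i => (z₀ p i : ℂ))})
    (fun p Y hY => hY)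
  have a2 := EasyR.of_easy (R := fun p Y b => FW (E.RS p) (tupOf fun i => (z₀ p i : ℂ))
    (spt (uGe p.1.1 p.1.2) Y) = b) a1 (fun p Y _ => rfl)
  have a3 := EasyR.lim (σ := fun p : NL => Option (Option (Option (VG p.1.1 p.1.2)))) a2
    (D := fun p => {y' | ∀ᶠ ω in 𝓝[>] (0 : ℝ), spt (uGe p.1.1 p.1.2) (pt y' ω) ∈
      DW (E.Phi p) (tupOf fun i => (z₀ p i : ℂ))}) (fun p y hy => hy)
  have a4 := EasyR.lim (σ := fun p : NL => Option (Option (VG p.1.1 p.1.2))) a3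
    (D := fun p => {y' | ∀ᶠ κ in 𝓝[>] (0 : ℝ), ∀ᶠ ω in 𝓝[>] (0 : ℝ),
      spt (uGe p.1.1 p.1.2) (pt (pt y' κ) ω) ∈
      DW (E.Phi p) (tupOf fun i => (z₀ p i : ℂ))}) (fun p y hy => hy)
  have a5 := EasyR.inv (σ := fun p : NL => Option (VG p.1.1 p.1.2)) a4
    (g := fun p => gE p.1.1 p.1.2) ((EasyP.var _).add (EasyP.var _))
    (D := fun p => {y' | ev y' (gE p.1.1 p.1.2) ≠ 0 ∧ ∀ᶠ κ in 𝓝[>] (0 : ℝ),
      ∀ᶠ ω in 𝓝[>] (0 : ℝ),
      spt (uGe p.1.1 p.1.2) (pt (pt (pt y' (ev y' (gE p.1.1 p.1.2))⁻¹) κ) ω) ∈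
      DW (E.Phi p) (tupOf fun i => (z₀ p i : ℂ))}) (fun p y hy => hy)
  have a6 := EasyR.lim (σ := fun p : NL => VG p.1.1 p.1.2) a5
    (D := fun p => {y | (fun i => y (Sum.inl i)) ∈ DE E p}) (fun p y hy => ?_)
  · refine a6.imp fun p y _ b hb => ?_
    filter_upwards [hb] with κ' hκ'
    filter_upwards [hκ'] with κ hκ
    filter_upwards [hκ] with ω hω
    rw [ev_gE, spt_uGe] at hω
    exact hω
  · obtain ⟨h1, h2, -, -, -⟩ := hy
    have hq₀ : eval (cfs (tupOf fun i => (z₀ p i : ℂ))) (E.Phi p) ≠ 0 := by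
      rw [cfs_tupOf]; exact hz₀ p
    have h4 := frame_Phi h1 (fun j => y (Sum.inr j))
    have h5 : ∀ᶠ κ' in 𝓝[>] (0 : ℝ), κ' ∉ ({-y (Sum.inr (Fin.last p.1.1))} : Set ℝ) :=
      eventually_notMem_of_finite (Set.finite_singleton _)
    filter_upwards [h4, h5] with κ' k1 k2
    have k3 : y (Sum.inr (Fin.last p.1.1)) + κ' ≠ 0 := fun h => k2 (by
      rw [Set.mem_singleton_iff]; linarith)
    refine ⟨by rw [ev_gE]; exact k3, ?_⟩
    have h3 := Lab.event_paths hq₀ h1 h2 (tY (fun i => y (Sum.inl i)) 1) (k1 k3)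
    filter_upwards [h3] with κ hκ
    filter_upwards [hκ.2.2] with ω hω
    rw [ev_gE, spt_uGe, mem_DW_mkW]
    exact hω

/-- Substitution of `g = H a`. -/
noncomputable def uH (n l : ℕ) : VG n l → MvPolynomial (VG n l) ℤ :=
  Sum.elim (fun i => X (Sum.inl i))
    (fun j => ∑ k, rename Sum.inl (HE n l j k) * X (Sum.inr k))

lemma ev_rename_inl {τ τ' : Type*} (y : τ ⊕ τ' → ℝ) (g : MvPolynomial τ ℤ) :
    ev y (rename Sum.inl g) = ev (fun i => y (Sum.inl i)) g := by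
  induction g using MvPolynomial.induction_on with
  | C a => simp
  | add p q hp hq => simp [hp, hq]
  | mul_X p i hp => simp [hp]

lemma spt_uH {n l : ℕ} (y : VG n l → ℝ) :
    spt (uH n l) y = Sum.elim (fun i => y (Sum.inl i))
      (HY (fun i => y (Sum.inl i)) *ᵥ fun k => y (Sum.inr k)) := by
  funext j
  rcases j with i | j
  · simp [spt, uH]
  · show ev y (∑ k, rename Sum.inl (HE n l j k) * X (Sum.inr k)) = _
    rw [Sum.elim_inr, ev_sum, ← HE_map]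
    simp only [ev_mul, ev_rename_inl, ev_X]
    rfl

theorem easyP_uH : EasyP LL (fun p : NL => Set.range (uH p.1.1 p.1.2)) := by
  have h0 : EasyP LL (σ := fun p : NL => VE p.1.1 p.1.2)
      (fun p => Set.range fun ij : Fin (p.1.1 + 1) × Fin (p.1.1 + 1) =>
        HE p.1.1 p.1.2 ij.1 ij.2) :=
    easyP_HE.mono fun p => by rintro _ ⟨ij, rfl⟩; exact ⟨_, _, rfl⟩
  have h1 : EasyP LL (σ := fun p : NL => VG p.1.1 p.1.2)
      (fun p => Set.range fun ij : Fin (p.1.1 + 1) × Fin (p.1.1 + 1) =>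
        (rename Sum.inl (HE p.1.1 p.1.2 ij.1 ij.2) : MvPolynomial (VG p.1.1 p.1.2) ℤ)) := by
    refine (h0.rename (τ := fun p : NL => VG p.1.1 p.1.2) fun _ => Sum.inl).mono fun p => ?_
    rintro _ ⟨ij, rfl⟩
    exact ⟨_, ⟨ij, rfl⟩, rfl⟩
  have h2 : EasyP LL (σ := fun p : NL => VG p.1.1 p.1.2)
      (fun p => Set.range fun j : Fin (p.1.1 + 1) =>
        ∑ k, (rename Sum.inl (HE p.1.1 p.1.2 j k) * X (Sum.inr k) :
          MvPolynomial (VG p.1.1 p.1.2) ℤ)) := by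
    refine EasyP.range (bd_fin_n id) ?_
    refine EasyP.sum (L := fun q : (Σ p : NL, Fin (p.1.1 + 1)) => LL q.1)
      (σ := fun q => VG q.1.1.1 q.1.1.2) (κ := fun q => Fin (q.1.1.1 + 1)) (bd_fin_n _)
      (EasyP.range (bd_fin_n _) (EasyP.mul ?_ (EasyP.var _)))
    exact h1.at (fun a : (Σ q : (Σ p : NL, Fin (p.1.1 + 1)), Fin (q.1.1.1 + 1)) => a.1.1)
      fun a => (a.1.2, a.2)
  refine (h2.union EasyP.vars).mono fun p => ?_
  rintro _ ⟨i | j, rfl⟩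
  · exact Or.inr ⟨_, rfl⟩
  · exact Or.inl ⟨j, rfl⟩

include hz₀ in
/-- The words in the other case, with variables `a`. -/
theorem easy_frame' :
    EasyR LL (σ := fun p => VG p.1.1 p.1.2) (β := fun _ => Wrd × Wrd × Wrd)
      (fun p => {y | (fun i => y (Sum.inl i)) ∈ DE E p})
      (fun p y b => ∀ᶠ κ' in 𝓝[>] (0 : ℝ), ∀ᶠ κ in 𝓝[>] (0 : ℝ), ∀ᶠ ω in 𝓝[>] (0 : ℝ),
        FW (E.RS p) (tupOf fun i => (z₀ p i : ℂ))
          (mkW (yq fun i => y (Sum.inl i)) (tY (fun i => y (Sum.inl i)) 0)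
            (tY (fun i => y (Sum.inl i)) 1) κ ω
            (cFr (HY (fun i => y (Sum.inl i)) *ᵥ fun k => y (Sum.inr k)) κ')) = b) := by
  have h1 := (easy_frame E z₀ hz₀).subst easyP_uH
    (D₁ := fun p => {y | (fun i => y (Sum.inl i)) ∈ DE E p}) (fun p y hy => by
      rw [spt_uH]; exact hy)
  refine h1.imp fun p y _ b hb => ?_
  rw [spt_uH] at hb
  exact hb

end Pool.Agent.QC
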