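import Pool.Agent.QC.Rec.PerEvent2

/-!
# The certificate of an event is computed, end
-/

namespace Pool.Agent.QC

open MvPolynomial Matrix Filter Topology

theorem det_Hm_ne_zero {n l : ℕ} {q : RTup n l} {v : Fin (n + 1) → ℝ} (hf : fF q v = 0)
    (hdet : (hess (f0 (tC q)) (xC v)).det ≠ 0) : (Hm q v).det ≠ 0 := by
  have hPi : fPi q v ≠ 0 := fPi_ne_zero hf
  have hs : 0 < fPi q v ^ 2 := by positivity
  have hdetR : (HR q v).det ≠ 0 := by
    intro h0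
    apply hdet
    have e1 : hess (f0 (tC q)) (xC v) =
        ((fPi q v : ℝ) : ℂ) • (HR q v).map (Complex.ofRealHom) := by
      ext i j
      rw [hess_f0, ofReal_fH, Matrix.smul_apply, map_apply, HR_eq_fH, smul_eq_mul]
      have : ((fPi q v : ℝ) : ℂ) ≠ 0 := by exact_mod_cast hPi
      simp only [Complex.ofRealHom_eq_coe]
      push_cast
      field_simp
    have e2 : ((HR q v).map Complex.ofRealHom).det = 0 := by
      have := RingHom.map_det Complex.ofRealHom (HR q v)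
      rw [h0, map_zero] at this
      exact this.symm
    rw [e1, det_smul, e2, mul_zero]
  rw [Hm_eq hf, det_smul]
  exact mul_ne_zero (pow_ne_zero _ hs.ne') hdetR

variable (E : ElimData) (z₀ : ∀ p : NL, Ix p.1.1 p.1.2 → ℤ)
    (hz₀ : ∀ p, eval (fun i => (z₀ p i : ℂ)) (E.Phi p) ≠ 0)

lemma det_HY {p : NL} {y : VE p.1.1 p.1.2 → ℝ} (hy : y ∈ DE E p) : (HY y).det ≠ 0 := by
  obtain ⟨h1, -, -, -, h5⟩ := hy
  refine det_Hm_ne_zero ((mem_SingF_xC _ _).1 h5).1 ?_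
  have h4 := (E.good p _ h1).2.2.2 (tY y 1 : ℂ)
  rw [← Lab.tC_addT] at h4
  exact (h4 _ h5).1

include hz₀ in
/-- The words in the other case. -/
theorem easy_vec :
    EasyR LL (σ := fun p => VE p.1.1 p.1.2) (β := fun _ => Wrd × Wrd × Wrd)
      (fun p => DE E p ∩ {y | ¬ NegDef (HY y)})
      (fun p y b => ∃ a : Fin (p.1.1 + 1) → ℝ, 0 < a ⬝ᵥ HY y *ᵥ a ∧
        ∀ᶠ κ' in 𝓝[>] (0 : ℝ), ∀ᶠ κ in 𝓝[>] (0 : ℝ), ∀ᶠ ω in 𝓝[>] (0 : ℝ),
        FW (E.RS p) (tupOf fun i => (z₀ p i : ℂ))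
          (mkW (yq y) (tY y 0) (tY y 1) κ ω (cFr (HY y *ᵥ a) κ')) = b) := by
  obtain ⟨A, hA, hA1, hdec⟩ := (easy_frame' E z₀ hz₀).dec
  obtain ⟨m, hm, hm1, hc, hd⟩ := (easyP_HE).bd
  set B : NL → ℕ := fun p => (p.1.1 + 1) * m p + 1 with hB
  have hBB : Bd LL B := (bd_n1.mul hm).add (Bd.const 1)
  have hn2 : Bd LL (fun p : NL => p.1.1 + 1 + 1) := bd_n1.add (Bd.const 1)
  refine EasyR.of_bd (M := fun p => 2 * (p.1.1 + 1) * m p + A p * B p + m p)
    (c := fun p => m p + (10 * (p.1.1 + 1 + 1) ^ 7 + A p))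
    (((((Bd.const 2).mul bd_n1).mul hm).add (hA.mul hBB)).add hm)
    (hm.add (((Bd.const 10).mul (hn2.pow 7)).add hA)) fun p => ?_
  have key : DecRel (2 * (p.1.1 + 1) * m p + A p * B p + m p) (10 * (p.1.1 + 1 + 1) ^ 7 + A p)
      (Set.range X ∪ {h | ∃ i j, h = HE p.1.1 p.1.2 i j}) (DE E p ∩ {y | ¬ NegDef (HY y)})
      (fun y (b : Wrd × Wrd × Wrd) => ∃ a : Fin (p.1.1 + 1) → ℝ, 0 < a ⬝ᵥ HY y *ᵥ a ∧
        ∀ᶠ κ' in 𝓝[>] (0 : ℝ), ∀ᶠ κ in 𝓝[>] (0 : ℝ), ∀ᶠ ω in 𝓝[>] (0 : ℝ),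
        FW (E.RS p) (tupOf fun i => (z₀ p i : ℂ))
          (mkW (yq y) (tY y 0) (tY y 1) κ ω (cFr (HY y *ᵥ a) κ')) = b) := by
    have hrun := run_vec' (H := HE p.1.1 p.1.2) (m := m p) HE_symm
      (fun i j => hd p _ ⟨i, j, rfl⟩)
      (K := Set.range X ∪ {h | ∃ i j, h = HE p.1.1 p.1.2 i j})
      (D := DE E p ∩ {y | ¬ NegDef (HY y)}) (fun i j => Or.inr ⟨i, j, rfl⟩)
      (fun y hy => by rw [HE_map]; exact det_HY E hy.1)
    refine DecRel.of_run (hrun.mono_M ?_) fun K₀ D₀ h0 K₁ D₁ h1 h2 h3 h4 => ?_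
    · rw [add_assoc]; exact Nat.le_add_right _ _
    rcases h0 with h0 | ⟨a, ha1, ha2, ha3⟩
    · -- the matrix is negative definite: impossible
      have hemp : D₁ = ∅ := by
        by_contra hne
        obtain ⟨y, hy⟩ := Set.nonempty_iff_ne_empty.2 hne
        refine (h3 hy).2 fun x hx => ?_
        have := h0 y (h4 hy) x (fun i hi => absurd (Finset.mem_univ i) hi) hx
        rw [HE_map] at this
        exact this
      subst hemp
      exact DecRel.of_dec (F := fun _ => (word fun _ => ∅, word fun _ => ∅, word fun _ => ∅))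
        ((Dec.leaf (by simp)).mono (Nat.zero_le _ |>.trans le_rfl) (Nat.zero_le _) subset_rfl
          subset_rfl) (by simp)
    · have hf : ∀ i : VG p.1.1 p.1.2, ((Sum.elim X a : VG p.1.1 p.1.2 →
          MvPolynomial (VE p.1.1 p.1.2) ℤ) i).totalDegree ≤ B p := by
        rintro (i | i)
        · rw [Sum.elim_inl, totalDegree_X]; exact Nat.le_add_left _ _
        · rw [Sum.elim_inr]; exact (ha2 i).trans (Nat.le_succ _)
      have hspt : ∀ y : VE p.1.1 p.1.2 → ℝ, spt (Sum.elim X a : VG p.1.1 p.1.2 →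
          MvPolynomial (VE p.1.1 p.1.2) ℤ) y = Sum.elim y fun k => ev y (a k) := by
        intro y
        funext i
        rcases i with i | i
        · simp [spt]
        · rfl
      have h5 := (hdec p).subst hf (K' := K₁) (D' := D₁) (by
        rintro _ ⟨i, rfl⟩
        rw [bind₁_X_right]
        rcases i with i | i
        · exact h1 (Or.inl ⟨i, rfl⟩)
        · exact h2 (ha1 i)) (fun y hy => by
          rw [hspt]; exact (h3 hy).1)
      refine (h5.imp fun y hy b hb => ?_).mono ?_ le_rfl subset_rfl subset_rfl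
      · rw [hspt] at hb
        refine ⟨fun k => ev y (a k), ?_, hb⟩
        have := ha3 y (h4 hy)
        rw [HE_map] at this
        exact this
      · calc A p * B p ≤ 2 * (p.1.1 + 1) * m p + A p * B p := Nat.le_add_left _ _
          _ ≤ _ := Nat.le_add_right _ _
  obtain ⟨F, hF, hR⟩ := key
  exact ⟨F, ((hc p).mono_M (Nat.le_add_left _ _)).dec hF, hR⟩

lemma onePos_not_negDef {m : ℕ} {H : Matrix (Fin m) (Fin m) ℝ} (h : OnePos H) : ¬ NegDef H := by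
  obtain ⟨a, ha, -⟩ := h
  intro hN
  have ha0 : a ≠ 0 := by
    rintro rfl
    simp at ha
  exact absurd ha (hN a ha0).le.not_gt

include hz₀ in
/-- (C3) The certificate of an event is computed. `z₀`: the integral base point. -/
theorem perEvent :
    EasyR LL (σ := fun p => VE p.1.1 p.1.2) (β := fun _ => EvRec) (DE E)
      (fun p y R => EvCert (E.RS p) (tupOf fun i => (z₀ p i : ℂ)) (yq y)
        (y (Sum.inr (Sum.inl 0))) (y (Sum.inr (Sum.inl 1)))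
        (fun i => y (Sum.inr (Sum.inr i))) R) := by
  classical
  -- the words and the number of roots
  have hR1 : EasyR LL (σ := fun p => VE p.1.1 p.1.2)
      (β := fun _ => (Bool × (Wrd × Wrd × Wrd)) × ℕ) (fun p => DE E p ∩ {y | NegDef (HY y)})
      (fun p y b => (b.1.1 = true ∧ NegDef (HY y) ∧
        ∀ᶠ κ in 𝓝[>] (0 : ℝ), ∀ᶠ ω in 𝓝[>] (0 : ℝ), FW (E.RS p) (tupOf fun i => (z₀ p i : ℂ))
          (mkW (yq y) (tY y 0) (tY y 1) κ ω 0) = b.1.2 ∧
          {z ∈ (E.RS p).Rt (tC (addT (yq y) (tY y 1 + κ))) |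
          z.im = 0 ∧ z.re < vY y (Fin.last _)}.ncard = b.2) ∨
        (b.1.1 = false ∧ ∃ a : Fin (p.1.1 + 1) → ℝ, 0 < a ⬝ᵥ HY y *ᵥ a ∧
        ∀ᶠ κ' in 𝓝[>] (0 : ℝ), ∀ᶠ κ in 𝓝[>] (0 : ℝ), ∀ᶠ ω in 𝓝[>] (0 : ℝ),
        FW (E.RS p) (tupOf fun i => (z₀ p i : ℂ))
          (mkW (yq y) (tY y 0) (tY y 1) κ ω (cFr (HY y *ᵥ a) κ')) = b.1.2)) := by
    have h1 := ((easy_realWords E z₀ hz₀).pair (easy_realCnt E)).mono_D
      (D' := fun p => DE E p ∩ {y | NegDef (HY y)}) fun p => Set.inter_subset_left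
    refine h1.map (fun p b => ((true, b.1), b.2)) fun p y hy b hb => Or.inl ⟨rfl, hy.2, ?_⟩
    filter_upwards [hb.1, hb.2] with κ h2 h3
    filter_upwards [h2] with ω h4
    exact ⟨h4, h3⟩
  have hR2 : EasyR LL (σ := fun p => VE p.1.1 p.1.2)
      (β := fun _ => (Bool × (Wrd × Wrd × Wrd)) × ℕ) (fun p => DE E p ∩ {y | ¬ NegDef (HY y)})
      (fun p y b => (b.1.1 = true ∧ NegDef (HY y) ∧
        ∀ᶠ κ in 𝓝[>] (0 : ℝ), ∀ᶠ ω in 𝓝[>] (0 : ℝ), FW (E.RS p) (tupOf fun i => (z₀ p i : ℂ))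
          (mkW (yq y) (tY y 0) (tY y 1) κ ω 0) = b.1.2 ∧
          {z ∈ (E.RS p).Rt (tC (addT (yq y) (tY y 1 + κ))) |
          z.im = 0 ∧ z.re < vY y (Fin.last _)}.ncard = b.2) ∨
        (b.1.1 = false ∧ ∃ a : Fin (p.1.1 + 1) → ℝ, 0 < a ⬝ᵥ HY y *ᵥ a ∧
        ∀ᶠ κ' in 𝓝[>] (0 : ℝ), ∀ᶠ κ in 𝓝[>] (0 : ℝ), ∀ᶠ ω in 𝓝[>] (0 : ℝ),
        FW (E.RS p) (tupOf fun i => (z₀ p i : ℂ))
          (mkW (yq y) (tY y 0) (tY y 1) κ ω (cFr (HY y *ᵥ a) κ')) = b.1.2)) :=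
    (easy_vec E z₀ hz₀).map (fun p b => ((false, b), 0)) fun p y hy b hb => Or.inr ⟨rfl, hb⟩
  have hR := EasyR.cases ((easy_class (D := DE E)).comp fun p b => b.1) hR1 hR2
  have hcl := (easy_class (D := DE E)).pair (easy_inOm (D := DE E))
  have hcl' := EasyR.of_easy (R := fun p y b => b = ((NegDef (HY y), OnePos (HY y)),
    inOm (yq y) (vY y))) hcl (fun p y _ => rfl)
  refine (hR.pair hcl').map (fun p b => {
    cls := if b.2.2 ∧ b.2.1.1 then 0 else if b.2.2 ∧ b.2.1.2 then 1 else 2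
    real := b.1.1.1
    wA := b.1.1.2.1
    wB := b.1.1.2.2.1
    wC := b.1.1.2.2.2
    cnt := b.1.2 }) fun p y hy b hb => ?_
  obtain ⟨hb1, hb2⟩ := hb
  obtain ⟨⟨⟨r, wA, wB, wC⟩, k⟩, ⟨N, O⟩, I⟩ := b
  simp only [Prod.mk.injEq] at hb2
  obtain ⟨⟨rfl, rfl⟩, rfl⟩ := hb2
  refine ⟨?_, ?_, ?_⟩
  · show ((if inOm (yq y) (vY y) ∧ NegDef (HY y) then (0 : Fin 3) else
      if inOm (yq y) (vY y) ∧ OnePos (HY y) then 1 else 2) = 0) ↔
      (inOm (yq y) (vY y) ∧ NegDef (HY y))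
    split_ifs with h1 h2
    · exact iff_of_true rfl h1
    · exact iff_of_false (by decide) h1
    · exact iff_of_false (by decide) h1
  · show ((if inOm (yq y) (vY y) ∧ NegDef (HY y) then (0 : Fin 3) else
      if inOm (yq y) (vY y) ∧ OnePos (HY y) then 1 else 2) = 1) ↔
      (inOm (yq y) (vY y) ∧ OnePos (HY y))
    split_ifs with h1 h2
    · exact iff_of_false (by decide) fun h => onePos_not_negDef h.2 h1.2
    · exact iff_of_true rfl h2
    · exact iff_of_false (by decide) h2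
  · rcases hb1 with ⟨h1, h2, h3⟩ | ⟨h1, a, h2, h3⟩
    · refine Or.inl ⟨h1, h2, ?_⟩
      filter_upwards [h3] with κ h4
      filter_upwards [h4] with ω h5
      exact ⟨(FW_mkW (E.RS p)).1 h5.1, h5.2⟩
    · refine Or.inr ⟨h1, a, h2, ?_⟩
      filter_upwards [h3] with κ' h3
      filter_upwards [h3] with κ h4
      filter_upwards [h4] with ω h5
      exact (FW_mkW (E.RS p)).1 h5

end Pool.Agent.QC
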