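import Pool.Agent.QC.Rec.Data

/-!
# Two facts for the list of events

Order isomorphic families have the same sorted list of values; singular points of the levels of a
real tuple are real.
-/

namespace Pool.Agent.QC

open MvPolynomial Matrix Filter Topology

/-- Sorted strictly monotone images. -/
theorem sort_image_eq {V : Finset ℝ} {φ : ℝ → ℝ} (h : ∀ x ∈ V, ∀ y ∈ V, x < y → φ x < φ y) :
    (V.image φ).sort (· ≤ ·) = (V.sort (· ≤ ·)).map φ := by
  have hinj : Set.InjOn φ V := by
    intro x hx y hy hxy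
    rcases lt_trichotomy x y with h1 | h1 | h1
    · exact absurd hxy (h x hx y hy h1).ne
    · exact h1
    · exact absurd hxy (h y hy x hx h1).ne'
  have h1 : (V.sort (· ≤ ·)).Pairwise (· < ·) := Finset.sortedLT_sort V |>.pairwise
  have h2 : ((V.sort (· ≤ ·)).map φ).Pairwise (· ≤ ·) := by
    rw [List.pairwise_map]
    refine h1.imp_of_mem fun {x y} hx hy hxy => ?_
    exact (h x ((Finset.mem_sort _).1 hx) y ((Finset.mem_sort _).1 hy) hxy).le
  have h3 : ((V.image φ).sort (· ≤ ·)).Pairwise (· ≤ ·) :=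
    (Finset.sortedLT_sort _).pairwise.imp fun h => h.le
  refine List.Perm.eq_of_pairwise' h3 h2 ?_
  refine (List.perm_ext_iff_of_nodup (Finset.sort_nodup _ _) ?_).2 ?_
  · exact List.Nodup.map_on (fun x hx y hy hxy => hinj ((Finset.mem_sort _).1 hx)
      ((Finset.mem_sort _).1 hy) hxy) (Finset.sort_nodup _ _)
  · intro x
    simp

/-- Order isomorphic families have the same sorted list of values. -/
theorem sort_map_eq {α β : Type*} (V : Finset α) (t t' : α → ℝ) (G G' : ℝ → β)
    (hlt : ∀ a ∈ V, ∀ b ∈ V, (t a < t b ↔ t' a < t' b)) (hG : ∀ a ∈ V, G (t a) = G' (t' a)) :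
    ((V.image t).sort (· ≤ ·)).map G = ((V.image t').sort (· ≤ ·)).map G' := by
  classical
  set φ : ℝ → ℝ := fun x => if h : ∃ a ∈ V, t a = x then t' h.choose else x with hφ
  have h1 : ∀ a ∈ V, φ (t a) = t' a := by
    intro a ha
    have hex : ∃ b ∈ V, t b = t a := ⟨a, ha, rfl⟩
    have h2 : φ (t a) = t' hex.choose := dif_pos hex
    rw [h2]
    have h3 := hex.choose_spec
    rcases lt_trichotomy (t' hex.choose) (t' a) with h4 | h4 | h4
    · exact absurd ((hlt _ h3.1 _ ha).2 h4) (by rw [h3.2]; exact lt_irrefl _)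
    · exact h4
    · exact absurd ((hlt _ ha _ h3.1).2 h4) (by rw [h3.2]; exact lt_irrefl _)
  have h2 : V.image t' = (V.image t).image φ := by
    rw [Finset.image_image]
    exact Finset.image_congr fun a ha => (h1 a ha).symm
  rw [h2, sort_image_eq, List.map_map]
  · refine List.map_congr_left fun x hx => ?_
    rw [Finset.mem_sort, Finset.mem_image] at hx
    obtain ⟨a, ha, rfl⟩ := hx
    rw [Function.comp_apply, h1 a ha, hG a ha]
  · intro x hx y hy hxy
    rw [Finset.mem_image] at hx hy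
    obtain ⟨a, ha, rfl⟩ := hx
    obtain ⟨b, hb, rfl⟩ := hy
    rw [h1 a ha, h1 b hb]
    exact (hlt a ha b hb).1 hxy

/-! ### Real singular points -/

section Real

variable {n l : ℕ}

lemma qmap_conj_tC (q : RTup n l) (m : Fin (l + 1)) :
    qmap (starRingEnd ℂ) (tC q m) = tC q m := by
  simp [qmap, tC]

lemma conj_mem_SingF {q : RTup n l} {v : Fin (n + 1) → ℂ} (hv : v ∈ SingF (f0 (tC q))) :
    (fun i => (starRingEnd ℂ) (v i)) ∈ SingF (f0 (tC q)) := by
  unfold SingF at hv ⊢
  simp only [Set.mem_ofPred_eq, eval_f0_fF, eval_pderiv_f0] at hv ⊢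
  have e1 : (fun m => qmap (starRingEnd ℂ) (tC q m)) = tC q :=
    funext fun m => qmap_conj_tC q m
  have h1 := map_fF (starRingEnd ℂ) (tC q) v
  have h2 := fun i => map_fG (starRingEnd ℂ) (tC q) v i
  rw [e1] at h1
  simp only [e1] at h2
  refine ⟨by rw [← h1, hv.1, map_zero], fun i => ?_⟩
  rw [← h2, hv.2, map_zero]

lemma xC_re {v : Fin (n + 1) → ℂ} (h : (fun i => (starRingEnd ℂ) (v i)) = v) :
    xC (fun i => (v i).re) = v := by
  funext i
  have := congrFun h i
  exact Complex.conj_eq_iff_re.1 this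

/-- Singular points of the levels of a good real tuple are real. -/
theorem exists_real_sing {Phi : MvPolynomial (Ix n l) ℂ} (hPhi : GoodPhi Phi) {q : RTup n l}
    (hq : eval (cfs (tC q)) Phi ≠ 0) {t : ℝ} {v : Fin (n + 1) → ℂ}
    (hv : v ∈ SingF (f0 (tC (addT q t)))) : ∃ w : Fin (n + 1) → ℝ, xC w = v := by
  have h4 := (hPhi _ hq).2.2.2 (t : ℂ)
  rw [← Lab.tC_addT] at h4
  exact ⟨_, xC_re ((h4 _ hv).2.2.1 _ (conj_mem_SingF hv))⟩

/-- The singular point is unique. -/
theorem sing_unique {Phi : MvPolynomial (Ix n l) ℂ} (hPhi : GoodPhi Phi) {q : RTup n l}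
    (hq : eval (cfs (tC q)) Phi ≠ 0) {t : ℝ} {v w : Fin (n + 1) → ℝ}
    (hv : xC v ∈ SingF (f0 (tC (addT q t)))) (hw : xC w ∈ SingF (f0 (tC (addT q t)))) :
    v = w := by
  have h4 := (hPhi _ hq).2.2.2 (t : ℂ)
  rw [← Lab.tC_addT] at h4
  have h5 := (h4 _ hw).2.2.1 _ hv
  funext i
  have := congrFun h5 i
  exact Complex.ofReal_injective this

end Real

end Pool.Agent.QC
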