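import Pool.Agent.QC.Rec.PathWord

/-!
# The polynomials substituted in the paths are easy
-/

namespace Pool.Agent.QC

open MvPolynomial Filter Topology Set

section General

variable {ι : Type*} {L : ι → ℕ} {σ : ι → Type*}

/-- Finite unions. -/
theorem EasyP.iUnionC {α : Type*} [Finite α] {P : α → ∀ i, Set (MvPolynomial (σ i) ℤ)}
    (h : ∀ a, EasyP L (P a)) : EasyP L (fun i => ⋃ a, P a i) := by
  classical
  cases nonempty_fintype α
  have key : ∀ s : Finset α, EasyP L (fun i => ⋃ a ∈ s, P a i) := by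
    intro s
    induction s using Finset.induction_on with
    | empty => exact (EasyP.const (L := L) (σ := σ) fun _ => 0).mono fun i => by simp
    | @insert a s ha ih =>
      refine ((h a).union ih).mono fun i => ?_
      intro x hx
      simp only [mem_iUnion, Finset.mem_insert, exists_prop] at hx
      obtain ⟨b, rfl | hb, hx⟩ := hx
      · exact Or.inl hx
      · exact Or.inr (by simp only [mem_iUnion, exists_prop]; exact ⟨b, hb, hx⟩)
  refine (key Finset.univ).mono fun i => ?_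
  intro x hx
  simpa using hx

end General

variable {σ : NL → Type*}

/-- The coefficients of the polynomial paths. -/
theorem easyP_yP {z₁ ω : ∀ p, MvPolynomial (σ p) ℤ}
    {B₀ B₁ B₂ : ∀ p : NL, Ix p.1.1 p.1.2 → MvPolynomial (σ p) ℤ}
    (hz : EasyP LL (fun p => {z₁ p})) (hω : EasyP LL (fun p => {ω p}))
    (h0 : EasyP LL (fun p => Set.range (B₀ p))) (h1 : EasyP LL (fun p => Set.range (B₁ p)))
    (h2 : EasyP LL (fun p => Set.range (B₂ p))) :
    EasyP LL (fun p => Set.range (yP (z₁ p) (ω p) (B₀ p) (B₁ p) (B₂ p))) := by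
  have z' := hz.comap (Sigma.fst : (Σ p : NL, Ix p.1.1 p.1.2) → NL)
  have ω' := hω.comap (Sigma.fst : (Σ p : NL, Ix p.1.1 p.1.2) → NL)
  have b0 := h0.of_range
  have b1 := h1.of_range
  have b2 := h2.of_range
  have c2 : EasyP (fun q : Σ p : NL, Ix p.1.1 p.1.2 => LL q.1) (σ := fun q => σ q.1)
      (fun q => {(2 : MvPolynomial (σ q.1) ℤ)}) := by
    have := EasyP.const (L := fun q : Σ p : NL, Ix p.1.1 p.1.2 => LL q.1) (σ := fun q => σ q.1)
      fun _ => 2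
    simpa using this
  have hz0 : EasyP LL (fun p : NL => Set.range fun _ : Ix p.1.1 p.1.2 =>
      (0 : MvPolynomial (σ p) ℤ)) := by
    refine (EasyP.const (L := LL) (σ := σ) fun _ => 0).mono fun p => ?_
    rintro _ ⟨_, rfl⟩
    simp
  have key : ∀ jb : Fin 5 × Bool, EasyP LL (fun p => Set.range fun i =>
      yP (z₁ p) (ω p) (B₀ p) (B₁ p) (B₂ p) (jb.1, jb.2, i)) := by
    rintro ⟨j, b⟩
    fin_cases j <;> cases b
    · exact h0
    · exact hz0
    · exact EasyP.range bd_card_Ix (z'.mul b1)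
    · exact EasyP.range bd_card_Ix (ω'.mul b1)
    · exact EasyP.range bd_card_Ix (((z'.mul z').sub (ω'.mul ω')).mul b2)
    · exact EasyP.range bd_card_Ix ((((c2.mul z').mul ω').mul b2).sub (ω'.mul b1))
    · exact EasyP.range bd_card_Ix (((c2.mul ω').mul ω').mul b2)
    · exact EasyP.range bd_card_Ix (((c2.mul ω').mul z').neg.mul b2)
    · exact EasyP.range bd_card_Ix ((ω'.mul ω').neg.mul b2)
    · exact hz0
  refine (EasyP.iUnionC key).mono fun p => ?_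
  rintro _ ⟨⟨j, b, i⟩, rfl⟩
  exact mem_iUnion.2 ⟨(j, b), i, rfl⟩

/-- Families indexed by `Ix`. -/
theorem easyP_Ix {f : ∀ p : NL, Ix p.1.1 p.1.2 → MvPolynomial (σ p) ℤ}
    (h1 : EasyP (fun q : Σ p : NL, (Fin (p.1.2 + 1) × (Fin (p.1.1 + 1) × Fin (p.1.1 + 1))) =>
      LL q.1) (σ := fun q => σ q.1) (fun q => {f q.1 (q.2.1, Sum.inl q.2.2)}))
    (h2 : EasyP (fun q : Σ p : NL, (Fin (p.1.2 + 1) × Fin (p.1.1 + 1)) => LL q.1)
      (σ := fun q => σ q.1) (fun q => {f q.1 (q.2.1, Sum.inr (Sum.inl q.2.2))}))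
    (h3 : EasyP (fun q : Σ p : NL, Fin (p.1.2 + 1) => LL q.1)
      (σ := fun q => σ q.1) (fun q => {f q.1 (q.2, Sum.inr (Sum.inr ()))})) :
    EasyP LL (fun p => Set.range (f p)) := by
  have hn : Bd LL (fun p : NL => p.1.1 + 1) := bd_n.add (Bd.const 1)
  have hl : Bd LL (fun p : NL => p.1.2 + 1) := bd_l.add (Bd.const 1)
  have e1 := EasyP.range (f := fun p (q : Fin (p.1.2 + 1) × (Fin (p.1.1 + 1) × Fin (p.1.1 + 1))) =>
    f p (q.1, Sum.inl q.2)) ((hl.mul (hn.mul hn)).mono fun p => by simp) h1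
  have e2 := EasyP.range (f := fun p (q : Fin (p.1.2 + 1) × Fin (p.1.1 + 1)) =>
    f p (q.1, Sum.inr (Sum.inl q.2))) ((hl.mul hn).mono fun p => by simp) h2
  have e3 := EasyP.range (f := fun p (q : Fin (p.1.2 + 1)) =>
    f p (q, Sum.inr (Sum.inr ()))) (hl.mono fun p => by simp) h3
  refine ((e1.union e2).union e3).mono fun p => ?_
  rintro _ ⟨⟨m, ij | i | u⟩, rfl⟩
  · exact Or.inl (Or.inl ⟨(m, ij), rfl⟩)
  · exact Or.inl (Or.inr ⟨(m, i), rfl⟩)
  · exact Or.inr ⟨m, rfl⟩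

theorem easyP_const_range {κ : NL → Type*} (f : ∀ p, κ p → MvPolynomial (σ p) ℤ) (c : ℤ)
    (h : ∀ p k, f p k = C c) : EasyP LL (fun p => Set.range (f p)) := by
  refine (EasyP.const (L := LL) (σ := σ) fun _ => c).mono fun p => ?_
  rintro _ ⟨k, rfl⟩
  exact h p k

theorem easyP_B1B : EasyP LL (fun p => Set.range
    (B1B : Ix p.1.1 p.1.2 → MvPolynomial (σ p) ℤ)) := by
  refine ((EasyP.const (L := LL) (σ := σ) fun _ => 0).insert_const fun _ => 1).mono fun p => ?_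
  rintro _ ⟨⟨m, ij | i | u⟩, rfl⟩
  · right; simp [B1B]
  · right; simp [B1B]
  · by_cases hm : m = 0
    · left; simp [B1B, hm]
    · right; simp [B1B, hm]

theorem easyP_B1C {d : ∀ p : NL, Fin (p.1.1 + 1) → MvPolynomial (σ p) ℤ}
    {x : ∀ p : NL, Ix p.1.1 p.1.2 → MvPolynomial (σ p) ℤ}
    (hd : EasyP LL (fun p => Set.range (d p))) (hx : EasyP LL (fun p => Set.range (x p))) :
    EasyP LL (fun p => Set.range (B1C (d p) (x p))) := by
  have d' := hd.of_range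
  have x' := hx.of_range
  refine easyP_Ix ?_ ?_ ?_
  · refine EasyP.neg (EasyP.add (EasyP.mul ?_ ?_) (EasyP.mul ?_ ?_))
    · exact d'.comap fun q : Σ p : NL, (Fin (p.1.2 + 1) × (Fin (p.1.1 + 1) × Fin (p.1.1 + 1))) =>
        (⟨q.1, q.2.2.1⟩ : Σ p : NL, Fin (p.1.1 + 1))
    · exact x'.comap fun q : Σ p : NL, (Fin (p.1.2 + 1) × (Fin (p.1.1 + 1) × Fin (p.1.1 + 1))) =>
        (⟨q.1, (q.2.1, Sum.inl (Fin.last _, q.2.2.2))⟩ : Σ p : NL, Ix p.1.1 p.1.2)
    · exact x'.comap fun q : Σ p : NL, (Fin (p.1.2 + 1) × (Fin (p.1.1 + 1) × Fin (p.1.1 + 1))) =>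
        (⟨q.1, (q.2.1, Sum.inl (q.2.2.1, Fin.last _))⟩ : Σ p : NL, Ix p.1.1 p.1.2)
    · exact d'.comap fun q : Σ p : NL, (Fin (p.1.2 + 1) × (Fin (p.1.1 + 1) × Fin (p.1.1 + 1))) =>
        (⟨q.1, q.2.2.2⟩ : Σ p : NL, Fin (p.1.1 + 1))
  · refine EasyP.neg (EasyP.mul ?_ ?_)
    · exact d'.comap fun q : Σ p : NL, (Fin (p.1.2 + 1) × Fin (p.1.1 + 1)) =>
        (⟨q.1, q.2.2⟩ : Σ p : NL, Fin (p.1.1 + 1))
    · exact x'.comap fun q : Σ p : NL, (Fin (p.1.2 + 1) × Fin (p.1.1 + 1)) =>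
        (⟨q.1, (q.2.1, Sum.inr (Sum.inl (Fin.last _)))⟩ : Σ p : NL, Ix p.1.1 p.1.2)
  · have := EasyP.const (L := fun q : Σ p : NL, Fin (p.1.2 + 1) => LL q.1)
      (σ := fun q => σ q.1) fun _ => 0
    simpa [B1C] using this

theorem easyP_B2C {d : ∀ p : NL, Fin (p.1.1 + 1) → MvPolynomial (σ p) ℤ}
    {x : ∀ p : NL, Ix p.1.1 p.1.2 → MvPolynomial (σ p) ℤ}
    (hd : EasyP LL (fun p => Set.range (d p))) (hx : EasyP LL (fun p => Set.range (x p))) :
    EasyP LL (fun p => Set.range (B2C (d p) (x p))) := by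
  have d' := hd.of_range
  have x' := hx.of_range
  refine easyP_Ix ?_ ?_ ?_
  · refine EasyP.mul (EasyP.mul ?_ ?_) ?_
    · exact d'.comap fun q : Σ p : NL, (Fin (p.1.2 + 1) × (Fin (p.1.1 + 1) × Fin (p.1.1 + 1))) =>
        (⟨q.1, q.2.2.1⟩ : Σ p : NL, Fin (p.1.1 + 1))
    · exact d'.comap fun q : Σ p : NL, (Fin (p.1.2 + 1) × (Fin (p.1.1 + 1) × Fin (p.1.1 + 1))) =>
        (⟨q.1, q.2.2.2⟩ : Σ p : NL, Fin (p.1.1 + 1))
    · exact x'.comap fun q : Σ p : NL, (Fin (p.1.2 + 1) × (Fin (p.1.1 + 1) × Fin (p.1.1 + 1))) =>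
        (⟨q.1, (q.2.1, Sum.inl (Fin.last _, Fin.last _))⟩ : Σ p : NL, Ix p.1.1 p.1.2)
  · have := EasyP.const (L := fun q : Σ p : NL, (Fin (p.1.2 + 1) × Fin (p.1.1 + 1)) => LL q.1)
      (σ := fun q => σ q.1) fun _ => 0
    simpa [B2C] using this
  · have := EasyP.const (L := fun q : Σ p : NL, Fin (p.1.2 + 1) => LL q.1)
      (σ := fun q => σ q.1) fun _ => 0
    simpa [B2C] using this

/-- The coefficients of `addT`. -/
lemma cfs_addT {R : Type*} [CommRing R] {n l : ℕ} (q : Fin (l + 1) → QP R (n + 1)) (t : R)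
    (i : Ix n l) : cfs (addT q t) i = cfs q i + B1B i * t := by
  obtain ⟨m, ij | i | u⟩ := i
  · by_cases hm : m = 0 <;> simp [cfs, addT, B1B, hm]
  · by_cases hm : m = 0 <;> simp [cfs, addT, B1B, hm]
  · by_cases hm : m = 0 <;> simp [cfs, addT, B1B, hm]

lemma map_B1B {R S : Type*} [CommRing R] [CommRing S] {n l : ℕ} (f : R →+* S) (i : Ix n l) :
    f (B1B i) = B1B i := by
  obtain ⟨m, ij | i | u⟩ := i
  · simp [B1B]
  · simp [B1B]
  · by_cases hm : m = 0 <;> simp [B1B, hm]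

lemma map_B1C {R S : Type*} [CommRing R] [CommRing S] {n l : ℕ} (f : R →+* S)
    (d : Fin (n + 1) → R) (x : Ix n l → R) (i : Ix n l) :
    f (B1C d x i) = B1C (fun j => f (d j)) (fun j => f (x j)) i := by
  obtain ⟨m, ⟨i, j⟩ | i | u⟩ := i <;> simp [B1C]

lemma map_B2C {R S : Type*} [CommRing R] [CommRing S] {n l : ℕ} (f : R →+* S)
    (d : Fin (n + 1) → R) (x : Ix n l → R) (i : Ix n l) :
    f (B2C d x i) = B2C (fun j => f (d j)) (fun j => f (x j)) i := by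
  obtain ⟨m, ⟨i, j⟩ | i | u⟩ := i <;> simp [B2C]

theorem easyP_addT {x : ∀ p : NL, Ix p.1.1 p.1.2 → MvPolynomial (σ p) ℤ}
    {t : ∀ p, MvPolynomial (σ p) ℤ}
    (hx : EasyP LL (fun p => Set.range (x p))) (ht : EasyP LL (fun p => {t p})) :
    EasyP LL (fun p => Set.range fun i => x p i + B1B i * t p) :=
  EasyP.range bd_card_Ix (hx.of_range.add (easyP_B1B.of_range.mul
    (ht.comap (Sigma.fst : (Σ p : NL, Ix p.1.1 p.1.2) → NL))))

end Pool.Agent.QC
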