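import Pool.Agent.QC.Elim.Data
import Pool.Agent.QC.Rec.EasyForm
import Pool.Agent.QC.Rec.SortMap

/-!
# The list of events: the results at all candidates
-/

namespace Pool.Agent.QC

open MvPolynomial Matrix Filter Topology Elim

/-! ### Evaluation of tuples of polynomials -/

section Ev

variable {σ : Type*} {n l : ℕ}

@[simp] lemma evHom_eq (y : σ → ℝ) (p : MvPolynomial σ ℤ) : evHom y p = ev y p := rfl

lemma ev_rename_some (y : σ → ℝ) (z : ℝ) (p : MvPolynomial σ ℤ) :
    ev (pt y z) (rename some p) = ev y p := by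
  rw [ev, ev, aeval_rename]
  rfl

/-- The values of a tuple of polynomials. -/
noncomputable def evTup (y : σ → ℝ) (q : Fin (l + 1) → QP (MvPolynomial σ ℤ) (n + 1)) : RTup n l :=
  fun m => qmap (evHom y) (q m)

lemma ev_fF (y : σ → ℝ) (q : Fin (l + 1) → QP (MvPolynomial σ ℤ) (n + 1))
    (x : Fin (n + 1) → MvPolynomial σ ℤ) :
    ev y (fF q x) = fF (evTup y q) (fun i => ev y (x i)) := map_fF (evHom y) q x

lemma ev_fG (y : σ → ℝ) (q : Fin (l + 1) → QP (MvPolynomial σ ℤ) (n + 1))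
    (x : Fin (n + 1) → MvPolynomial σ ℤ) (i : Fin (n + 1)) :
    ev y (fG q x i) = fG (evTup y q) (fun i => ev y (x i)) i := map_fG (evHom y) q x i

lemma ev_detL (y : σ → ℝ) (q : Fin (l + 1) → QP (MvPolynomial σ ℤ) (n + 1))
    (lam : Fin (l + 1) → MvPolynomial σ ℤ) :
    ev y (matL q lam).det = (matL (evTup y q) fun m => ev y (lam m)).det := by
  have h1 := map_det (evHom y) (matL q lam)
  rw [map_matL] at h1
  exact h1

lemma ev_solS (y : σ → ℝ) (q : Fin (l + 1) → QP (MvPolynomial σ ℤ) (n + 1))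
    (lam : Fin (l + 1) → MvPolynomial σ ℤ) (i : Fin (n + 1)) :
    ev y (solS q lam i) = solS (evTup y q) (fun m => ev y (lam m)) i :=
  map_solS (evHom y) q lam i

lemma evTup_tupOf (y : σ → ℝ) (g : Ix n l → MvPolynomial σ ℤ) :
    evTup y (tupOf g) = tupOf fun i => ev y (g i) := rfl

lemma evTup_addT (y : σ → ℝ) (q : Fin (l + 1) → QP (MvPolynomial σ ℤ) (n + 1))
    (t : MvPolynomial σ ℤ) : evTup y (addT q t) = addT (evTup y q) (ev y t) := by
  funext m
  by_cases hm : m = 0
  · subst hm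
    simp [evTup, addT, qmap]
  · simp [evTup, addT, qmap, hm]

end Ev

/-! ### The polynomials -/

section Defs

variable {n l : ℕ}

/-- Coefficients with the additional variable `t₀`. -/
noncomputable def toQ (A : Polynomial (MvPolynomial (Ix n l) ℤ)) :
    Polynomial (MvPolynomial (VQ n l) ℤ) :=
  A.map (rename (Sum.inl : Ix n l → VQ n l)).toRingHom

lemma spec_toQ (A : Polynomial (MvPolynomial (Ix n l) ℤ)) (y : VQ n l → ℝ) :
    spec (toQ A) y = spec A fun i => y (Sum.inl i) := by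
  rw [spec, toQ, Polynomial.map_map, spec]
  congr 1
  refine RingHom.ext fun p => ?_
  show ev y (rename Sum.inl p) = ev _ p
  rw [ev, ev, aeval_rename]
  rfl

/-- The value `A(T) / G(T)`, the last variable is `1 / G(T)`. -/
noncomputable def num2 (A : Polynomial (MvPolynomial (Ix n l) ℤ)) :
    MvPolynomial (Option (Option (VQ n l))) ℤ := rename some (ofPoly (toQ A)) * X none

lemma ev_num2 (A : Polynomial (MvPolynomial (Ix n l) ℤ)) (y : VQ n l → ℝ) (T z : ℝ) :
    ev (pt (pt y T) z) (num2 A) = (spec A fun i => y (Sum.inl i)).eval T * z := by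
  rw [num2, ev_mul, ev_rename_some, ev_ofPoly, spec_toQ, ev_X]
  rfl

/-- The generic tuple. -/
noncomputable def qP2 (n l : ℕ) :
    Fin (l + 1) → QP (MvPolynomial (Option (Option (VQ n l))) ℤ) (n + 1) :=
  tupOf fun i => X (some (some (Sum.inl i)))

lemma evTup_qP2 (y : VQ n l → ℝ) (T z : ℝ) : evTup (pt (pt y T) z) (qP2 n l) = yq y := by
  rw [qP2, evTup_tupOf, yq]
  congr 1
  funext i
  rw [ev_X]
  rfl

variable (Nu : Option (Fin (l + 1)) → Polynomial (MvPolynomial (Ix n l) ℤ))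

/-- The determinant of `A(lam)`. -/
noncomputable def detP : MvPolynomial (Option (Option (VQ n l))) ℤ :=
  (matL (qP2 n l) fun m => num2 (Nu (some m))).det

/-- Substitution of the event. -/
noncomputable def u3 : VE n l → MvPolynomial (Option (Option (Option (VQ n l)))) ℤ :=
  Sum.elim (fun i => X (some (some (some (Sum.inl i)))))
    (Sum.elim ![X (some (some (some (Sum.inr ())))), rename some (num2 (Nu none))]
      fun i => rename some (solS (qP2 n l) (fun m => num2 (Nu (some m))) i) * X none)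

lemma ev_detP (y : VQ n l → ℝ) (T z : ℝ) :
    ev (pt (pt y T) z) (detP Nu) =
      (matL (yq y) fun m => (spec (Nu (some m)) fun i => y (Sum.inl i)).eval T * z).det := by
  rw [detP, ev_detL, evTup_qP2]
  simp only [ev_num2]

lemma spt_u3 (y : VQ n l → ℝ) (T z w : ℝ) :
    spt (u3 Nu) (pt (pt (pt y T) z) w) = mkE (yq y) (y (Sum.inr ()))
      ((spec (Nu none) fun i => y (Sum.inl i)).eval T * z)
      (fun i => solS (yq y)
        (fun m => (spec (Nu (some m)) fun i => y (Sum.inl i)).eval T * z) i * w) := by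
  funext i
  rcases i with i | i | i
  · show ev _ (X (some (some (some (Sum.inl i))))) = _
    rw [ev_X, mkE, yq, cfs_tupOf]
    rfl
  · refine Fin.cases ?_ (fun i => ?_) i
    · show ev _ (X (some (some (some (Sum.inr ()))))) = _
      rw [ev_X]
      rfl
    · have hi : i = 0 := Subsingleton.elim _ _
      subst hi
      show ev _ (rename some (num2 (Nu none))) = _
      rw [ev_rename_some, ev_num2]
      rfl
  · show ev _ (rename some (solS (qP2 n l) (fun m => num2 (Nu (some m))) i) * X none) = _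
    rw [ev_mul, ev_rename_some, ev_solS, evTup_qP2, ev_X]
    simp only [ev_num2]
    rfl

/-- The generic tuple `q + t`. -/
noncomputable def qPE (n l : ℕ) : Fin (l + 1) → QP (MvPolynomial (VE n l) ℤ) (n + 1) :=
  addT (tupOf fun i => X (Sum.inl i)) (X (Sum.inr (Sum.inl 1)))

lemma evTup_qPE (y : VE n l → ℝ) : evTup y (qPE n l) = addT (yq y) (y (Sum.inr (Sum.inl 1))) := by
  rw [qPE, evTup_addT, evTup_tupOf, ev_X]
  simp only [ev_X]
  rfl

end Defs

/-! ### Easiness -/

section EasyT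

variable {κ : Type*} {L : κ → ℕ} {n l : κ → ℕ}

theorem EasyP.toQ {A : ∀ k, Polynomial (MvPolynomial (Ix (n k) (l k)) ℤ)}
    (hA : EasyP L (fun k => Set.range (A k).coeff)) :
    EasyP L (σ := fun k => VQ (n k) (l k)) (fun k => Set.range (QC.toQ (A k)).coeff) := by
  refine (hA.rename (τ := fun k => VQ (n k) (l k)) (fun k => Sum.inl)).mono fun k => ?_
  rintro _ ⟨j, rfl⟩
  rw [QC.toQ, Polynomial.coeff_map]
  exact ⟨_, ⟨j, rfl⟩, rfl⟩

theorem bd_toQ {A : ∀ k, Polynomial (MvPolynomial (Ix (n k) (l k)) ℤ)}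
    (hN : Bd L (fun k => (A k).natDegree)) : Bd L (fun k => (QC.toQ (A k)).natDegree) :=
  hN.mono fun k => Polynomial.natDegree_map_le

theorem EasyP.num1 {A : ∀ k, Polynomial (MvPolynomial (Ix (n k) (l k)) ℤ)}
    (hN : Bd L (fun k => (A k).natDegree)) (hA : EasyP L (fun k => Set.range (A k).coeff)) :
    EasyP L (σ := fun k => Option (VQ (n k) (l k))) (fun k => {QC.ofPoly (QC.toQ (A k))}) :=
  EasyP.ofPoly (bd_toQ hN) hA.toQ

theorem EasyP.renameSome {σ : κ → Type*} {p : ∀ k, MvPolynomial (σ k) ℤ}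
    (h : EasyP L (fun k => {p k})) :
    EasyP L (σ := fun k => Option (σ k)) (fun k => {MvPolynomial.rename some (p k)}) :=
  (h.rename (τ := fun k => Option (σ k)) (fun k => some)).mono fun k => by
    rintro _ rfl
    exact ⟨_, rfl, rfl⟩

theorem EasyP.varT {σ : κ → Type*} (i : ∀ k, σ k) :
    EasyP L (fun k => {(X (i k) : MvPolynomial (σ k) ℤ)}) :=
  EasyP.vars.mono fun k => by rintro _ rfl; exact ⟨i k, rfl⟩

theorem EasyP.num2 {A : ∀ k, Polynomial (MvPolynomial (Ix (n k) (l k)) ℤ)}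
    (hN : Bd L (fun k => (A k).natDegree)) (hA : EasyP L (fun k => Set.range (A k).coeff)) :
    EasyP L (σ := fun k => Option (Option (VQ (n k) (l k)))) (fun k => {QC.num2 (A k)}) :=
  (EasyP.num1 hN hA).renameSome.mul (EasyP.varT fun k => none)

theorem easyQ_qP2 (hn : Bd L n) (hl : Bd L l) :
    EasyQ L (σ := fun k => Option (Option (VQ (n k) (l k)))) (fun k => qP2 (n k) (l k)) := by
  refine ⟨hn.add (Bd.const 1), hl, EasyP.vars.mono fun k => ?_, EasyP.vars.mono fun k => ?_,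
    EasyP.vars.mono fun k => ?_⟩
  · rintro _ ⟨x, rfl⟩; exact ⟨some (some (Sum.inl (x.1, Sum.inl (x.2.1, x.2.2)))), rfl⟩
  · rintro _ ⟨x, rfl⟩; exact ⟨some (some (Sum.inl (x.1, Sum.inr (Sum.inl x.2)))), rfl⟩
  · rintro _ ⟨x, rfl⟩; exact ⟨some (some (Sum.inl (x, Sum.inr (Sum.inr ())))), rfl⟩

theorem easyQ_qPE (hn : Bd L n) (hl : Bd L l) :
    EasyQ L (σ := fun k => VE (n k) (l k)) (fun k => qPE (n k) (l k)) := by
  refine ⟨hn.add (Bd.const 1), hl, EasyP.vars.mono fun k => ?_, EasyP.vars.mono fun k => ?_, ?_⟩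
  · rintro _ ⟨x, rfl⟩
    refine ⟨Sum.inl (x.1, Sum.inl (x.2.1, x.2.2)), ?_⟩
    show X (Sum.inl (x.1, Sum.inl (x.2.1, x.2.2))) = (addT (tupOf fun i => X (Sum.inl i)) _ x.1).1
      x.2.1 x.2.2
    rw [addT]
    split_ifs with h
    · rw [h]; rfl
    · rfl
  · rintro _ ⟨x, rfl⟩
    refine ⟨Sum.inl (x.1, Sum.inr (Sum.inl x.2)), ?_⟩
    show X (Sum.inl (x.1, Sum.inr (Sum.inl x.2))) = (addT (tupOf fun i => X (Sum.inl i)) _ x.1).2.1
      x.2
    rw [addT]
    split_ifs with h
    · rw [h]; rfl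
    · rfl
  · refine ((EasyP.vars (L := L) (σ := fun k => VE (n k) (l k))).union
      ((EasyP.varT fun k => (Sum.inl (0, Sum.inr (Sum.inr ())) : VE (n k) (l k))).add
      (EasyP.varT fun k => (Sum.inr (Sum.inl 1) : VE (n k) (l k))))).mono fun k => ?_
    rintro _ ⟨x, rfl⟩
    show (addT (tupOf fun i => X (Sum.inl i)) _ x).2.2 ∈ _
    rw [addT]
    split_ifs with h
    · exact Or.inr rfl
    · exact Or.inl ⟨Sum.inl (x, Sum.inr (Sum.inr ())), rfl⟩

end EasyT

end Pool.Agent.QC
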