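import Pool.Agent.QC.Rec.Sub

/-!
# The three words of an event are computed
-/

namespace Pool.Agent.QC

open MvPolynomial Filter Topology Set

/-- Variables `q`, `(t₀, t, κ, ω)`, `c`. -/
abbrev WV (n l : ℕ) := Ix n l ⊕ (Fin 4 ⊕ Fin n)

section Defs

variable {n l : ℕ} {R : Type*} [CommRing R]

/-- The path A as a substitution. -/
def uA (z₀ : Ix n l → R) (x : Ix n l → R) (t₀ ω : R) : PV n l 4 → R :=
  yP 1 ω z₀ (fun i => (x i + B1B i * t₀) - z₀ i) (fun _ => 0)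

/-- The path B. -/
def uB (x : Ix n l → R) (t₀ t ω : R) : PV n l 4 → R :=
  yP (t - t₀) ω (fun i => x i + B1B i * t₀) B1B (fun _ => 0)

/-- The path C. -/
def uC (x : Ix n l → R) (t ω : R) (d : Fin (n + 1) → R) : PV n l 4 → R :=
  yP 1 ω (fun i => x i + B1B i * t) (B1C d fun i => x i + B1B i * t)
    (B2C d fun i => x i + B1B i * t)

end Defs

variable (E : ElimData) (z₀ : ∀ p : NL, Ix p.1.1 p.1.2 → ℤ)

section Dom

variable {n l : ℕ} {Phi : MvPolynomial (Ix n l) ℂ} (RS : RootSys Phi) (q₀ : Tup n l)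

/-- The frame vector of a point. -/
def wc (w : WV n l → ℝ) : Fin n → ℝ := fun j => w (Sum.inr (Sum.inr j))

/-- The coordinates `t₀, t, κ, ω`. -/
def ws (w : WV n l → ℝ) (j : Fin 4) : ℝ := w (Sum.inr (Sum.inl j))

/-- The domain of the words. -/
def DW (Phi : MvPolynomial (Ix n l) ℂ) (q₀ : Tup n l) : Set (WV n l → ℝ) :=
  {w | ∀ s ∈ Icc (0 : ℝ) 1,
    eval (cfs (pathA q₀ (tC (addT (yq w) (ws w 0))) (ws w 3) s)) Phi ≠ 0 ∧
    eval (cfs (pathB (tC (yq w)) (ws w 0) ((ws w 1 + ws w 2 : ℝ) : ℂ) (ws w 3) s)) Phi ≠ 0 ∧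
    eval (cfs (pathC (tC (addT (yq w) (ws w 1 + ws w 2))) (xC (wc w)) (ws w 3) s)) Phi ≠ 0}

/-- The three words. -/
noncomputable def FW (w : WV n l → ℝ) : Wrd × Wrd × Wrd :=
  (word (fun s => RS.Rt (pathA q₀ (tC (addT (yq w) (ws w 0))) (ws w 3) s)),
    word (fun s => RS.Rt (pathB (tC (yq w)) (ws w 0) ((ws w 1 + ws w 2 : ℝ) : ℂ) (ws w 3) s)),
    word (fun s => RS.Rt (pathC (tC (addT (yq w) (ws w 1 + ws w 2))) (xC (wc w)) (ws w 3) s)))

end Dom

section Pts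

variable {n l : ℕ}

lemma cfs_yq {τ : Type*} (w : Ix n l ⊕ τ → ℝ) (i : Ix n l) : cfs (yq w) i = w (Sum.inl i) := by
  rw [yq, cfs_tupOf]

lemma tC_tupOf_int (z : Ix n l → ℤ) :
    tC (tupOf fun i => (z i : ℝ)) = tupOf fun i => (z i : ℂ) := by
  apply cfs_injective
  rw [cfs_tupOf]
  funext i
  obtain ⟨m, ij | i | u⟩ := i <;> simp [cfs, tC, tupOf]

lemma pathA_uA (z : Ix n l → ℤ) (w : WV n l → ℝ) (s : ℝ) :
    pathA (tupOf fun i => (z i : ℂ)) (tC (addT (yq w) (ws w 0))) (ws w 3) s =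
      ppath (uA (fun i => (z i : ℝ)) (fun i => w (Sum.inl i)) (ws w 0) (ws w 3)) s := by
  rw [← tC_tupOf_int, pathA_eq]
  congr 1
  unfold uA
  congr 1
  · rw [cfs_tupOf]
  · funext i
    rw [cfs_addT, cfs_yq, cfs_tupOf]

lemma pathB_uB (w : WV n l → ℝ) (s : ℝ) :
    pathB (tC (yq w)) (ws w 0) ((ws w 1 + ws w 2 : ℝ) : ℂ) (ws w 3) s =
      ppath (uB (fun i => w (Sum.inl i)) (ws w 0) (ws w 1 + ws w 2) (ws w 3)) s := by
  rw [pathB_eq]
  congr 1
  unfold uB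
  congr 1
  funext i
  rw [cfs_addT, cfs_yq]

lemma pathC_uC (w : WV n l → ℝ) (s : ℝ) :
    pathC (tC (addT (yq w) (ws w 1 + ws w 2))) (xC (wc w)) (ws w 3) s =
      ppath (uC (fun i => w (Sum.inl i)) (ws w 1 + ws w 2) (ws w 3)
        (Fin.snoc (wc w) 0 : Fin (n + 1) → ℝ)) s := by
  rw [pathC_eq]
  have h : cfs (addT (yq w) (ws w 1 + ws w 2)) =
      fun i => w (Sum.inl i) + B1B i * (ws w 1 + ws w 2) := by
    funext i
    rw [cfs_addT, cfs_yq]
  rw [h]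
  rfl

/-- The variables as polynomials. -/
noncomputable def vX (n l : ℕ) : Ix n l → MvPolynomial (WV n l) ℤ := fun i => X (Sum.inl i)

/-- The variables as polynomials. -/
noncomputable def vS (n l : ℕ) (j : Fin 4) : MvPolynomial (WV n l) ℤ :=
  X (Sum.inr (Sum.inl j))

/-- The variables as polynomials. -/
noncomputable def vD (n l : ℕ) : Fin (n + 1) → MvPolynomial (WV n l) ℤ :=
  Fin.snoc (fun j => X (Sum.inr (Sum.inr j))) 0

lemma ev_B1B {τ : Type*} (w : τ → ℝ) (i : Ix n l) : ev w (B1B i) = B1B i :=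
  map_B1B (evHom w) i

lemma spt_uA (z : Ix n l → ℤ) (w : WV n l → ℝ) :
    spt (uA (fun i => C (z i)) (vX n l) (vS n l 0) (vS n l 3)) w =
      uA (fun i => (z i : ℝ)) (fun i => w (Sum.inl i)) (ws w 0) (ws w 3) := by
  funext j
  show evHom w _ = _
  unfold uA
  rw [map_yP]
  simp [vX, vS, ws, ev_B1B]

lemma spt_uB (w : WV n l → ℝ) :
    spt (uB (vX n l) (vS n l 0) (vS n l 1 + vS n l 2) (vS n l 3)) w =
      uB (fun i => w (Sum.inl i)) (ws w 0) (ws w 1 + ws w 2) (ws w 3) := by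
  funext j
  show evHom w _ = _
  unfold uB
  rw [map_yP]
  simp [vX, vS, ws, ev_B1B]

lemma ev_vD (w : WV n l → ℝ) (j : Fin (n + 1)) :
    evHom w (vD n l j) = (Fin.snoc (wc w) 0 : Fin (n + 1) → ℝ) j := by
  unfold vD
  refine Fin.lastCases ?_ (fun i => ?_) j
  · simp
  · simp [wc]

lemma spt_uC (w : WV n l → ℝ) :
    spt (uC (vX n l) (vS n l 1 + vS n l 2) (vS n l 3) (vD n l)) w =
      uC (fun i => w (Sum.inl i)) (ws w 1 + ws w 2) (ws w 3)
        (Fin.snoc (wc w) 0 : Fin (n + 1) → ℝ) := by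
  funext j
  show evHom w _ = _
  unfold uC
  rw [map_yP]
  simp only [map_B1C, map_B2C, ev_vD]
  simp [vX, vS, ws, ev_B1B]

end Pts

theorem easyP_vX : EasyP LL (fun p => Set.range (vX p.1.1 p.1.2)) :=
  EasyP.vars.mono fun p => by rintro _ ⟨i, rfl⟩; exact ⟨_, rfl⟩

theorem easyP_vS (j : Fin 4) : EasyP LL (fun p => {vS p.1.1 p.1.2 j}) := EasyP.var _

theorem easyP_vD : EasyP LL (fun p => Set.range (vD p.1.1 p.1.2)) := by
  refine (EasyP.vars.insert_const fun _ => 0).mono fun p => ?_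
  rintro _ ⟨j, rfl⟩
  refine Fin.lastCases ?_ (fun i => ?_) j
  · left; simp [vD]
  · right; exact ⟨Sum.inr (Sum.inr i), by simp [vD]⟩

/-- (C2) The three words of an event are computed. -/
theorem easy_FW : Easy LL (σ := fun p : NL => WV p.1.1 p.1.2)
    (fun p => DW (E.Phi p) (tupOf fun i => (z₀ p i : ℂ)))
    (fun p => FW (E.RS p) (tupOf fun i => (z₀ p i : ℂ))) := by
  have h1 : EasyP LL (σ := fun p : NL => WV p.1.1 p.1.2) (fun _ => {1}) := by
    have := EasyP.const (L := LL) (σ := fun p : NL => WV p.1.1 p.1.2) fun _ => 1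
    simpa using this
  have h0 : EasyP LL (fun p : NL => Set.range fun _ : Ix p.1.1 p.1.2 =>
      (0 : MvPolynomial (WV p.1.1 p.1.2) ℤ)) :=
    easyP_const_range _ 0 fun p k => by simp
  have hA : EasyP LL (fun p : NL => Set.range (uA (fun i => C (z₀ p i)) (vX p.1.1 p.1.2)
      (vS p.1.1 p.1.2 0) (vS p.1.1 p.1.2 3))) := by
    refine easyP_yP h1 (easyP_vS 3) ?_ ?_ h0
    · exact EasyP.range bd_card_Ix (EasyP.const fun q : (Σ p : NL, Ix p.1.1 p.1.2) => z₀ q.1 q.2)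
    · exact EasyP.range bd_card_Ix ((easyP_addT easyP_vX (easyP_vS 0)).of_range.sub
        (EasyP.const fun q : (Σ p : NL, Ix p.1.1 p.1.2) => z₀ q.1 q.2))
  have hB : EasyP LL (fun p : NL => Set.range (uB (vX p.1.1 p.1.2) (vS p.1.1 p.1.2 0)
      (vS p.1.1 p.1.2 1 + vS p.1.1 p.1.2 2) (vS p.1.1 p.1.2 3))) :=
    easyP_yP (((easyP_vS 1).add (easyP_vS 2)).sub (easyP_vS 0)) (easyP_vS 3)
      (easyP_addT easyP_vX (easyP_vS 0)) easyP_B1B h0
  have hx := easyP_addT easyP_vX ((easyP_vS 1).add (easyP_vS 2))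
  have hC : EasyP LL (fun p : NL => Set.range (uC (vX p.1.1 p.1.2)
      (vS p.1.1 p.1.2 1 + vS p.1.1 p.1.2 2) (vS p.1.1 p.1.2 3) (vD p.1.1 p.1.2))) :=
    easyP_yP h1 (easyP_vS 3) hx (easyP_B1C easyP_vD hx) (easyP_B2C easyP_vD hx)
  have kA := (easy_pathWord E).subst hA
    (D₁ := fun p => DW (E.Phi p) (tupOf fun i => (z₀ p i : ℂ))) (fun p w hw s hs => by
      rw [spt_uA, ← pathA_uA]; exact (hw s hs).1)
  have kB := (easy_pathWord E).subst hB
    (D₁ := fun p => DW (E.Phi p) (tupOf fun i => (z₀ p i : ℂ))) (fun p w hw s hs => by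
      rw [spt_uB, ← pathB_uB]; exact (hw s hs).2.1)
  have kC := (easy_pathWord E).subst hC
    (D₁ := fun p => DW (E.Phi p) (tupOf fun i => (z₀ p i : ℂ))) (fun p w hw s hs => by
      rw [spt_uC, ← pathC_uC]; exact (hw s hs).2.2)
  refine (kA.pair (kB.pair kC)).congr fun p w hw => ?_
  unfold FW
  simp only [spt_uA, spt_uB, spt_uC, pathA_uA, pathB_uB, pathC_uC]

end Pool.Agent.QC
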